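import Mathlib

set_option autoImplicit false

open Set
open scoped Manifold ContDiff

namespace Pool.Agent.H843R2.Core

/-- The model space `ℝ⁴`. -/
abbrev E4 := EuclideanSpace ℝ (Fin 4)

/-- A function on the plane `ℂ` whose superlevel set `{z | 0 ≤ planar k z}` is the closed disk of
radius `3 k + 2` with the `k` pairwise disjoint open unit disks around `0, 3, …, 3 (k - 1)`
removed, and which has `0` as a regular value. -/
noncomputable def planar (k : ℕ) (z : ℂ) : ℝ :=
  ((3 * k + 2) ^ 2 - ‖z‖ ^ 2) * ∏ j ∈ Finset.range k, (‖z - 3 * j‖ ^ 2 - 1)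

/-- The standard three-dimensional handlebody of genus `g`: the thickening (with rounded corners)
`{(z, w) ∈ ℂ × ℝ | w² ≤ planar g z}` of the disk with `g` holes. -/
def handlebody3 (g : ℕ) : Set (ℂ × ℝ) := {x | x.2 ^ 2 ≤ planar g x.1}

/-- The boundary of the standard three-dimensional handlebody: the standard closed orientable
surface of genus `g`. -/
def surface (g : ℕ) : Set (ℂ × ℝ) := {x | x.2 ^ 2 = planar g x.1}

/-- The standard four-dimensional handlebody `♮ᵏ (S¹ × B³)`: the product (with rounded corners)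
`{(z, w) ∈ ℂ × ℂ | |w|² ≤ planar k z}` of the disk with `k` holes and the two-dimensional disk. -/
def handlebody4 (k : ℕ) : Set (ℂ × ℂ) := {x | ‖x.2‖ ^ 2 ≤ planar k x.1}

/-- The boundary of the standard four-dimensional handlebody `♮ᵏ (S¹ × B³)`. -/
def handlebody4Bdry (k : ℕ) : Set (ℂ × ℂ) := {x | ‖x.2‖ ^ 2 = planar k x.1}

/-- A (topological) trisection of type `(g; k 0, k 1, k 2)` of the closed `4`-manifold `X`, with
sectors `P 0, P 1, P 2`. Every smooth trisection is one. -/
structure IsTrisection {X : Type*} [TopologicalSpace X] (g : ℕ) (k : Fin 3 → ℕ)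
    (P : Fin 3 → Set X) : Prop where
  /-- The sectors cover `X`. -/
  cover : ⋃ i, P i = univ
  /-- The sectors have pairwise disjoint interiors. -/
  disjoint_interior : ∀ i j, i ≠ j → Disjoint (interior (P i)) (interior (P j))
  /-- Each sector is a four-dimensional handlebody `♮ᵏ (S¹ × B³)`. -/
  sector : ∀ i, ∃ φ : handlebody4 (k i) ≃ₜ P i,
    ∀ x : handlebody4 (k i), (x : ℂ × ℂ) ∈ handlebody4Bdry (k i) ↔ (φ x : X) ∈ frontier (P i)
  /-- Each pairwise intersection is a three-dimensional handlebody of genus `g`, with boundary the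
  triple intersection. -/
  double : ∀ i j, i ≠ j → ∃ ψ : handlebody3 g ≃ₜ (P i ∩ P j : Set X),
    ∀ x : handlebody3 g, (x : ℂ × ℝ) ∈ surface g ↔ (ψ x : X) ∈ ⋂ l, P l

section smooth

variable (X : Type*) [TopologicalSpace X] [ChartedSpace E4 X]

/-- `X` is orientable: it has a smooth atlas whose transition maps have positive Jacobian. -/
def IsOrientable : Prop :=
  ∃ A : Set (OpenPartialHomeomorph X E4), A ⊆ IsManifold.maximalAtlas (𝓡 4) ∞ X ∧
    (∀ x : X, ∃ c ∈ A, x ∈ c.source) ∧
    ∀ c ∈ A, ∀ c' ∈ A, ∀ u ∈ (c.symm.trans c').source,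
      0 < (fderiv ℝ (c.symm.trans c') u).det

variable {X}

/-- `S` is the boundary of a handlebody of genus `g` smoothly embedded in `X`; in particular `S`
is a smoothly embedded closed orientable surface of genus `g`. -/
def BoundsHandlebody (g : ℕ) (S : Set X) : Prop :=
  ∃ (U : Set (ℂ × ℝ)) (e : ℂ × ℝ → X), IsOpen U ∧ handlebody3 g ⊆ U ∧
    ContMDiffOn 𝓘(ℝ, ℂ × ℝ) (𝓡 4) ∞ e U ∧ InjOn e (handlebody3 g) ∧
    (∀ x ∈ handlebody3 g, Function.Injective (mfderiv 𝓘(ℝ, ℂ × ℝ) (𝓡 4) e x)) ∧
    S = e '' surface g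

/-- `x` is a critical point of `f`. -/
def IsCritical (f : X → ℝ) (x : X) : Prop :=
  fderiv ℝ (f ∘ (extChartAt (𝓡 4) x).symm) (extChartAt (𝓡 4) x x) = 0

/-- The determinant of the Hessian of `f` in the chart at `x`. -/
noncomputable def hessianDet (f : X → ℝ) (x : X) : ℝ :=
  Matrix.det (Matrix.of fun a b : Fin 4 =>
    fderiv ℝ (fderiv ℝ (f ∘ (extChartAt (𝓡 4) x).symm)) (extChartAt (𝓡 4) x x)
      (EuclideanSpace.single a 1) (EuclideanSpace.single b 1))

variable (X)

/-- The Euler characteristic of the closed `4`-manifold `X` is `n`, computed from a Morse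
function: `n` is the sum over the critical points of `(-1)^index`, which is the sign of the
determinant of the Hessian. -/
def HasEulerCharacteristic (n : ℤ) : Prop :=
  ∃ f : X → ℝ, ContMDiff (𝓡 4) 𝓘(ℝ, ℝ) ∞ f ∧
    ∃ C : Finset X, (∀ x, x ∈ C ↔ IsCritical f x) ∧ (∀ x ∈ C, hessianDet f x ≠ 0) ∧
      ∑ x ∈ C, ((SignType.sign (hessianDet f x) : SignType) : ℤ) = n

end smooth

end Pool.Agent.H843R2.Core
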