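import Mathlib
import Pool.Agent.Helper206.BoxS.SphereSC

set_option autoImplicit false

open Set Metric Module Topology

namespace Pool.Agent.H843R2.Core

abbrev R3 := EuclideanSpace ℝ (Fin 3)

/-- the unit sphere in three-space -/
abbrev Sph := sphere (0 : R3) 1

instance instSCSph : SimplyConnectedSpace Sph :=
  Helper206.BoxS.Sph.simplyConnected_sphere (by simp)

/-- `S² × S²` -/
abbrev M : Type := Sph × Sph

noncomputable section

instance instSCM : SimplyConnectedSpace M := by
  rw [simply_connected_iff_paths_homotopic]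
  refine ⟨inferInstance, ?_⟩
  rintro ⟨x1, x2⟩ ⟨y1, y2⟩
  refine ⟨fun p p' => ?_⟩
  rw [← Path.Homotopic.prod_projLeft_projRight p, ← Path.Homotopic.prod_projLeft_projRight p']
  congr 1
  · exact Subsingleton.elim _ _
  · exact Subsingleton.elim _ _

/-- the space of `3 × 3` matrices of rank one and norm one -/
def X : Type := {B : Fin 3 → Fin 3 → ℝ // ∃ x y : Sph, B = fun i j => x.1 i * y.1 j}

instance instTX : TopologicalSpace X := inferInstanceAs (TopologicalSpace (Subtype _))
instance instT2X : T2Space X := inferInstanceAs (T2Space (Subtype _))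

/-- the double covering `S² × S² → X` -/
def q (m : M) : X := ⟨fun i j => m.1.1 i * m.2.1 j, m.1, m.2, rfl⟩

lemma q_surj : Function.Surjective q := by
  rintro ⟨B, x, y, rfl⟩
  exact ⟨(x, y), rfl⟩

lemma q_val (m : M) (i j : Fin 3) : (q m).1 i j = m.1.1 i * m.2.1 j := rfl

lemma q_cont : Continuous q := by
  refine Continuous.subtype_mk ?_ _
  fun_prop

instance instCX : CompactSpace X := by
  rw [← isCompact_univ_iff, ← q_surj.range_eq]
  exact isCompact_range q_cont

instance instPCX : PathConnectedSpace X := q_surj.pathConnectedSpace q_cont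

lemma q_quot : IsQuotientMap q :=
  q_cont.isClosedMap.isQuotientMap q_cont q_surj

lemma neg_cont : Continuous fun m : M => -m := by
  refine Continuous.prodMk ?_ ?_
  · exact Continuous.subtype_mk (by fun_prop) _
  · exact Continuous.subtype_mk (by fun_prop) _

lemma q_neg (m : M) : q (-m) = q m := by
  apply Subtype.ext
  funext i j
  simp [q_val]

lemma norm_sq (x : Sph) : x.1 0 ^ 2 + x.1 1 ^ 2 + x.1 2 ^ 2 = 1 := by
  have h : ‖x.1‖ = 1 := by simp
  have := EuclideanSpace.norm_sq_eq x.1
  rw [h, Fin.sum_univ_three] at this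
  simp only [Real.norm_eq_abs, sq_abs] at this
  linarith

lemma sph_ext {x y : Sph} (h : ∀ i, x.1 i = y.1 i) : x = y := by
  apply Subtype.ext
  ext i
  exact h i

lemma exists_ne (x : Sph) : ∃ i, x.1 i ≠ 0 := by
  by_contra h
  push Not at h
  have := norm_sq x
  rw [h 0, h 1, h 2] at this
  norm_num at this

lemma neg_ne (m : M) : -m ≠ m := by
  intro h
  obtain ⟨i, hi⟩ := exists_ne m.1
  have := congrArg (fun m : M => m.1.1 i) h
  simp at this
  exact hi (by linarith)

lemma q_eq_iff {m m' : M} : q m = q m' ↔ m = m' ∨ m = -m' := by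
  constructor
  · intro h
    have h' : ∀ i j, m.1.1 i * m.2.1 j = m'.1.1 i * m'.2.1 j := fun i j =>
      congrFun (congrFun (congrArg Subtype.val h) i) j
    obtain ⟨i, hi⟩ := exists_ne m.1
    obtain ⟨j, hj⟩ := exists_ne m.2
    have hij : m'.1.1 i * m'.2.1 j ≠ 0 := by rw [← h']; exact mul_ne_zero hi hj
    have hi' : m'.1.1 i ≠ 0 := left_ne_zero_of_mul hij
    have hj' : m'.2.1 j ≠ 0 := right_ne_zero_of_mul hij
    set t : ℝ := m'.2.1 j / m.2.1 j with ht
    have hx : ∀ k, m.1.1 k = t * m'.1.1 k := by
      intro k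
      have := h' k j
      rw [ht]
      field_simp
      linarith
    have ht2 : t ^ 2 = 1 := by
      have e1 := norm_sq m.1
      have e2 := norm_sq m'.1
      rw [hx 0, hx 1, hx 2] at e1
      have : t ^ 2 * (m'.1.1 0 ^ 2 + m'.1.1 1 ^ 2 + m'.1.1 2 ^ 2) = 1 := by linarith
      rwa [e2, mul_one] at this
    have hy : ∀ k, m.2.1 k = t * m'.2.1 k := by
      intro k
      have e1 := h' i k
      rw [hx i] at e1
      have e2 : m'.1.1 i * (t * m.2.1 k - m'.2.1 k) = 0 := by linarith
      have e3 := (mul_eq_zero.mp e2).resolve_left hi'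
      have : t * (t * m.2.1 k) = t * m'.2.1 k := by
        have : t * m.2.1 k = m'.2.1 k := by linarith
        rw [this]
      have e4 : t * (t * m.2.1 k) = t ^ 2 * m.2.1 k := by ring
      rw [e4, ht2, one_mul] at this
      exact this
    rcases sq_eq_one_iff.mp ht2 with h1 | h1
    · left
      refine Prod.ext (sph_ext fun i => ?_) (sph_ext fun i => ?_) <;> simp [hx, hy, h1]
    · right
      refine Prod.ext (sph_ext fun i => ?_) (sph_ext fun i => ?_) <;> simp [hx, hy, h1]
  · rintro (rfl | rfl)
    · rfl
    · exact q_neg _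

instance instSMulZ : SMul ℤˣ M where
  smul u m := if u = 1 then m else -m

instance instAct : MulAction ℤˣ M where
  one_smul m := by
    show (if (1 : ℤˣ) = 1 then m else -m) = m
    simp
  mul_smul u v m := by
    show (if u * v = 1 then m else -m) =
      if u = 1 then (if v = 1 then m else -m) else -(if v = 1 then m else -m)
    rcases Int.units_eq_one_or u with rfl | rfl <;> rcases Int.units_eq_one_or v with rfl | rfl <;>
      simp

lemma neg_one_smul' (m : M) : (-1 : ℤˣ) • m = -m := by
  show (if (-1 : ℤˣ) = 1 then m else -m) = -m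
  simp

lemma q_cov : IsQuotientCoveringMap q ℤˣ where
  toIsQuotientMap := q_quot
  continuous_const_smul u := by
    rcases Int.units_eq_one_or u with rfl | rfl
    · simp only [one_smul]
      exact continuous_id
    · simp only [neg_one_smul']
      exact neg_cont
  apply_eq_iff_mem_orbit {m m'} := by
    rw [q_eq_iff, MulAction.mem_orbit_iff]
    constructor
    · rintro (h | h)
      · exact ⟨1, by rw [one_smul, h]⟩
      · exact ⟨-1, by rw [neg_one_smul', h]⟩
    · rintro ⟨u, hu⟩
      rcases Int.units_eq_one_or u with rfl | rfl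
      · left; rw [← hu, one_smul]
      · right; rw [← hu, neg_one_smul']
  disjoint e := by
    refine ⟨{m : M | 0 < inner ℝ m.1.1 e.1.1}, ?_, ?_⟩
    · refine IsOpen.mem_nhds ?_ ?_
      · exact isOpen_lt continuous_const (by fun_prop)
      · show 0 < inner ℝ e.1.1 e.1.1
        rw [real_inner_self_eq_norm_sq]
        have h : ‖e.1.1‖ = 1 := by simp
        rw [h]; norm_num
    · intro u hu
      rcases Int.units_eq_one_or u with rfl | rfl
      · rfl
      · exfalso
        obtain ⟨m, ⟨m', hm', rfl⟩, hm⟩ := hu
        simp only [neg_one_smul'] at hm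
        have h1 : 0 < inner ℝ (-m'.1.1) e.1.1 := hm
        have h2 : 0 < inner ℝ (m'.1.1) e.1.1 := hm'
        rw [inner_neg_left] at h1
        linarith

lemma q_isCov : IsCoveringMap q := q_cov.isCoveringMap

end

end Pool.Agent.H843R2.Core
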