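import Mathlib
import Pool.Agent.H843R2.Core.Defs
import Pool.Agent.H843R2.Core.Space

set_option autoImplicit false

open Set Metric Module Topology
open scoped Manifold ContDiff

namespace Pool.Agent.H843R2.Core

noncomputable section

/-! ### cyclic coordinates -/

lemma fin3_cases (i m : Fin 3) : m = i ∨ m = i + 1 ∨ m = i + 2 := by
  revert i m; decide

/-- the vector with entries `1, a, b` in positions `i, i + 1, i + 2` -/
def Xv (i : Fin 3) (a b : ℝ) (m : Fin 3) : ℝ := if m = i then 1 else if m = i + 1 then a else b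

@[simp] lemma Xv_0 (i : Fin 3) (a b : ℝ) : Xv i a b i = 1 := by simp [Xv]
@[simp] lemma Xv_1 (i : Fin 3) (a b : ℝ) : Xv i a b (i + 1) = a := by
  have : i + 1 ≠ i := by revert i; decide
  simp [Xv]
@[simp] lemma Xv_2 (i : Fin 3) (a b : ℝ) : Xv i a b (i + 2) = b := by
  have h1 : i + 2 ≠ i := by revert i; decide
  have h2 : i + 2 ≠ i + 1 := by revert i; decide
  simp [Xv, h2]

lemma sum_cyc (f : Fin 3 → ℝ) (i : Fin 3) : ∑ m, f m = f i + f (i + 1) + f (i + 2) := by
  rw [Fin.sum_univ_three]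
  fin_cases i
  · simp
  · show f 0 + f 1 + f 2 = f 1 + f 2 + f 0
    ring
  · show f 0 + f 1 + f 2 = f 2 + f 0 + f 1
    ring

lemma norm_sq_cyc (x : Sph) (i : Fin 3) : x.1 i ^ 2 + x.1 (i + 1) ^ 2 + x.1 (i + 2) ^ 2 = 1 := by
  rw [← sum_cyc (fun m => x.1 m ^ 2) i, Fin.sum_univ_three]
  exact norm_sq x

/-- the length of `Xv i a b` -/
def rho (a b : ℝ) : ℝ := Real.sqrt (1 + a ^ 2 + b ^ 2)

lemma rho_pos (a b : ℝ) : 0 < rho a b := Real.sqrt_pos.mpr (by positivity)
lemma rho_sq (a b : ℝ) : rho a b ^ 2 = 1 + a ^ 2 + b ^ 2 := Real.sq_sqrt (by positivity)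

/-- the unit vector in the direction of `Xv i a b` -/
def vec (i : Fin 3) (a b : ℝ) : Sph :=
  ⟨WithLp.toLp 2 fun m => Xv i a b m / rho a b, by
    have h : ‖(WithLp.toLp 2 fun m => Xv i a b m / rho a b : R3)‖ ^ 2 = 1 := by
      rw [EuclideanSpace.norm_sq_eq]
      simp only [Real.norm_eq_abs, sq_abs]
      rw [sum_cyc _ i]
      simp only [Xv_0, Xv_1, Xv_2, div_pow]
      rw [← add_div, ← add_div, rho_sq, one_pow]
      exact div_self (by positivity)
    have h2 : 0 ≤ ‖(WithLp.toLp 2 fun m => Xv i a b m / rho a b : R3)‖ := norm_nonneg _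
    rw [mem_sphere_zero_iff_norm]
    nlinarith⟩

lemma vec_apply (i : Fin 3) (a b : ℝ) (m : Fin 3) : (vec i a b).1 m = Xv i a b m / rho a b := rfl

/-- recovering a unit vector from its ratios -/
lemma vec_ratio (x : Sph) (i : Fin 3) (h : 0 < x.1 i) :
    vec i (x.1 (i + 1) / x.1 i) (x.1 (i + 2) / x.1 i) = x := by
  have hr : rho (x.1 (i + 1) / x.1 i) (x.1 (i + 2) / x.1 i) = (x.1 i)⁻¹ := by
    unfold rho
    rw [show 1 + (x.1 (i + 1) / x.1 i) ^ 2 + (x.1 (i + 2) / x.1 i) ^ 2 = ((x.1 i)⁻¹) ^ 2 by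
      have := norm_sq_cyc x i
      field_simp
      linarith]
    exact Real.sqrt_sq (by positivity)
  apply sph_ext
  intro m
  rw [vec_apply, hr]
  rcases fin3_cases i m with rfl | rfl | rfl
  · simp
  · simp; field_simp
  · simp; field_simp

/-- the sign of a Boolean -/
def sgn (s : Bool) : ℝ := if s then 1 else -1

lemma sgn_sq (s : Bool) : sgn s * sgn s = 1 := by cases s <;> simp [sgn]

/-- the local parametrisation, lifted to `S² × S²` -/
def par (i j : Fin 3) (s : Bool) (u : E4) : M :=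
  (vec i (u 0) (u 1), if s then vec j (u 2) (u 3) else -vec j (u 2) (-u 3))

lemma par_fst (i j : Fin 3) (s : Bool) (u : E4) (m : Fin 3) :
    (par i j s u).1.1 m = Xv i (u 0) (u 1) m / rho (u 0) (u 1) := rfl

lemma par_snd (i j : Fin 3) (s : Bool) (u : E4) (m : Fin 3) :
    (par i j s u).2.1 m = sgn s * Xv j (u 2) (sgn s * u 3) m / rho (u 2) (u 3) := by
  cases s
  · have h : rho (u 2) (-u 3) = rho (u 2) (u 3) := by simp [rho]
    have : (par i j false u).2 = -vec j (u 2) (-u 3) := by simp [par]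
    rw [this]
    show - (vec j (u 2) (-u 3)).1 m = _
    rw [vec_apply, h]
    simp [sgn]
    ring
  · have : (par i j true u).2 = vec j (u 2) (u 3) := by simp [par]
    rw [this, vec_apply]
    simp [sgn]

lemma par_cont (i j : Fin 3) (s : Bool) : Continuous (par i j s) := by
  have hX : ∀ (i m : Fin 3) (f g : E4 → ℝ), Continuous f → Continuous g →
      Continuous fun u => Xv i (f u) (g u) m := by
    intro i m f g hf hg
    unfold Xv
    split_ifs
    · exact continuous_const
    · exact hf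
    · exact hg
  have hr : ∀ (f g : E4 → ℝ), Continuous f → Continuous g → Continuous fun u => rho (f u) (g u) := by
    intro f g hf hg
    unfold rho
    fun_prop
  refine Continuous.prodMk ?_ ?_
  · refine Continuous.subtype_mk ?_ _
    refine (PiLp.continuous_toLp 2 _).comp (continuous_pi fun m => ?_)
    exact (hX _ _ _ _ (by fun_prop) (by fun_prop)).div (hr _ _ (by fun_prop) (by fun_prop))
      fun u => (rho_pos _ _).ne'
  · rw [Topology.IsInducing.subtypeVal.continuous_iff]
    have h2 : (Subtype.val ∘ fun u => (par i j s u).2) = fun u => WithLp.toLp 2 fun m =>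
        sgn s * Xv j (u 2) (sgn s * u 3) m / rho (u 2) (u 3) := by
      funext u
      ext m
      exact par_snd i j s u m
    have : (Subtype.val ∘ fun x : E4 => if s = true then vec j (x 2) (x 3) else -vec j (x 2) (-x 3))
      = (Subtype.val ∘ fun u => (par i j s u).2) := rfl
    rw [this, h2]
    refine (PiLp.continuous_toLp 2 _).comp (continuous_pi fun m => ?_)
    exact ((hX _ _ _ _ (by fun_prop) (by fun_prop)).const_mul _ |>.div
      (hr _ _ (by fun_prop) (by fun_prop)) fun u => (rho_pos _ _).ne')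

/-- the ratio coordinates on `X` -/
def rat (i j : Fin 3) (s : Bool) (B : Fin 3 → Fin 3 → ℝ) : E4 :=
  WithLp.toLp 2 ![B (i + 1) j / B i j, B (i + 2) j / B i j, B i (j + 1) / B i j,
    sgn s * (B i (j + 2) / B i j)]

lemma q_par (i j : Fin 3) (s : Bool) (u : E4) (m n : Fin 3) :
    (q (par i j s u)).1 m n = sgn s * Xv i (u 0) (u 1) m * Xv j (u 2) (sgn s * u 3) n /
      (rho (u 0) (u 1) * rho (u 2) (u 3)) := by
  rw [q_val, par_fst, par_snd]
  ring

lemma rat_par (i j : Fin 3) (s : Bool) (u : E4) : rat i j s (q (par i j s u)).1 = u := by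
  have h1 := (rho_pos (u 0) (u 1)).ne'
  have h2 := (rho_pos (u 2) (u 3)).ne'
  have hs := sgn_sq s
  have hs0 : sgn s ≠ 0 := by intro h; rw [h] at hs; simp at hs
  ext k
  unfold rat
  simp only [q_par, Xv_0, Xv_1, Xv_2]
  fin_cases k
  · simp
    field_simp
  · simp
    field_simp
  · simp
    field_simp
  · simp
    field_simp
    linear_combination (u 3) * hs

lemma par_rat (i j : Fin 3) (s : Bool) (B : X) (h : 0 < sgn s * B.1 i j) :
    q (par i j s (rat i j s B.1)) = B := by
  -- choose the representative with positive `i`-th coordinate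
  obtain ⟨m, rfl, hm⟩ : ∃ m' : M, q m' = B ∧ 0 < m'.1.1 i := by
    obtain ⟨m, rfl⟩ := q_surj B
    have hi : m.1.1 i ≠ 0 := by
      intro h0
      rw [q_val, h0] at h
      simp at h
    rcases lt_or_gt_of_ne hi with h1 | h1
    · exact ⟨-m, q_neg m, by simpa using h1⟩
    · exact ⟨m, rfl, h1⟩
  rw [q_val] at h
  have hj : m.2.1 j ≠ 0 := by
    intro h0
    rw [h0] at h
    simp at h
  have hu0 : ∀ k, rat i j s (q m).1 k = ![m.1.1 (i + 1) / m.1.1 i, m.1.1 (i + 2) / m.1.1 i,
      m.2.1 (j + 1) / m.2.1 j, sgn s * (m.2.1 (j + 2) / m.2.1 j)] k := by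
    intro k
    unfold rat
    simp only [q_val]
    fin_cases k
    · simp; field_simp
    · simp; field_simp
    · simp; field_simp
    · show sgn s * (m.1.1 i * m.2.1 (j + 2) / (m.1.1 i * m.2.1 j)) = _
      rw [mul_div_mul_left _ _ hm.ne']
      rfl
  have e0 : rat i j s (q m).1 0 = m.1.1 (i + 1) / m.1.1 i := hu0 0
  have e1 : rat i j s (q m).1 1 = m.1.1 (i + 2) / m.1.1 i := hu0 1
  have e2 : rat i j s (q m).1 2 = m.2.1 (j + 1) / m.2.1 j := hu0 2
  have e3 : rat i j s (q m).1 3 = sgn s * (m.2.1 (j + 2) / m.2.1 j) := hu0 3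
  congr 1
  unfold par
  rw [e0, e1, e2, e3]
  refine Prod.ext (vec_ratio _ _ hm) ?_
  cases s
  · have h3 : m.2.1 j < 0 := by
      simp only [sgn] at h
      by_contra h4
      push Not at h4
      have := mul_nonneg hm.le h4
      simp at h
      linarith
    have h4 : 0 < (-m.2 : Sph).1 j := by
      show 0 < -(m.2.1 j)
      linarith
    have := vec_ratio (-m.2) j h4
    have h5 : ∀ k, (-m.2 : Sph).1 k = -(m.2.1 k) := fun k => rfl
    simp only [h5, neg_div_neg_eq] at this
    simp only [sgn, if_false, Bool.false_eq_true]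
    rw [show -(-1 * (m.2.1 (j + 2) / m.2.1 j)) = m.2.1 (j + 2) / m.2.1 j by ring, this, neg_neg]
  · have h3 : 0 < m.2.1 j := by
      simp only [sgn] at h
      by_contra h4
      push Not at h4
      have := mul_nonpos_of_nonneg_of_nonpos hm.le h4
      simp at h
      linarith
    have := vec_ratio m.2 j h3
    simp only [sgn, if_true, one_mul]
    exact this

lemma entry_cont (i j : Fin 3) : Continuous fun B : X => B.1 i j := by
  have : Continuous fun B : X => B.1 := continuous_subtype_val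
  exact (continuous_apply j).comp ((continuous_apply i).comp this)

/-- the charts of `X` -/
def ch (i j : Fin 3) (s : Bool) : OpenPartialHomeomorph X E4 where
  toFun B := rat i j s B.1
  invFun u := q (par i j s u)
  source := {B | 0 < sgn s * B.1 i j}
  target := univ
  map_source' _ _ := mem_univ _
  map_target' u _ := by
    show 0 < sgn s * (q (par i j s u)).1 i j
    rw [q_par, Xv_0, Xv_0]
    have h1 := (rho_pos (u 0) (u 1))
    have h2 := (rho_pos (u 2) (u 3))
    have hs := sgn_sq s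
    have : sgn s * (sgn s * 1 * 1 / (rho (u 0) (u 1) * rho (u 2) (u 3))) =
      (sgn s * sgn s) / (rho (u 0) (u 1) * rho (u 2) (u 3)) := by ring
    rw [this, hs]
    positivity
  left_inv' B hB := par_rat i j s B hB
  right_inv' u _ := rat_par i j s u
  open_source := isOpen_lt continuous_const ((entry_cont i j).const_mul _)
  open_target := isOpen_univ
  continuousOn_toFun := by
    refine (PiLp.continuous_toLp 2 _).comp_continuousOn ?_
    refine continuousOn_pi.mpr fun k => ?_
    have h0 : ∀ B ∈ {B : X | 0 < sgn s * B.1 i j}, B.1 i j ≠ 0 := by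
      intro B hB h
      have : 0 < sgn s * B.1 i j := hB
      rw [h] at this
      simp at this
    have hd : ∀ i' j', ContinuousOn (fun B : X => B.1 i' j' / B.1 i j)
        {B : X | 0 < sgn s * B.1 i j} := fun i' j' =>
      (entry_cont i' j').continuousOn.div (entry_cont i j).continuousOn h0
    fin_cases k
    · exact hd _ _
    · exact hd _ _
    · exact hd _ _
    · exact (hd _ _).const_mul _
  continuousOn_invFun := (q_cont.comp (par_cont i j s)).continuousOn

lemma ch_source (i j : Fin 3) (s : Bool) (B : X) : B ∈ (ch i j s).source ↔ 0 < sgn s * B.1 i j :=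
  Iff.rfl

lemma exists_ch (B : X) : ∃ p : Fin 3 × Fin 3 × Bool, B ∈ (ch p.1 p.2.1 p.2.2).source := by
  obtain ⟨m, rfl⟩ := q_surj B
  obtain ⟨i, hi⟩ := exists_ne m.1
  obtain ⟨j, hj⟩ := exists_ne m.2
  have h : (q m).1 i j ≠ 0 := mul_ne_zero hi hj
  rcases lt_or_gt_of_ne h with h | h
  · exact ⟨(i, j, false), by rw [ch_source]; simpa [sgn] using h⟩
  · exact ⟨(i, j, true), by rw [ch_source]; simpa [sgn] using h⟩

/-- the index of the preferred chart at a point -/
def pidx (B : X) : Fin 3 × Fin 3 × Bool := (exists_ch B).choose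

lemma pidx_spec (B : X) : B ∈ (ch (pidx B).1 (pidx B).2.1 (pidx B).2.2).source :=
  (exists_ch B).choose_spec

instance instCS : ChartedSpace E4 X where
  atlas := range fun p : Fin 3 × Fin 3 × Bool => ch p.1 p.2.1 p.2.2
  chartAt B := ch (pidx B).1 (pidx B).2.1 (pidx B).2.2
  mem_chart_source := pidx_spec
  chart_mem_atlas B := ⟨pidx B, rfl⟩

lemma ch_mem (i j : Fin 3) (s : Bool) : ch i j s ∈ atlas E4 X := ⟨(i, j, s), rfl⟩

lemma Xv_contDiff (i m : Fin 3) (f g : E4 → ℝ) (hf : ContDiff ℝ ∞ f) (hg : ContDiff ℝ ∞ g) :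
    ContDiff ℝ ∞ fun u => Xv i (f u) (g u) m := by
  unfold Xv
  split_ifs
  · exact contDiff_const
  · exact hf
  · exact hg

/-- explicit transition map -/
def tr (i j : Fin 3) (s : Bool) (i' j' : Fin 3) (s' : Bool) (u : E4) : E4 :=
  WithLp.toLp 2 ![Xv i (u 0) (u 1) (i' + 1) / Xv i (u 0) (u 1) i',
    Xv i (u 0) (u 1) (i' + 2) / Xv i (u 0) (u 1) i',
    Xv j (u 2) (sgn s * u 3) (j' + 1) / Xv j (u 2) (sgn s * u 3) j',
    sgn s' * (Xv j (u 2) (sgn s * u 3) (j' + 2) / Xv j (u 2) (sgn s * u 3) j')]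

lemma trans_source (i j : Fin 3) (s : Bool) (i' j' : Fin 3) (s' : Bool) (u : E4) :
    u ∈ ((ch i j s).symm.trans (ch i' j' s')).source ↔
      0 < sgn s * sgn s' * (Xv i (u 0) (u 1) i' * Xv j (u 2) (sgn s * u 3) j') := by
  have h1 := (rho_pos (u 0) (u 1))
  have h2 := (rho_pos (u 2) (u 3))
  have h : u ∈ ((ch i j s).symm.trans (ch i' j' s')).source ↔
      0 < sgn s' * (q (par i j s u)).1 i' j' := by
    rw [OpenPartialHomeomorph.trans_source]
    constructor
    · intro h; exact h.2
    · intro h; exact ⟨mem_univ _, h⟩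
  rw [h, q_par]
  have e : sgn s' * (sgn s * Xv i (u 0) (u 1) i' * Xv j (u 2) (sgn s * u 3) j' /
      (rho (u 0) (u 1) * rho (u 2) (u 3))) = (sgn s * sgn s' * (Xv i (u 0) (u 1) i' *
      Xv j (u 2) (sgn s * u 3) j')) / (rho (u 0) (u 1) * rho (u 2) (u 3)) := by ring
  rw [e]
  constructor
  · intro h3
    by_contra h4
    push Not at h4
    have := div_nonpos_of_nonpos_of_nonneg h4 (mul_pos h1 h2).le
    linarith
  · intro h3
    positivity

lemma trans_eq (i j : Fin 3) (s : Bool) (i' j' : Fin 3) (s' : Bool) (u : E4)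
    (hu : u ∈ ((ch i j s).symm.trans (ch i' j' s')).source) :
    ((ch i j s).symm.trans (ch i' j' s')) u = tr i j s i' j' s' u := by
  rw [trans_source] at hu
  have h1 := (rho_pos (u 0) (u 1)).ne'
  have h2 := (rho_pos (u 2) (u 3)).ne'
  have hx : Xv i (u 0) (u 1) i' ≠ 0 := by
    intro h; rw [h] at hu; simp at hu
  have hy : Xv j (u 2) (sgn s * u 3) j' ≠ 0 := by
    intro h; rw [h] at hu; simp at hu
  have hs := sgn_sq s
  have hs0 : sgn s ≠ 0 := by intro h; rw [h] at hs; simp at hs
  show rat i' j' s' (q (par i j s u)).1 = _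
  unfold rat tr
  congr 1
  funext k
  fin_cases k
  · simp only [q_par]
    simp
    field_simp
  · simp only [q_par]
    simp
    field_simp
  · simp only [q_par]
    simp
    field_simp
  · simp only [q_par]
    simp
    left
    field_simp

lemma tr_contDiffOn (i j : Fin 3) (s : Bool) (i' j' : Fin 3) (s' : Bool) :
    ContDiffOn ℝ ∞ (tr i j s i' j' s')
      {u | Xv i (u 0) (u 1) i' ≠ 0 ∧ Xv j (u 2) (sgn s * u 3) j' ≠ 0} := by
  rw [contDiffOn_euclidean]
  have c0 : ∀ k : Fin 4, ContDiff ℝ ∞ fun u : E4 => u k := fun k => by fun_prop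
  have c1 : ContDiff ℝ ∞ fun u : E4 => sgn s * u 3 := contDiff_const.mul (c0 3)
  intro k
  fin_cases k
  · exact ((Xv_contDiff i _ _ _ (c0 0) (c0 1)).contDiffOn.div
      (Xv_contDiff i _ _ _ (c0 0) (c0 1)).contDiffOn fun u hu => hu.1)
  · exact ((Xv_contDiff i _ _ _ (c0 0) (c0 1)).contDiffOn.div
      (Xv_contDiff i _ _ _ (c0 0) (c0 1)).contDiffOn fun u hu => hu.1)
  · exact ((Xv_contDiff j _ _ _ (c0 2) c1).contDiffOn.div
      (Xv_contDiff j _ _ _ (c0 2) c1).contDiffOn fun u hu => hu.2)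
  · exact contDiffOn_const.mul ((Xv_contDiff j _ _ _ (c0 2) c1).contDiffOn.div
      (Xv_contDiff j _ _ _ (c0 2) c1).contDiffOn fun u hu => hu.2)

lemma source_sub {i j : Fin 3} {s : Bool} {i' j' : Fin 3} {s' : Bool} {u : E4}
    (hu : u ∈ ((ch i j s).symm.trans (ch i' j' s')).source) :
    Xv i (u 0) (u 1) i' ≠ 0 ∧ Xv j (u 2) (sgn s * u 3) j' ≠ 0 := by
  rw [trans_source] at hu
  constructor <;> (intro h; rw [h] at hu; simp at hu)

instance instMfd : IsManifold (𝓡 4) ∞ X := by
  refine isManifold_of_contDiffOn _ _ _ ?_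
  rintro e e' ⟨⟨i, j, s⟩, rfl⟩ ⟨⟨i', j', s'⟩, rfl⟩
  simp only [modelWithCornersSelf_coe, modelWithCornersSelf_coe_symm, Function.comp_id,
    Function.id_comp, range_id, inter_univ, preimage_id_eq, id_eq]
  refine ((tr_contDiffOn i j s i' j' s').mono fun u hu => source_sub hu).congr ?_
  intro u hu
  exact trans_eq i j s i' j' s' u hu

end

end Pool.Agent.H843R2.Core
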