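import Mathlib
import Pool.Agent.H843R2.Core.Charts

set_option autoImplicit false

open Set Metric Module Topology
open scoped Manifold ContDiff

namespace Pool.Agent.H843R2.Core

noncomputable section

lemma rho_contDiff (f g : E4 → ℝ) (hf : ContDiff ℝ ∞ f) (hg : ContDiff ℝ ∞ g) :
    ContDiff ℝ ∞ fun u => rho (f u) (g u) := by
  unfold rho
  refine ContDiff.sqrt (by fun_prop) fun u => ?_
  positivity

lemma entry_smooth (m n : Fin 3) : ContMDiff (𝓡 4) 𝓘(ℝ, ℝ) ∞ fun B : X => B.1 m n := by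
  intro B
  set i := (pidx B).1
  set j := (pidx B).2.1
  set s := (pidx B).2.2
  have hB : B ∈ (ch i j s).source := pidx_spec B
  have h1 : ContDiff ℝ ∞ fun u : E4 => (q (par i j s u)).1 m n := by
    have : (fun u : E4 => (q (par i j s u)).1 m n) = fun u =>
        sgn s * Xv i (u 0) (u 1) m * Xv j (u 2) (sgn s * u 3) n /
        (rho (u 0) (u 1) * rho (u 2) (u 3)) := by
      funext u
      exact q_par i j s u m n
    rw [this]
    refine ContDiff.div ?_ ?_ ?_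
    · exact (contDiff_const.mul (Xv_contDiff _ _ _ _ (by fun_prop) (by fun_prop))).mul
        (Xv_contDiff _ _ _ _ (by fun_prop) (by fun_prop))
    · exact (rho_contDiff _ _ (by fun_prop) (by fun_prop)).mul
        (rho_contDiff _ _ (by fun_prop) (by fun_prop))
    · intro u
      exact (mul_pos (rho_pos _ _) (rho_pos _ _)).ne'
  have h2 : ContMDiffAt (𝓡 4) (𝓡 4) ∞ (ch i j s) B :=
    contMDiffAt_of_mem_maximalAtlas (IsManifold.subset_maximalAtlas (ch_mem i j s)) hB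
  have h3 : ContMDiffAt (𝓡 4) 𝓘(ℝ, ℝ) ∞ ((fun u : E4 => (q (par i j s u)).1 m n) ∘ ch i j s) B :=
    h1.contMDiff.contMDiffAt.comp B h2
  refine h3.congr_of_eventuallyEq ?_
  filter_upwards [(ch i j s).open_source.mem_nhds hB] with B' hB'
  show B'.1 m n = (q (par i j s (rat i j s B'.1))).1 m n
  rw [par_rat i j s B' hB']

/-- the Morse function on `X` -/
def mf (B : X) : ℝ := ∑ m : Fin 3, ∑ n : Fin 3, ((m : ℝ) + (n : ℝ)) * (B.1 m n) ^ 2

lemma mf_smooth : ContMDiff (𝓡 4) 𝓘(ℝ, ℝ) ∞ mf := by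
  unfold mf
  refine contMDiff_finsetSum fun m _ => contMDiff_finsetSum fun n _ => ?_
  exact contMDiff_const.mul ((entry_smooth m n).pow 2)

/-- a planar rational function -/
def G (a b c : ℝ) (p : ℝ × ℝ) : ℝ := (a + b * p.1 ^ 2 + c * p.2 ^ 2) / (1 + p.1 ^ 2 + p.2 ^ 2)

/-- the local expression of the Morse function -/
def Fl (i j : Fin 3) (u : E4) : ℝ :=
  G (i : ℕ) ((i + 1 : Fin 3) : ℕ) ((i + 2 : Fin 3) : ℕ) (u 0, u 1) +
  G (j : ℕ) ((j + 1 : Fin 3) : ℕ) ((j + 2 : Fin 3) : ℕ) (u 2, u 3)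

lemma mf_q (m : M) : mf (q m) = ∑ k : Fin 3, (k : ℝ) * (m.1.1 k) ^ 2 + ∑ k : Fin 3, (k : ℝ) * (m.2.1 k) ^ 2 := by
  have e1 := norm_sq m.1
  have e2 := norm_sq m.2
  simp only [mf, q_val, Fin.sum_univ_three]
  simp
  set a := m.1.1 0
  set b := m.1.1 1
  set c := m.1.1 2
  set x := m.2.1 0
  set y := m.2.1 1
  set z := m.2.1 2
  linear_combination (b ^ 2 + 2 * c ^ 2) * e2 + (y ^ 2 + 2 * z ^ 2) * e1

lemma mf_par (i j : Fin 3) (s : Bool) (u : E4) : mf (q (par i j s u)) = Fl i j u := by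
  rw [mf_q, sum_cyc _ i, sum_cyc _ j]
  simp only [par_fst, par_snd, Xv_0, Xv_1, Xv_2, Fl, G, div_pow, mul_pow, rho_sq]
  have hs : sgn s ^ 2 = 1 := by rw [sq]; exact sgn_sq s
  rw [hs]
  have h1 : (1 + (u 0) ^ 2 + (u 1) ^ 2) ≠ 0 := by positivity
  have h2 : (1 + (u 2) ^ 2 + (u 3) ^ 2) ≠ 0 := by positivity
  field_simp

lemma hasFDerivAt_G (a b c : ℝ) (p : ℝ × ℝ) :
    HasFDerivAt (G a b c)
      ((2 * p.1 * ((b - a) + (b - c) * p.2 ^ 2) / (1 + p.1 ^ 2 + p.2 ^ 2) ^ 2) •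
        ContinuousLinearMap.fst ℝ ℝ ℝ +
       (2 * p.2 * ((c - a) + (c - b) * p.1 ^ 2) / (1 + p.1 ^ 2 + p.2 ^ 2) ^ 2) •
        ContinuousLinearMap.snd ℝ ℝ ℝ) p := by
  have hf : HasFDerivAt (fun p : ℝ × ℝ => p.1) (ContinuousLinearMap.fst ℝ ℝ ℝ) p :=
    hasFDerivAt_fst
  have hs : HasFDerivAt (fun p : ℝ × ℝ => p.2) (ContinuousLinearMap.snd ℝ ℝ ℝ) p :=
    hasFDerivAt_snd
  have hD0 : (1 + p.1 ^ 2 + p.2 ^ 2) ≠ 0 := by positivity
  have hff := hf.mul hf
  have hss := hs.mul hs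
  have hN := ((hff.const_mul b).add (hss.const_mul c)).const_add a
  have hD := (hff.add hss).const_add 1
  have hD1 : (1 + (p.1 * p.1 + p.2 * p.2)) ≠ 0 :=
    ne_of_gt (by nlinarith [mul_self_nonneg p.1, mul_self_nonneg p.2])
  have hDi := (hasDerivAt_inv (x := 1 + (p.1 * p.1 + p.2 * p.2)) hD1).comp_hasFDerivAt p hD
  have h := hN.mul hDi
  have e : G a b c = fun p : ℝ × ℝ => (a + (b * (p.1 * p.1) + c * (p.2 * p.2))) *
      (1 + (p.1 * p.1 + p.2 * p.2))⁻¹ := by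
    funext p
    unfold G
    rw [div_eq_mul_inv]
    congr 1
    · ring
    · congr 1; ring
  rw [e]
  refine h.congr_fderiv ?_
  ext
  · simp
    field_simp
    ring
  · simp
    field_simp
    ring

/-- the coordinate functionals -/
abbrev pr (k : Fin 4) : E4 →L[ℝ] ℝ := EuclideanSpace.proj k

/-- the coefficient functions of the Hessian -/
def hh (a b c : ℝ) (p : ℝ × ℝ) : ℝ := 2 * ((b - a) + (b - c) * p.2 ^ 2) / (1 + p.1 ^ 2 + p.2 ^ 2) ^ 2
def hh' (a b c : ℝ) (p : ℝ × ℝ) : ℝ := 2 * ((c - a) + (c - b) * p.1 ^ 2) / (1 + p.1 ^ 2 + p.2 ^ 2) ^ 2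

/-- the derivative of the local expression -/
def dFl (i j : Fin 3) (u : E4) : E4 →L[ℝ] ℝ :=
  (u 0 * hh (i : ℕ) ((i + 1 : Fin 3) : ℕ) ((i + 2 : Fin 3) : ℕ) (u 0, u 1)) • pr 0 +
  (u 1 * hh' (i : ℕ) ((i + 1 : Fin 3) : ℕ) ((i + 2 : Fin 3) : ℕ) (u 0, u 1)) • pr 1 +
  ((u 2 * hh (j : ℕ) ((j + 1 : Fin 3) : ℕ) ((j + 2 : Fin 3) : ℕ) (u 2, u 3)) • pr 2 +
  (u 3 * hh' (j : ℕ) ((j + 1 : Fin 3) : ℕ) ((j + 2 : Fin 3) : ℕ) (u 2, u 3)) • pr 3)

lemma hasFDerivAt_Fl (i j : Fin 3) (u : E4) : HasFDerivAt (Fl i j) (dFl i j u) u := by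
  have h1 : HasFDerivAt (fun u : E4 => ((u 0, u 1) : ℝ × ℝ)) ((pr 0).prod (pr 1)) u :=
    ((pr 0).prod (pr 1)).hasFDerivAt
  have h2 : HasFDerivAt (fun u : E4 => ((u 2, u 3) : ℝ × ℝ)) ((pr 2).prod (pr 3)) u :=
    ((pr 2).prod (pr 3)).hasFDerivAt
  have h3 := (hasFDerivAt_G (i : ℕ) ((i + 1 : Fin 3) : ℕ) ((i + 2 : Fin 3) : ℕ) (u 0, u 1)).comp u h1
  have h4 := (hasFDerivAt_G (j : ℕ) ((j + 1 : Fin 3) : ℕ) ((j + 2 : Fin 3) : ℕ) (u 2, u 3)).comp u h2
  refine (h3.add h4).congr_fderiv ?_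
  unfold dFl hh hh'
  ext v
  simp
  ring

lemma fderiv_Fl (i j : Fin 3) : fderiv ℝ (Fl i j) = dFl i j := by
  funext u
  exact (hasFDerivAt_Fl i j u).fderiv

/-- a coordinate times a differentiable function has diagonal derivative at the origin -/
lemma hasFDerivAt_coord (k : Fin 4) (h : E4 → ℝ) (hh : DifferentiableAt ℝ h 0) :
    HasFDerivAt (fun u : E4 => (u k * h u) • pr k) ((h 0 • pr k).smulRight (pr k)) 0 := by
  have h1 : HasFDerivAt (fun u : E4 => u k) (pr k) 0 := (pr k).hasFDerivAt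
  have h2 := (h1.mul hh.hasFDerivAt).smul_const (pr k)
  refine h2.congr_fderiv ?_
  simp

lemma hh_diff (a b c : ℝ) (p : ℝ × ℝ) : DifferentiableAt ℝ (hh a b c) p := by
  have h1 : DifferentiableAt ℝ (fun p : ℝ × ℝ => 2 * ((b - a) + (b - c) * p.2 ^ 2)) p := by fun_prop
  have h2 : DifferentiableAt ℝ (fun p : ℝ × ℝ => (1 + p.1 ^ 2 + p.2 ^ 2) ^ 2) p := by fun_prop
  have h3 : (1 + p.1 ^ 2 + p.2 ^ 2) ^ 2 ≠ 0 := by positivity
  have h4 := h1.mul (h2.inv h3)
  exact h4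

lemma hh'_diff (a b c : ℝ) (p : ℝ × ℝ) : DifferentiableAt ℝ (hh' a b c) p := by
  have h1 : DifferentiableAt ℝ (fun p : ℝ × ℝ => 2 * ((c - a) + (c - b) * p.1 ^ 2)) p := by fun_prop
  have h2 : DifferentiableAt ℝ (fun p : ℝ × ℝ => (1 + p.1 ^ 2 + p.2 ^ 2) ^ 2) p := by fun_prop
  have h3 : (1 + p.1 ^ 2 + p.2 ^ 2) ^ 2 ≠ 0 := by positivity
  have h4 := h1.mul (h2.inv h3)
  exact h4

/-- the differences appearing in the Hessian -/
def dd (i k : Fin 3) : ℝ := 2 * (((k : ℕ) : ℝ) - ((i : ℕ) : ℝ))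

lemma hasFDerivAt_dFl (i j : Fin 3) : HasFDerivAt (dFl i j)
    ((dd i (i + 1) • pr 0).smulRight (pr 0) + (dd i (i + 2) • pr 1).smulRight (pr 1) +
     ((dd j (j + 1) • pr 2).smulRight (pr 2) + (dd j (j + 2) • pr 3).smulRight (pr 3))) 0 := by
  have e1 : DifferentiableAt ℝ (fun u : E4 => ((u 0, u 1) : ℝ × ℝ)) 0 :=
    ((pr 0).prod (pr 1)).differentiableAt
  have e2 : DifferentiableAt ℝ (fun u : E4 => ((u 2, u 3) : ℝ × ℝ)) 0 :=
    ((pr 2).prod (pr 3)).differentiableAt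
  have h0 := hasFDerivAt_coord 0 (fun u => hh (i : ℕ) ((i + 1 : Fin 3) : ℕ) ((i + 2 : Fin 3) : ℕ)
    (u 0, u 1)) ((hh_diff _ _ _ _).comp 0 e1)
  have h1 := hasFDerivAt_coord 1 (fun u => hh' (i : ℕ) ((i + 1 : Fin 3) : ℕ) ((i + 2 : Fin 3) : ℕ)
    (u 0, u 1)) ((hh'_diff _ _ _ _).comp 0 e1)
  have h2 := hasFDerivAt_coord 2 (fun u => hh (j : ℕ) ((j + 1 : Fin 3) : ℕ) ((j + 2 : Fin 3) : ℕ)
    (u 2, u 3)) ((hh_diff _ _ _ _).comp 0 e2)
  have h3 := hasFDerivAt_coord 3 (fun u => hh' (j : ℕ) ((j + 1 : Fin 3) : ℕ) ((j + 2 : Fin 3) : ℕ)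
    (u 2, u 3)) ((hh'_diff _ _ _ _).comp 0 e2)
  refine ((h0.add h1).add (h2.add h3)).congr_fderiv ?_
  simp [hh, hh', dd]

/-- the origin is the only critical point of the local expression -/
lemma dFl_eq_zero (i j : Fin 3) (u : E4) : dFl i j u = 0 ↔ u = 0 := by
  constructor
  · intro h
    have key : ∀ (a b c p r : ℝ), a ≠ b → b ≠ c → c ≠ a → p * hh a b c (p, r) = 0 →
        r * hh' a b c (p, r) = 0 → p = 0 ∧ r = 0 := by
      intro a b c p r hab hbc hca h1 h2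
      have hD : (1 + p ^ 2 + r ^ 2) ≠ 0 := by positivity
      unfold hh at h1
      unfold hh' at h2
      simp only at h1 h2
      have h1' : p * ((b - a) + (b - c) * r ^ 2) = 0 := by
        have := h1
        field_simp at this
        linarith
      have h2' : r * ((c - a) + (c - b) * p ^ 2) = 0 := by
        have := h2
        field_simp at this
        linarith
      by_cases hp : p = 0
      · refine ⟨hp, ?_⟩
        rw [hp] at h2'
        rcases mul_eq_zero.mp h2' with h3 | h3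
        · exact h3
        · exfalso
          apply hca
          linarith
      · by_cases hr : r = 0
        · exfalso
          rw [hr] at h1'
          rcases mul_eq_zero.mp h1' with h3 | h3
          · exact hp h3
          · apply hab
            linarith
        · exfalso
          have h3 := (mul_eq_zero.mp h1').resolve_left hp
          have h4 := (mul_eq_zero.mp h2').resolve_left hr
          have h5 : (b - c) * (1 + p ^ 2 + r ^ 2) = 0 := by linarith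
          rcases mul_eq_zero.mp h5 with h6 | h6
          · apply hbc; linarith
          · exact hD h6
    have hne : ∀ k l : Fin 3, k ≠ l → ((k : ℕ) : ℝ) ≠ ((l : ℕ) : ℝ) := by
      intro k l hkl h
      apply hkl
      have : (k : ℕ) = (l : ℕ) := by exact_mod_cast h
      exact Fin.ext this
    have n1 : ∀ i : Fin 3, i ≠ i + 1 := by decide
    have n2 : ∀ i : Fin 3, i + 1 ≠ i + 2 := by decide
    have n3 : ∀ i : Fin 3, i + 2 ≠ i := by decide
    have hv : ∀ k : Fin 4, dFl i j u (EuclideanSpace.single k 1) = 0 := by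
      intro k
      rw [h]
      rfl
    have h0 := hv 0
    have h1 := hv 1
    have h2 := hv 2
    have h3 := hv 3
    simp [dFl] at h0 h1 h2 h3
    have k1 := key _ _ _ (u 0) (u 1) (hne _ _ (n1 i)) (hne _ _ (n2 i)) (hne _ _ (n3 i))
      (by simpa using h0) (by simpa using h1)
    have k2 := key _ _ _ (u 2) (u 3) (hne _ _ (n1 j)) (hne _ _ (n2 j)) (hne _ _ (n3 j))
      (by simpa using h2) (by simpa using h3)
    ext k
    fin_cases k
    · exact k1.1
    · exact k1.2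
    · exact k2.1
    · exact k2.2
  · rintro rfl
    simp [dFl]

lemma local_eq (x : X) : (mf ∘ (extChartAt (𝓡 4) x).symm) = Fl (pidx x).1 (pidx x).2.1 := by
  funext u
  show mf (q (par (pidx x).1 (pidx x).2.1 (pidx x).2.2 u)) = _
  exact mf_par _ _ _ u

lemma crit_iff (x : X) : IsCritical mf x ↔ ch (pidx x).1 (pidx x).2.1 (pidx x).2.2 x = 0 := by
  unfold IsCritical
  rw [local_eq, fderiv_Fl, dFl_eq_zero]
  rfl

/-- the critical points -/
def cp (p : Fin 3 × Fin 3 × Bool) : X := q (par p.1 p.2.1 p.2.2 0)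

lemma cp_entry (p : Fin 3 × Fin 3 × Bool) (m n : Fin 3) :
    (cp p).1 m n = sgn p.2.2 * (if m = p.1 then 1 else 0) * (if n = p.2.1 then 1 else 0) := by
  unfold cp
  rw [q_par]
  simp [rho, Xv]

lemma cp_source (p : Fin 3 × Fin 3 × Bool) (i j : Fin 3) (s : Bool)
    (h : cp p ∈ (ch i j s).source) : p = (i, j, s) := by
  rw [ch_source, cp_entry] at h
  obtain ⟨a, b, c⟩ := p
  by_cases h1 : i = a
  · by_cases h2 : j = b
    · subst h1 h2
      cases s <;> cases c <;> simp [sgn] at h ⊢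
      all_goals linarith
    · simp [h2] at h
  · simp [h1] at h

lemma pidx_cp (p : Fin 3 × Fin 3 × Bool) : pidx (cp p) = p :=
  (cp_source p _ _ _ (pidx_spec (cp p))).symm

lemma cp_inj : Function.Injective cp := by
  intro p p' h
  rw [← pidx_cp p, h, pidx_cp]

lemma crit_iff' (x : X) : IsCritical mf x ↔ ∃ p, cp p = x := by
  rw [crit_iff]
  constructor
  · intro h
    refine ⟨pidx x, ?_⟩
    unfold cp
    rw [← h]
    exact par_rat _ _ _ x (pidx_spec x)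
  · rintro ⟨p, rfl⟩
    rw [pidx_cp]
    exact rat_par _ _ _ 0

lemma hessianDet_cp (p : Fin 3 × Fin 3 × Bool) : hessianDet mf (cp p) =
    dd p.1 (p.1 + 1) * dd p.1 (p.1 + 2) * (dd p.2.1 (p.2.1 + 1) * dd p.2.1 (p.2.1 + 2)) := by
  unfold hessianDet
  rw [local_eq, fderiv_Fl]
  have h0 : extChartAt (𝓡 4) (cp p) (cp p) = 0 := by
    show ch (pidx (cp p)).1 (pidx (cp p)).2.1 (pidx (cp p)).2.2 (cp p) = 0
    rw [pidx_cp]
    exact rat_par _ _ _ 0
  rw [h0, pidx_cp, (hasFDerivAt_dFl p.1 p.2.1).fderiv]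
  have hM : (Matrix.of fun a b : Fin 4 =>
      ((dd p.1 (p.1 + 1) • pr 0).smulRight (pr 0) + (dd p.1 (p.1 + 2) • pr 1).smulRight (pr 1) +
     ((dd p.2.1 (p.2.1 + 1) • pr 2).smulRight (pr 2) +
      (dd p.2.1 (p.2.1 + 2) • pr 3).smulRight (pr 3)))
      (EuclideanSpace.single a 1) (EuclideanSpace.single b 1)) =
      Matrix.diagonal ![dd p.1 (p.1 + 1), dd p.1 (p.1 + 2), dd p.2.1 (p.2.1 + 1),
        dd p.2.1 (p.2.1 + 2)] := by
    ext a b
    fin_cases a <;> fin_cases b <;> simp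
  rw [hM, Matrix.det_diagonal, Fin.prod_univ_four]
  simp
  ring

theorem euler : HasEulerCharacteristic X 2 := by
  classical
  refine ⟨mf, mf_smooth, Finset.univ.image cp, ?_, ?_, ?_⟩
  · intro x
    rw [crit_iff']
    simp
  · intro x hx
    obtain ⟨p, -, rfl⟩ := Finset.mem_image.mp hx
    rw [hessianDet_cp]
    have hne : ∀ i : Fin 3, dd i (i + 1) ≠ 0 ∧ dd i (i + 2) ≠ 0 := by
      intro i
      fin_cases i <;> simp [dd] <;> norm_num
    exact mul_ne_zero (mul_ne_zero (hne _).1 (hne _).2) (mul_ne_zero (hne _).1 (hne _).2)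
  · rw [Finset.sum_image fun p _ p' _ h => cp_inj h]
    have hs : ∀ i : Fin 3, SignType.sign (dd i (i + 1) * dd i (i + 2)) =
        if i = 1 then -1 else 1 := by
      intro i
      fin_cases i
      · simp [dd]
      · simp [dd]
      · simp [dd]
        norm_num
    have h : ∀ p : Fin 3 × Fin 3 × Bool, ((SignType.sign (hessianDet mf (cp p)) : SignType) : ℤ) =
        (((if p.1 = 1 then -1 else 1) * (if p.2.1 = 1 then -1 else 1) : SignType) : ℤ) := by
      intro p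
      rw [hessianDet_cp, sign_mul, hs, hs]
    rw [Finset.sum_congr rfl fun p _ => h p]
    decide

end

end Pool.Agent.H843R2.Core
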