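import Mathlib
import Pool.Agent.H843R2.Core.Morse

set_option autoImplicit false

open Set Metric Module Topology
open scoped Manifold ContDiff

namespace Pool.Agent.H843R2.Core

noncomputable section

/-- a unit vector over the angle `h` -/
def nx (h a : ℝ) : Sph :=
  ⟨WithLp.toLp 2 fun m => ![Real.cos h, Real.sin h, a] m / Real.sqrt (1 + a ^ 2), by
    have hp : 0 < 1 + a ^ 2 := by positivity
    have h2 : ‖(WithLp.toLp 2 fun m => ![Real.cos h, Real.sin h, a] m / Real.sqrt (1 + a ^ 2) : R3)‖ ^ 2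
        = 1 := by
      rw [EuclideanSpace.norm_sq_eq, Fin.sum_univ_three]
      simp only [Real.norm_eq_abs, sq_abs, div_pow, Real.sq_sqrt hp.le]
      simp
      rw [← add_div, ← add_div, Real.cos_sq_add_sin_sq]
      exact div_self hp.ne'
    have h3 : 0 ≤ ‖(WithLp.toLp 2 fun m => ![Real.cos h, Real.sin h, a] m / Real.sqrt (1 + a ^ 2) : R3)‖ :=
      norm_nonneg _
    rw [mem_sphere_zero_iff_norm]
    nlinarith⟩

lemma nx_apply (h a : ℝ) (m : Fin 3) :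
    (nx h a).1 m = ![Real.cos h, Real.sin h, a] m / Real.sqrt (1 + a ^ 2) := rfl

/-- the lift of the embedding -/
def Em (h v1 v2 : ℝ) : M :=
  (nx h (v1 * Real.cos h - v2 * Real.sin h), nx h (v1 * Real.sin h + v2 * Real.cos h))

lemma Em_add_pi (h v1 v2 : ℝ) : Em (h + Real.pi) v1 v2 = -Em h v1 v2 := by
  unfold Em
  rw [Real.cos_add_pi, Real.sin_add_pi]
  have key : ∀ a b : ℝ, a = -b → nx (h + Real.pi) a = -nx h b := by
    rintro a b rfl
    apply sph_ext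
    intro m
    show (nx (h + Real.pi) (-b)).1 m = -((nx h b).1 m)
    rw [nx_apply, nx_apply, Real.cos_add_pi, Real.sin_add_pi, neg_sq]
    fin_cases m <;> simp [neg_div]
  refine Prod.ext ?_ ?_
  · exact key _ _ (by ring)
  · exact key _ _ (by ring)

lemma Em_cont (v1 v2 : ℝ) : Continuous fun h => Em h v1 v2 := by
  have key : ∀ f : ℝ → ℝ, Continuous f → Continuous fun h => nx h (f h) := by
    intro f hf
    refine Continuous.subtype_mk ?_ _
    refine (PiLp.continuous_toLp 2 _).comp (continuous_pi fun m => ?_)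
    refine Continuous.div ?_ (by fun_prop) fun h => (Real.sqrt_pos.mpr (by positivity)).ne'
    fin_cases m
    · exact Real.continuous_cos
    · exact Real.continuous_sin
    · exact hf
  exact (key _ (by fun_prop)).prodMk (key _ (by fun_prop))

/-- numerators of the matrix entries -/
def Nm (C S v1 v2 : ℝ) : Fin 3 → Fin 3 → ℝ :=
  ![![(1 + C) / 2, S / 2, (v1 * S + v2 * (1 + C)) / 2],
    ![S / 2, (1 - C) / 2, (v1 * (1 - C) + v2 * S) / 2],
    ![(v1 * (1 + C) - v2 * S) / 2, (v1 * S - v2 * (1 - C)) / 2,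
      (v1 ^ 2 - v2 ^ 2) * S / 2 + v1 * v2 * C]]

def A2 (C S v1 v2 : ℝ) : ℝ := (v1 ^ 2 * (1 + C) - 2 * v1 * v2 * S + v2 ^ 2 * (1 - C)) / 2
def B2 (C S v1 v2 : ℝ) : ℝ := (v1 ^ 2 * (1 - C) + 2 * v1 * v2 * S + v2 ^ 2 * (1 + C)) / 2

lemma A2_eq (h v1 v2 : ℝ) : A2 (Real.cos (2 * h)) (Real.sin (2 * h)) v1 v2 =
    (v1 * Real.cos h - v2 * Real.sin h) ^ 2 := by
  have h1 := Real.cos_sq_add_sin_sq h
  unfold A2
  rw [Real.cos_two_mul, Real.sin_two_mul]
  have h2 : Real.sin h ^ 2 = 1 - Real.cos h ^ 2 := by linarith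
  ring_nf
  rw [h2]
  ring

lemma B2_eq (h v1 v2 : ℝ) : B2 (Real.cos (2 * h)) (Real.sin (2 * h)) v1 v2 =
    (v1 * Real.sin h + v2 * Real.cos h) ^ 2 := by
  have h1 := Real.cos_sq_add_sin_sq h
  unfold B2
  rw [Real.cos_two_mul, Real.sin_two_mul]
  have h2 : Real.sin h ^ 2 = 1 - Real.cos h ^ 2 := by linarith
  ring_nf
  rw [h2]
  ring

lemma Em_entry (h v1 v2 : ℝ) (m n : Fin 3) : (q (Em h v1 v2)).1 m n =
    Nm (Real.cos (2 * h)) (Real.sin (2 * h)) v1 v2 m n /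
      (Real.sqrt (1 + A2 (Real.cos (2 * h)) (Real.sin (2 * h)) v1 v2) *
       Real.sqrt (1 + B2 (Real.cos (2 * h)) (Real.sin (2 * h)) v1 v2)) := by
  rw [A2_eq, B2_eq, q_val]
  show (nx h _).1 m * (nx h _).1 n = _
  rw [nx_apply, nx_apply, div_mul_div_comm]
  congr 1
  have h1 := Real.cos_sq_add_sin_sq h
  have h2 : Real.sin h ^ 2 = 1 - Real.cos h ^ 2 := by linarith
  rw [Real.cos_two_mul, Real.sin_two_mul]
  fin_cases m <;> fin_cases n <;> simp [Nm] <;> ring_nf <;> (try rw [h2]) <;> ring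

/-- the embedding of a solid torus -/
def emb (p : ℂ × ℝ) : X := q (Em (Complex.arg p.1 / 2) p.2 (‖p.1‖ ^ 2 - 13))

lemma emb_entry (p : ℂ × ℝ) (hp : p.1 ≠ 0) (m n : Fin 3) : (emb p).1 m n =
    Nm (p.1.re / ‖p.1‖) (p.1.im / ‖p.1‖) p.2 (‖p.1‖ ^ 2 - 13) m n /
      (Real.sqrt (1 + A2 (p.1.re / ‖p.1‖) (p.1.im / ‖p.1‖) p.2 (‖p.1‖ ^ 2 - 13)) *
       Real.sqrt (1 + B2 (p.1.re / ‖p.1‖) (p.1.im / ‖p.1‖) p.2 (‖p.1‖ ^ 2 - 13))) := by
  unfold emb
  rw [Em_entry]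
  have h : 2 * (Complex.arg p.1 / 2) = Complex.arg p.1 := by ring
  rw [h, Complex.cos_arg hp, Complex.sin_arg]

lemma emb_eq (p : ℂ × ℝ) (hp : p.1 ≠ 0) (h : ℝ) (hc : p.1.re / ‖p.1‖ = Real.cos (2 * h))
    (hs : p.1.im / ‖p.1‖ = Real.sin (2 * h)) : emb p = q (Em h p.2 (‖p.1‖ ^ 2 - 13)) := by
  apply Subtype.ext
  funext m n
  rw [emb_entry p hp, Em_entry, hc, hs]

lemma smooth_to_X {V : Type*} [NormedAddCommGroup V] [NormedSpace ℝ V] (f : V → X) (p : V)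
    (h : ∀ m n, ContDiffAt ℝ ∞ (fun v => (f v).1 m n) p) :
    ContMDiffAt 𝓘(ℝ, V) (𝓡 4) ∞ f p := by
  rw [contMDiffAt_iff_target]
  have hB : f p ∈ (ch (pidx (f p)).1 (pidx (f p)).2.1 (pidx (f p)).2.2).source := pidx_spec (f p)
  set i := (pidx (f p)).1 with hi
  set j := (pidx (f p)).2.1 with hj
  set s := (pidx (f p)).2.2 with hs
  refine ⟨?_, ?_⟩
  · have h1 : ContinuousAt (fun v => (f v).1) p :=
      continuousAt_pi.mpr fun m => continuousAt_pi.mpr fun n => (h m n).continuousAt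
    exact (IsInducing.subtypeVal.continuousAt_iff).mpr h1
  · have h0 : (f p).1 i j ≠ 0 := by
      intro h0
      rw [ch_source, h0] at hB
      simp at hB
    have h1 : ContDiffAt ℝ ∞ (fun v => rat i j s (f v).1) p := by
      rw [contDiffAt_euclidean]
      intro k
      have hd : ∀ m n, ContDiffAt ℝ ∞ (fun v => (f v).1 m n / (f v).1 i j) p := fun m n =>
        (h m n).div (h i j) h0
      fin_cases k
      · exact hd _ _
      · exact hd _ _
      · exact hd _ _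
      · exact contDiffAt_const.mul (hd _ _)
    exact h1.contMDiffAt

lemma Nm_smooth (m n : Fin 3) : ContDiff ℝ ∞ fun x : ℝ × ℝ × ℝ × ℝ => Nm x.1 x.2.1 x.2.2.1 x.2.2.2 m n := by
  fin_cases m <;> fin_cases n <;> simp [Nm] <;> fun_prop

lemma A2_smooth : ContDiff ℝ ∞ fun x : ℝ × ℝ × ℝ × ℝ => A2 x.1 x.2.1 x.2.2.1 x.2.2.2 := by
  unfold A2; fun_prop

lemma B2_smooth : ContDiff ℝ ∞ fun x : ℝ × ℝ × ℝ × ℝ => B2 x.1 x.2.1 x.2.2.1 x.2.2.2 := by
  unfold B2; fun_prop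

/-- the four basic functions of a point of `ℂ × ℝ` -/
def basic (p : ℂ × ℝ) : ℝ × ℝ × ℝ × ℝ :=
  (p.1.re / ‖p.1‖, p.1.im / ‖p.1‖, p.2, ‖p.1‖ ^ 2 - 13)

lemma basic_smooth (p : ℂ × ℝ) (hp : p.1 ≠ 0) : ContDiffAt ℝ ∞ basic p := by
  have hn : ContDiffAt ℝ ∞ (fun p : ℂ × ℝ => ‖p.1‖) p :=
    (contDiffAt_norm ℝ hp).comp p contDiffAt_fst
  have h0 : ‖p.1‖ ≠ 0 := norm_ne_zero_iff.mpr hp
  have hre : ContDiffAt ℝ ∞ (fun p : ℂ × ℝ => p.1.re) p :=
    (Complex.reCLM.contDiff.comp contDiff_fst).contDiffAt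
  have him : ContDiffAt ℝ ∞ (fun p : ℂ × ℝ => p.1.im) p :=
    (Complex.imCLM.contDiff.comp contDiff_fst).contDiffAt
  exact (hre.div hn h0).prodMk ((him.div hn h0).prodMk (contDiffAt_snd.prodMk
    ((hn.pow 2).sub contDiffAt_const)))

lemma A2_nonneg (p : ℂ × ℝ) (hp : p.1 ≠ 0) :
    0 ≤ A2 (p.1.re / ‖p.1‖) (p.1.im / ‖p.1‖) p.2 (‖p.1‖ ^ 2 - 13) := by
  have h : 2 * (Complex.arg p.1 / 2) = Complex.arg p.1 := by ring
  have := A2_eq (Complex.arg p.1 / 2) p.2 (‖p.1‖ ^ 2 - 13)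
  rw [h, Complex.cos_arg hp, Complex.sin_arg] at this
  rw [this]
  positivity

lemma B2_nonneg (p : ℂ × ℝ) (hp : p.1 ≠ 0) :
    0 ≤ B2 (p.1.re / ‖p.1‖) (p.1.im / ‖p.1‖) p.2 (‖p.1‖ ^ 2 - 13) := by
  have h : 2 * (Complex.arg p.1 / 2) = Complex.arg p.1 := by ring
  have := B2_eq (Complex.arg p.1 / 2) p.2 (‖p.1‖ ^ 2 - 13)
  rw [h, Complex.cos_arg hp, Complex.sin_arg] at this
  rw [this]
  positivity

lemma emb_entry_smooth (p : ℂ × ℝ) (hp : p.1 ≠ 0) (m n : Fin 3) :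
    ContDiffAt ℝ ∞ (fun p => (emb p).1 m n) p := by
  have hN := (Nm_smooth m n).contDiffAt.comp p (basic_smooth p hp)
  have hA := A2_smooth.contDiffAt.comp p (basic_smooth p hp)
  have hB := B2_smooth.contDiffAt.comp p (basic_smooth p hp)
  have hA' := (contDiffAt_const (c := (1 : ℝ))).add hA
  have hB' := (contDiffAt_const (c := (1 : ℝ))).add hB
  have hA0 : (1 : ℝ) + A2 (p.1.re / ‖p.1‖) (p.1.im / ‖p.1‖) p.2 (‖p.1‖ ^ 2 - 13) ≠ 0 := by
    have := A2_nonneg p hp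
    positivity
  have hB0 : (1 : ℝ) + B2 (p.1.re / ‖p.1‖) (p.1.im / ‖p.1‖) p.2 (‖p.1‖ ^ 2 - 13) ≠ 0 := by
    have := B2_nonneg p hp
    positivity
  have h1 := hN.div ((hA'.sqrt hA0).mul (hB'.sqrt hB0)) (by
    refine mul_ne_zero ?_ ?_
    · refine (Real.sqrt_pos.mpr ?_).ne'
      have := A2_nonneg p hp
      show 0 < (1 : ℝ) + A2 (p.1.re / ‖p.1‖) (p.1.im / ‖p.1‖) p.2 (‖p.1‖ ^ 2 - 13)
      positivity
    · refine (Real.sqrt_pos.mpr ?_).ne'
      have := B2_nonneg p hp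
      show 0 < (1 : ℝ) + B2 (p.1.re / ‖p.1‖) (p.1.im / ‖p.1‖) p.2 (‖p.1‖ ^ 2 - 13)
      positivity)
  refine h1.congr_of_eventuallyEq ?_
  have hopen : IsOpen {p : ℂ × ℝ | p.1 ≠ 0} := isOpen_ne.preimage continuous_fst
  filter_upwards [hopen.mem_nhds hp] with p' hp'
  exact emb_entry p' hp' m n

lemma emb_smooth (p : ℂ × ℝ) (hp : p.1 ≠ 0) : ContMDiffAt 𝓘(ℝ, ℂ × ℝ) (𝓡 4) ∞ emb p :=
  smooth_to_X emb p (emb_entry_smooth p hp)

/-- reconstruction from the three ratios, in the region where the `(0,0)` entry is nonzero -/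
def rec1 (B : Fin 3 → Fin 3 → ℝ) : ℂ × ℝ :=
  let t := B 1 0 / B 0 0
  let a := B 2 0 / B 0 0
  let b := B 0 2 / B 0 0
  ((Real.sqrt (13 + (b - t * a) / (1 + t ^ 2)) : ℂ) *
    (((1 - t ^ 2) / (1 + t ^ 2) : ℝ) + ((2 * t) / (1 + t ^ 2) : ℝ) * Complex.I),
    (a + t * b) / (1 + t ^ 2))

/-- reconstruction from the three ratios, in the region where the `(1,1)` entry is nonzero -/
def rec2 (B : Fin 3 → Fin 3 → ℝ) : ℂ × ℝ :=
  let t := B 0 1 / B 1 1
  let a := B 2 1 / B 1 1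
  let b := B 1 2 / B 1 1
  ((Real.sqrt (13 + (t * b - a) / (1 + t ^ 2)) : ℂ) *
    (((t ^ 2 - 1) / (1 + t ^ 2) : ℝ) + ((2 * t) / (1 + t ^ 2) : ℝ) * Complex.I),
    (t * a + b) / (1 + t ^ 2))

lemma polar_half (z : ℂ) (hz : z ≠ 0) (h : ℝ) (hh : h = Complex.arg z / 2) :
    z = (‖z‖ : ℂ) * ((Real.cos (2 * h) : ℝ) + (Real.sin (2 * h) : ℝ) * Complex.I) := by
  have e : 2 * h = Complex.arg z := by rw [hh]; ring
  rw [e]
  conv_lhs => rw [← Complex.norm_mul_exp_arg_mul_I z, Complex.exp_mul_I]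
  push_cast
  rfl

lemma rec1_emb (p : ℂ × ℝ) (hp : p.1 ≠ 0) (h0 : (emb p).1 0 0 ≠ 0) : rec1 (emb p).1 = p := by
  set h := Complex.arg p.1 / 2 with hh
  set v1 := p.2 with hv1
  set v2 := ‖p.1‖ ^ 2 - 13 with hv2
  set a := v1 * Real.cos h - v2 * Real.sin h with ha
  set b := v1 * Real.sin h + v2 * Real.cos h with hb
  have hent : ∀ m n, (emb p).1 m n = ![Real.cos h, Real.sin h, a] m / Real.sqrt (1 + a ^ 2) *
      (![Real.cos h, Real.sin h, b] n / Real.sqrt (1 + b ^ 2)) := fun m n => rfl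
  have hA : Real.sqrt (1 + a ^ 2) ≠ 0 := (Real.sqrt_pos.mpr (by positivity)).ne'
  have hB : Real.sqrt (1 + b ^ 2) ≠ 0 := (Real.sqrt_pos.mpr (by positivity)).ne'
  have hc : Real.cos h ≠ 0 := by
    intro hc
    apply h0
    rw [hent]
    simp [hc]
  have ht : (emb p).1 1 0 / (emb p).1 0 0 = Real.sin h / Real.cos h := by
    rw [hent, hent]
    simp
    field_simp
  have hta : (emb p).1 2 0 / (emb p).1 0 0 = a / Real.cos h := by
    rw [hent, hent]
    simp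
    field_simp
  have htb : (emb p).1 0 2 / (emb p).1 0 0 = b / Real.cos h := by
    rw [hent, hent]
    simp
    field_simp
  have hcs := Real.cos_sq_add_sin_sq h
  have hden : 1 + (Real.sin h / Real.cos h) ^ 2 = 1 / Real.cos h ^ 2 := by
    field_simp
    linarith
  have e1 : (b / Real.cos h - Real.sin h / Real.cos h * (a / Real.cos h)) /
      (1 + (Real.sin h / Real.cos h) ^ 2) = v2 := by
    rw [hden, ha, hb]
    field_simp
    linear_combination v2 * hcs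
  have e2 : (a / Real.cos h + Real.sin h / Real.cos h * (b / Real.cos h)) /
      (1 + (Real.sin h / Real.cos h) ^ 2) = v1 := by
    rw [hden, ha, hb]
    field_simp
    linear_combination v1 * hcs
  have e3 : (1 - (Real.sin h / Real.cos h) ^ 2) / (1 + (Real.sin h / Real.cos h) ^ 2) =
      Real.cos (2 * h) := by
    rw [hden, Real.cos_two_mul]
    field_simp
    linarith
  have e4 : 2 * (Real.sin h / Real.cos h) / (1 + (Real.sin h / Real.cos h) ^ 2) =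
      Real.sin (2 * h) := by
    rw [hden, Real.sin_two_mul]
    field_simp
  have e5 : Real.sqrt (13 + v2) = ‖p.1‖ := by
    rw [hv2, show 13 + (‖p.1‖ ^ 2 - 13) = ‖p.1‖ ^ 2 by ring]
    exact Real.sqrt_sq (norm_nonneg _)
  unfold rec1
  simp only [ht, hta, htb, e1, e2, e3, e4, e5]
  refine Prod.ext ?_ rfl
  exact (polar_half p.1 hp h hh).symm

lemma rec2_emb (p : ℂ × ℝ) (hp : p.1 ≠ 0) (h0 : (emb p).1 1 1 ≠ 0) : rec2 (emb p).1 = p := by
  set h := Complex.arg p.1 / 2 with hh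
  set v1 := p.2 with hv1
  set v2 := ‖p.1‖ ^ 2 - 13 with hv2
  set a := v1 * Real.cos h - v2 * Real.sin h with ha
  set b := v1 * Real.sin h + v2 * Real.cos h with hb
  have hent : ∀ m n, (emb p).1 m n = ![Real.cos h, Real.sin h, a] m / Real.sqrt (1 + a ^ 2) *
      (![Real.cos h, Real.sin h, b] n / Real.sqrt (1 + b ^ 2)) := fun m n => rfl
  have hA : Real.sqrt (1 + a ^ 2) ≠ 0 := (Real.sqrt_pos.mpr (by positivity)).ne'
  have hB : Real.sqrt (1 + b ^ 2) ≠ 0 := (Real.sqrt_pos.mpr (by positivity)).ne'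
  have hc : Real.sin h ≠ 0 := by
    intro hc
    apply h0
    rw [hent]
    simp [hc]
  have ht : (emb p).1 0 1 / (emb p).1 1 1 = Real.cos h / Real.sin h := by
    rw [hent, hent]
    simp
    field_simp
  have hta : (emb p).1 2 1 / (emb p).1 1 1 = a / Real.sin h := by
    rw [hent, hent]
    simp
    field_simp
  have htb : (emb p).1 1 2 / (emb p).1 1 1 = b / Real.sin h := by
    rw [hent, hent]
    simp
    field_simp
  have hcs := Real.cos_sq_add_sin_sq h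
  have hden : 1 + (Real.cos h / Real.sin h) ^ 2 = 1 / Real.sin h ^ 2 := by
    field_simp
    linarith
  have e1 : (Real.cos h / Real.sin h * (b / Real.sin h) - a / Real.sin h) /
      (1 + (Real.cos h / Real.sin h) ^ 2) = v2 := by
    rw [hden, ha, hb]
    field_simp
    linear_combination v2 * hcs
  have e2 : (Real.cos h / Real.sin h * (a / Real.sin h) + b / Real.sin h) /
      (1 + (Real.cos h / Real.sin h) ^ 2) = v1 := by
    rw [hden, ha, hb]
    field_simp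
    linear_combination v1 * hcs
  have e3 : ((Real.cos h / Real.sin h) ^ 2 - 1) / (1 + (Real.cos h / Real.sin h) ^ 2) =
      Real.cos (2 * h) := by
    rw [hden, Real.cos_two_mul]
    field_simp
    linarith
  have e4 : 2 * (Real.cos h / Real.sin h) / (1 + (Real.cos h / Real.sin h) ^ 2) =
      Real.sin (2 * h) := by
    rw [hden, Real.sin_two_mul]
    field_simp
  have e5 : Real.sqrt (13 + v2) = ‖p.1‖ := by
    rw [hv2, show 13 + (‖p.1‖ ^ 2 - 13) = ‖p.1‖ ^ 2 by ring]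
    exact Real.sqrt_sq (norm_nonneg _)
  unfold rec2
  simp only [ht, hta, htb, e1, e2, e3, e4, e5]
  refine Prod.ext ?_ rfl
  exact (polar_half p.1 hp h hh).symm

lemma emb_diag (p : ℂ × ℝ) : (emb p).1 0 0 ≠ 0 ∨ (emb p).1 1 1 ≠ 0 := by
  set h := Complex.arg p.1 / 2 with hh
  set a := p.2 * Real.cos h - (‖p.1‖ ^ 2 - 13) * Real.sin h with ha
  set b := p.2 * Real.sin h + (‖p.1‖ ^ 2 - 13) * Real.cos h with hb
  have hent : ∀ m n, (emb p).1 m n = ![Real.cos h, Real.sin h, a] m / Real.sqrt (1 + a ^ 2) *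
      (![Real.cos h, Real.sin h, b] n / Real.sqrt (1 + b ^ 2)) := fun m n => rfl
  have hA : Real.sqrt (1 + a ^ 2) ≠ 0 := (Real.sqrt_pos.mpr (by positivity)).ne'
  have hB : Real.sqrt (1 + b ^ 2) ≠ 0 := (Real.sqrt_pos.mpr (by positivity)).ne'
  by_contra hcon
  push Not at hcon
  obtain ⟨h1, h2⟩ := hcon
  rw [hent] at h1 h2
  simp [hA, hB] at h1 h2
  have := Real.cos_sq_add_sin_sq h
  rw [h1, h2] at this
  norm_num at this

lemma emb_inj {p p' : ℂ × ℝ} (hp : p.1 ≠ 0) (hp' : p'.1 ≠ 0) (h : emb p = emb p') : p = p' := by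
  rcases emb_diag p with h0 | h0
  · rw [← rec1_emb p hp h0, h]
    exact rec1_emb p' hp' (h ▸ h0)
  · rw [← rec2_emb p hp h0, h]
    exact rec2_emb p' hp' (h ▸ h0)

end

end Pool.Agent.H843R2.Core
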