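import Mathlib
import Pool.Agent.H843R2.Core.Defs

set_option autoImplicit false

open Set Topology
open scoped unitInterval

namespace Pool.Agent.H843R2.Core

noncomputable section

/-- lifting along a homotopy -/
lemma lift_of_homotopy {K E B : Type*} [TopologicalSpace K] [TopologicalSpace E]
    [TopologicalSpace B] {p : E → B} (cov : IsCoveringMap p) (f : C(K, B)) (H : C(I × K, K))
    (g : C(K, E)) (hg : ∀ x, p (g x) = f (H (0, x))) (h1 : ∀ x, H (1, x) = x) :
    ∃ s : C(K, E), ∀ x, p (s x) = f x := by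
  have h0 : ∀ a, (f.comp H) (0, a) = p (g a) := fun a => (hg a).symm
  refine ⟨(cov.liftHomotopy (f.comp H) g h0).comp (ContinuousMap.prodMk (.const K 1) (.id K)), ?_⟩
  intro x
  have := congrFun (cov.liftHomotopy_lifts (f.comp H) g h0) (1, x)
  have h2 : (f.comp H) (1, x) = f x := by
    show f (H (1, x)) = f x
    rw [h1]
  exact this.trans h2

/-- the function has a continuous logarithm -/
def HasLog {K : Type*} [TopologicalSpace K] (f : K → ℂ) : Prop :=
  ∃ L : K → ℂ, Continuous L ∧ ∀ x, Complex.exp (L x) = f x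

/-- the function has a continuous logarithm on a set -/
def LogOn {K : Type*} [TopologicalSpace K] (f : K → ℂ) (A : Set K) : Prop :=
  ∃ L : K → ℂ, ContinuousOn L A ∧ ∀ x ∈ A, Complex.exp (L x) = f x

section general

variable {K : Type*} [TopologicalSpace K]

lemma logOn_iff (f : K → ℂ) (A : Set K) : LogOn f A ↔ HasLog fun x : A => f x := by
  classical
  constructor
  · rintro ⟨L, hL, hL'⟩
    exact ⟨fun x => L x, continuousOn_iff_continuous_domRestrict.mp hL, fun x => hL' x x.2⟩
  · rintro ⟨L, hL, hL'⟩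
    refine ⟨fun x => if h : x ∈ A then L ⟨x, h⟩ else 0, ?_, ?_⟩
    · rw [continuousOn_iff_continuous_domRestrict]
      refine hL.congr fun x => ?_
      show L x = if h : (x : K) ∈ A then L ⟨x, h⟩ else 0
      rw [dif_pos x.2]
    · intro x hx
      simp only [hx, dite_true]
      exact hL' ⟨x, hx⟩

lemma LogOn.mono {f : K → ℂ} {A B : Set K} (h : LogOn f B) (hAB : A ⊆ B) : LogOn f A := by
  obtain ⟨L, hL, hL'⟩ := h
  exact ⟨L, hL.mono hAB, fun x hx => hL' x (hAB hx)⟩

lemma LogOn.congr {f g : K → ℂ} {A : Set K} (h : LogOn f A) (hfg : ∀ x ∈ A, f x = g x) :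
    LogOn g A := by
  obtain ⟨L, hL, hL'⟩ := h
  exact ⟨L, hL, fun x hx => (hL' x hx).trans (hfg x hx)⟩

lemma LogOn.zpow {f : K → ℂ} {A : Set K} (h : LogOn f A) (n : ℤ) : LogOn (fun x => f x ^ n) A := by
  obtain ⟨L, hL, hL'⟩ := h
  refine ⟨fun x => n * L x, by fun_prop, fun x hx => ?_⟩
  rw [Complex.exp_int_mul, hL' x hx]

lemma LogOn.mul {f g : K → ℂ} {A : Set K} (h : LogOn f A) (h' : LogOn g A) :
    LogOn (fun x => f x * g x) A := by
  obtain ⟨L, hL, hL'⟩ := h
  obtain ⟨L', hL1, hL2⟩ := h'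
  refine ⟨fun x => L x + L' x, by fun_prop, fun x hx => ?_⟩
  rw [Complex.exp_add, hL' x hx, hL2 x hx]

lemma HasLog.comp {K' : Type*} [TopologicalSpace K'] {f : K → ℂ} (h : HasLog f) (g : K' → K)
    (hg : Continuous g) : HasLog fun x => f (g x) := by
  obtain ⟨L, hL, hL'⟩ := h
  exact ⟨fun x => L (g x), hL.comp hg, fun x => hL' _⟩

/-- logarithms extend along a homotopy which deforms the space into a subset -/
lemma hasLog_of_homotopy (S : Set K) (H : C(I × K, K)) (h0 : ∀ x, H (0, x) ∈ S)
    (h1 : ∀ x, H (1, x) = x) (f : K → ℂ) (hf : Continuous f) (hne : ∀ x, f x ≠ 0)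
    (hL : LogOn f S) : HasLog f := by
  obtain ⟨L, hL, hL'⟩ := hL
  have hg : Continuous fun x => L (H (0, x)) :=
    hL.comp_continuous (by fun_prop) h0
  obtain ⟨s, hs⟩ := lift_of_homotopy Complex.isCoveringMap_exp
    (⟨fun x => ⟨f x, hne x⟩, by fun_prop⟩ : C(K, {z : ℂ // z ≠ 0})) H ⟨_, hg⟩
    (fun x => Subtype.ext (hL' _ (h0 x))) h1
  exact ⟨s, s.continuous, fun x => congrArg Subtype.val (hs x)⟩

/-- two continuous logarithms on a preconnected set differ by a constant -/
lemma log_unique {S : Set K} (hS : IsPreconnected S) {L L' : K → ℂ} (hL : ContinuousOn L S)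
    (hL' : ContinuousOn L' S) (h : ∀ x ∈ S, Complex.exp (L x) = Complex.exp (L' x)) :
    ∃ n : ℤ, ∀ x ∈ S, L x = L' x + n * (2 * Real.pi * Complex.I) := by
  rcases S.eq_empty_or_nonempty with rfl | ⟨x0, hx0⟩
  · exact ⟨0, fun x hx => hx.elim⟩
  obtain ⟨n, hn⟩ := Complex.exp_eq_exp_iff_exists_int.mp (h x0 hx0)
  refine ⟨n, ?_⟩
  have hL2 : ContinuousOn (fun x => L' x + n * (2 * Real.pi * Complex.I)) S :=
    hL'.add continuousOn_const
  have := Complex.isCoveringMap_exp.eqOn_of_comp_eqOn hS hL hL2 (fun x hx => by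
    apply Subtype.ext
    show Complex.exp (L x) = Complex.exp (L' x + n * (2 * Real.pi * Complex.I))
    rw [Complex.exp_periodic.int_mul n (L' x), h x hx]) hx0 hn
  exact this

/-- gluing logarithms over two closed sets with preconnected intersection -/
lemma LogOn.union {f : K → ℂ} {A B : Set K} (hA : IsClosed A) (hB : IsClosed B)
    (hAB : IsPreconnected (A ∩ B)) (h : LogOn f A) (h' : LogOn f B) : LogOn f (A ∪ B) := by
  classical
  obtain ⟨L, hL, hLf⟩ := h
  obtain ⟨L', hL', hLf'⟩ := h'
  obtain ⟨n, hn⟩ := log_unique hAB (hL.mono inter_subset_left) (hL'.mono inter_subset_right)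
    (fun x hx => (hLf x hx.1).trans (hLf' x hx.2).symm)
  refine ⟨fun x => if x ∈ A then L x else L' x + n * (2 * Real.pi * Complex.I), ?_, ?_⟩
  · have h1 : ContinuousOn (fun x => if x ∈ A then L x else L' x + n * (2 * Real.pi * Complex.I)) A :=
      hL.congr fun x hx => by simp [hx]
    have h2 : ContinuousOn (fun x => if x ∈ A then L x else L' x + n * (2 * Real.pi * Complex.I)) B := by
      refine (hL'.add continuousOn_const).congr (f := fun x => L' x + n * (2 * Real.pi * Complex.I)) fun x hx => ?_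
      by_cases hxA : x ∈ A
      · simp only [hxA, if_true]
        exact hn x ⟨hxA, hx⟩
      · simp [hxA]
    exact h1.union_of_isClosed h2 hA hB
  · intro x hx
    by_cases hxA : x ∈ A
    · simp only [hxA, if_true]
      exact hLf x hxA
    · simp only [hxA, if_false]
      rw [Complex.exp_periodic.int_mul n (L' x)]
      exact hLf' x (hx.resolve_left hxA)

end general

end

end Pool.Agent.H843R2.Core
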