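import Mathlib
import Pool.Agent.H843R2.Core.Logs

set_option autoImplicit false

open Set Topology
open scoped unitInterval

namespace Pool.Agent.H843R2.Core

noncomputable section

lemma planar_cont (k : ℕ) : Continuous (planar k) := by
  unfold planar
  fun_prop

lemma planar_nonneg3 {g : ℕ} {x : ℂ × ℝ} (h : x ∈ handlebody3 g) : 0 ≤ planar g x.1 :=
  le_trans (sq_nonneg _) h

lemma planar_nonneg4 {g : ℕ} {x : ℂ × ℂ} (h : x ∈ handlebody4 g) : 0 ≤ planar g x.1 :=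
  le_trans (sq_nonneg _) h

/-- logarithms extend from the boundary of a three-dimensional handlebody -/
lemma hasLog_of_surface (g : ℕ) (f : handlebody3 g → ℂ) (hf : Continuous f) (hne : ∀ x, f x ≠ 0)
    (hL : LogOn f {x | (x : ℂ × ℝ) ∈ surface g}) : HasLog f := by
  have hmem : ∀ (t : I) (x : handlebody3 g), ((x : ℂ × ℝ).1,
      (1 - (t : ℝ)) * Real.sqrt (planar g (x : ℂ × ℝ).1) + t * (x : ℂ × ℝ).2) ∈ handlebody3 g := by
    intro t x
    have h0 := planar_nonneg3 x.2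
    have h1 : (x : ℂ × ℝ).2 ^ 2 ≤ planar g (x : ℂ × ℝ).1 := x.2
    have h2 := Real.sq_sqrt h0
    have h3 := Real.sqrt_nonneg (planar g (x : ℂ × ℝ).1)
    set r := Real.sqrt (planar g (x : ℂ × ℝ).1)
    set w := (x : ℂ × ℝ).2
    have h4 : |w| ≤ r := abs_le_of_sq_le_sq (by rw [h2]; exact h1) h3
    have ht0 : (0 : ℝ) ≤ t := t.2.1
    have ht1 : (t : ℝ) ≤ 1 := t.2.2
    have h5 : |(1 - (t : ℝ)) * r + t * w| ≤ r := by
      calc |(1 - (t : ℝ)) * r + t * w| ≤ |(1 - (t : ℝ)) * r| + |t * w| := abs_add_le _ _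
        _ = (1 - t) * r + t * |w| := by
          rw [abs_mul, abs_mul, abs_of_nonneg (by linarith : (0 : ℝ) ≤ 1 - t), abs_of_nonneg h3,
            abs_of_nonneg ht0]
        _ ≤ (1 - t) * r + t * r := by gcongr
        _ = r := by ring
    show ((1 - (t : ℝ)) * r + t * w) ^ 2 ≤ planar g (x : ℂ × ℝ).1
    rw [← h2]
    exact sq_le_sq' (by linarith [abs_le.mp h5]) (abs_le.mp h5).2
  have hc : Continuous (planar g) := planar_cont g
  refine hasLog_of_homotopy (K := handlebody3 g) {x | (x : ℂ × ℝ) ∈ surface g}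
    ⟨fun p : I × handlebody3 g => ⟨((p.2 : ℂ × ℝ).1, (1 - (p.1 : ℝ)) * Real.sqrt (planar g (p.2 : ℂ × ℝ).1) +
      p.1 * (p.2 : ℂ × ℝ).2), hmem p.1 p.2⟩, by fun_prop⟩ ?_ ?_ f hf hne hL
  · intro x
    have h0 := planar_nonneg3 x.2
    show ((1 - ((0 : I) : ℝ)) * Real.sqrt (planar g (x : ℂ × ℝ).1) +
      ((0 : I) : ℝ) * (x : ℂ × ℝ).2) ^ 2 = planar g (x : ℂ × ℝ).1
    simp [Real.sq_sqrt h0]
  · intro x
    apply Subtype.ext
    apply Prod.ext
    · rfl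
    · show (1 - ((1 : I) : ℝ)) * Real.sqrt (planar g (x : ℂ × ℝ).1) +
        ((1 : I) : ℝ) * (x : ℂ × ℝ).2 = (x : ℂ × ℝ).2
      simp

lemma planar_zero (z : ℂ) : planar 0 z = 4 - ‖z‖ ^ 2 := by
  simp [planar]
  norm_num

lemma star4 (t : I) (x : handlebody4 0) : ((t : ℝ) • (x : ℂ × ℂ)) ∈ handlebody4 0 := by
  have h1 : ‖(x : ℂ × ℂ).2‖ ^ 2 ≤ planar 0 (x : ℂ × ℂ).1 := x.2
  show ‖(t : ℝ) • (x : ℂ × ℂ).2‖ ^ 2 ≤ planar 0 ((t : ℝ) • (x : ℂ × ℂ).1)
  rw [planar_zero] at h1 ⊢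
  rw [norm_smul, norm_smul, Real.norm_eq_abs, mul_pow, mul_pow, sq_abs]
  have ht0 : (0 : ℝ) ≤ t := t.2.1
  have ht1 : (t : ℝ) ≤ 1 := t.2.2
  have : (t : ℝ) ^ 2 ≤ 1 := by nlinarith
  nlinarith [sq_nonneg (t : ℝ)]

lemma star3 (t : I) (x : handlebody3 0) : ((t : ℝ) • (x : ℂ × ℝ)) ∈ handlebody3 0 := by
  have h1 : (x : ℂ × ℝ).2 ^ 2 ≤ planar 0 (x : ℂ × ℝ).1 := x.2
  show ((t : ℝ) • (x : ℂ × ℝ).2) ^ 2 ≤ planar 0 ((t : ℝ) • (x : ℂ × ℝ).1)
  rw [planar_zero] at h1 ⊢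
  rw [norm_smul, Real.norm_eq_abs, mul_pow, sq_abs, smul_eq_mul, mul_pow]
  have ht0 : (0 : ℝ) ≤ t := t.2.1
  have ht1 : (t : ℝ) ≤ 1 := t.2.2
  have : (t : ℝ) ^ 2 ≤ 1 := by nlinarith
  nlinarith [sq_nonneg (t : ℝ)]

/-- maps of the four-ball lift to coverings -/
lemma lift_ball4 {E B : Type*} [TopologicalSpace E] [TopologicalSpace B] {p : E → B}
    (cov : IsCoveringMap p) (hsurj : Function.Surjective p) (f : C(handlebody4 0, B)) :
    ∃ s : C(handlebody4 0, E), ∀ x, p (s x) = f x := by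
  have h0 : (0 : ℂ × ℂ) ∈ handlebody4 0 := by
    show ‖(0 : ℂ)‖ ^ 2 ≤ planar 0 0
    rw [planar_zero]; simp
  obtain ⟨e, he⟩ := hsurj (f ⟨0, h0⟩)
  refine lift_of_homotopy cov f ⟨fun p => ⟨((p.1 : ℝ) • (p.2 : ℂ × ℂ)), star4 p.1 p.2⟩,
    by fun_prop⟩ (.const _ e) ?_ ?_
  · intro x
    show p e = f ⟨((0 : I) : ℝ) • (x : ℂ × ℂ), _⟩
    rw [he]
    congr 1
    apply Subtype.ext
    simp
  · intro x
    apply Subtype.ext
    show ((1 : I) : ℝ) • (x : ℂ × ℂ) = x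
    simp

/-- maps of the three-ball lift to coverings -/
lemma lift_ball3 {E B : Type*} [TopologicalSpace E] [TopologicalSpace B] {p : E → B}
    (cov : IsCoveringMap p) (hsurj : Function.Surjective p) (f : C(handlebody3 0, B)) :
    ∃ s : C(handlebody3 0, E), ∀ x, p (s x) = f x := by
  have h0 : (0 : ℂ × ℝ) ∈ handlebody3 0 := by
    show (0 : ℝ) ^ 2 ≤ planar 0 0
    rw [planar_zero]; simp
  obtain ⟨e, he⟩ := hsurj (f ⟨0, h0⟩)
  refine lift_of_homotopy cov f ⟨fun p => ⟨((p.1 : ℝ) • (p.2 : ℂ × ℝ)), star3 p.1 p.2⟩,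
    by fun_prop⟩ (.const _ e) ?_ ?_
  · intro x
    show p e = f ⟨((0 : I) : ℝ) • (x : ℂ × ℝ), _⟩
    rw [he]
    congr 1
    apply Subtype.ext
    simp
  · intro x
    apply Subtype.ext
    show ((1 : I) : ℝ) • (x : ℂ × ℝ) = x
    simp

/-- winding numbers obstruct logarithms -/
lemma no_log {K : Type*} [TopologicalSpace K] {A : Set K} {f : K → ℂ} (γ : ℝ → K)
    (hγ : Continuous γ) (hA : ∀ t, γ t ∈ A) (h01 : γ 0 = γ 1) (l : ℝ → ℂ) (hl : Continuous l)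
    (he : ∀ t, Complex.exp (l t) = f (γ t)) (hne : l 1 ≠ l 0) : ¬ LogOn f A := by
  rintro ⟨L, hL, hL'⟩
  have h1 : Continuous fun t => L (γ t) := hL.comp_continuous hγ hA
  obtain ⟨n, hn⟩ := log_unique isPreconnected_univ h1.continuousOn hl.continuousOn
    (fun t _ => (hL' _ (hA t)).trans (he t).symm)
  have e0 := hn 0 (mem_univ _)
  have e1 := hn 1 (mem_univ _)
  simp only [h01] at e0
  apply hne
  have := e0.symm.trans e1
  exact (add_right_cancel this).symm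

lemma planar_neg_zero (k : ℕ) (hk : k ≠ 0) : planar k 0 < 0 := by
  obtain ⟨k, rfl⟩ := Nat.exists_eq_succ_of_ne_zero hk
  unfold planar
  rw [Finset.prod_range_succ']
  have h1 : 0 < ∏ j ∈ Finset.range k, (‖(0 : ℂ) - 3 * ((j + 1 : ℕ) : ℂ)‖ ^ 2 - 1) := by
    apply Finset.prod_pos
    intro j _
    have : ‖(0 : ℂ) - 3 * ((j + 1 : ℕ) : ℂ)‖ = 3 * (j + 1) := by
      rw [zero_sub, norm_neg, norm_mul]
      push_cast
      have : ‖((j : ℂ) + 1)‖ = (j : ℝ) + 1 := by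
        have := Complex.norm_natCast (j + 1)
        push_cast at this
        exact this
      rw [this]
      norm_num
    rw [this]
    have : (0 : ℝ) ≤ j := Nat.cast_nonneg j
    nlinarith
  have h2 : (‖(0 : ℂ) - 3 * ((0 : ℕ) : ℂ)‖ ^ 2 - 1) = -1 := by simp
  rw [h2]
  have h3 : (0 : ℝ) < ((3 * ((k.succ : ℕ) : ℝ) + 2) ^ 2 - ‖(0 : ℂ)‖ ^ 2) := by
    simp
    positivity
  nlinarith [mul_pos h3 h1]

lemma fst_ne4 {k : ℕ} (hk : k ≠ 0) {x : ℂ × ℂ} (hx : x ∈ handlebody4 k) : x.1 ≠ 0 := by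
  intro h
  have h1 := planar_nonneg4 hx
  rw [h] at h1
  exact absurd (planar_neg_zero k hk) (not_lt.mpr h1)

/-- the planar function is nonnegative on the circle of radius `3/2` -/
lemma planar_circle (k : ℕ) (z : ℂ) (hz : ‖z‖ = 3 / 2) : 0 ≤ planar k z := by
  unfold planar
  refine mul_nonneg ?_ (Finset.prod_nonneg fun j _ => ?_)
  · rw [hz]
    have : (0 : ℝ) ≤ k := Nat.cast_nonneg k
    nlinarith
  · rcases Nat.eq_zero_or_pos j with rfl | hj
    · simp [hz]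
      norm_num
    · have h1 : (1 : ℝ) ≤ j := by exact_mod_cast hj
      have h2 : ‖(3 * (j : ℂ))‖ = 3 * j := by
        rw [norm_mul, Complex.norm_natCast]; norm_num
      have h3 : 3 * (j : ℝ) - 3 / 2 ≤ ‖z - 3 * j‖ := by
        have := norm_sub_norm_le (3 * (j : ℂ)) z
        rw [h2, hz, norm_sub_rev] at this
        exact this
      nlinarith

/-- the loop around the first hole -/
def loop4 (k : ℕ) (t : ℝ) : ℂ × ℂ :=
  let z : ℂ := (3 / 2 : ℝ) * Complex.exp ((2 * Real.pi * t : ℝ) * Complex.I)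
  (z, ((Real.sqrt (planar k z) : ℝ) : ℂ))

lemma loop4_norm (t : ℝ) : ‖((3 / 2 : ℝ) : ℂ) * Complex.exp ((2 * Real.pi * t : ℝ) * Complex.I)‖
    = 3 / 2 := by
  rw [norm_mul, Complex.norm_exp_ofReal_mul_I, mul_one, Complex.norm_real]
  norm_num

lemma loop4_mem (k : ℕ) (t : ℝ) : loop4 k t ∈ handlebody4Bdry k := by
  show ‖((Real.sqrt (planar k _) : ℝ) : ℂ)‖ ^ 2 = planar k _
  rw [Complex.norm_real, Real.norm_eq_abs, sq_abs]
  exact Real.sq_sqrt (planar_circle k _ (loop4_norm t))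

lemma loop4_cont (k : ℕ) : Continuous (loop4 k) := by
  have := planar_cont k
  unfold loop4
  fun_prop

lemma loop4_closed (k : ℕ) : loop4 k 0 = loop4 k 1 := by
  have : Complex.exp ((2 * Real.pi * (0 : ℝ) : ℝ) * Complex.I) =
      Complex.exp ((2 * Real.pi * (1 : ℝ) : ℝ) * Complex.I) := by
    rw [mul_zero, mul_one]
    push_cast
    rw [Complex.exp_two_pi_mul_I]
    simp
  unfold loop4
  rw [this]

/-- no nontrivial power of the first coordinate has a logarithm on the boundary -/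
lemma no_log4 (k : ℕ) (n : ℤ) (hn : n ≠ 0) :
    ¬ LogOn (fun x : ℂ × ℂ => x.1 ^ n) (handlebody4Bdry k) := by
  refine no_log (loop4 k) (loop4_cont k) (loop4_mem k) (loop4_closed k)
    (fun t => n * (Real.log (3 / 2) + 2 * Real.pi * t * Complex.I)) (by fun_prop) ?_ ?_
  · intro t
    rw [Complex.exp_int_mul, Complex.exp_add]
    show _ = (((3 / 2 : ℝ) : ℂ) * Complex.exp ((2 * Real.pi * t : ℝ) * Complex.I)) ^ n
    congr 2
    · rw [← Complex.ofReal_exp, Real.exp_log (by norm_num)]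
    · push_cast
      ring_nf
  · intro h
    have h0 : (n : ℂ) * (Real.log (3 / 2) + 2 * Real.pi * ((1 : ℝ) : ℂ) * Complex.I) =
      n * (Real.log (3 / 2) + 2 * Real.pi * ((0 : ℝ) : ℂ) * Complex.I) := h
    push_cast at h0
    have h1 : (n : ℂ) * (2 * Real.pi * Complex.I) = 0 := by linear_combination h0
    rcases mul_eq_zero.mp h1 with h2 | h2
    · exact hn (by exact_mod_cast h2)
    · exact Complex.two_pi_I_ne_zero h2

end

end Pool.Agent.H843R2.Core
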