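import Mathlib
import Pool.Agent.H843R2.Core.Models

set_option autoImplicit false

open Set Topology
open scoped unitInterval

namespace Pool.Agent.H843R2.Core

noncomputable section

/-- the winding number of a function along a loop -/
def Wind {K : Type*} (γ : ℝ → K) (f : K → ℂ) (n : ℤ) : Prop :=
  ∃ l : ℝ → ℂ, Continuous l ∧ (∀ t, Complex.exp (l t) = f (γ t)) ∧
    l 1 = l 0 + n * (2 * Real.pi * Complex.I)

lemma Wind.comb {K : Type*} {γ : ℝ → K} {f₁ f₂ f₃ : K → ℂ} {a b c : ℤ} (h₁ : Wind γ f₁ a)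
    (h₂ : Wind γ f₂ b) (h₃ : Wind γ f₃ c) (x y z : ℤ) :
    Wind γ (fun p => f₁ p ^ x * f₂ p ^ y * f₃ p ^ z) (x * a + y * b + z * c) := by
  obtain ⟨l₁, k₁, e₁, p₁⟩ := h₁
  obtain ⟨l₂, k₂, e₂, p₂⟩ := h₂
  obtain ⟨l₃, k₃, e₃, p₃⟩ := h₃
  refine ⟨fun t => x * l₁ t + y * l₂ t + z * l₃ t, by fun_prop, ?_, ?_⟩
  · intro t
    rw [Complex.exp_add, Complex.exp_add, Complex.exp_int_mul, Complex.exp_int_mul,
      Complex.exp_int_mul, e₁, e₂, e₃]
  · push_cast
    rw [p₁, p₂, p₃]
    ring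

lemma Wind.eq_zero {K : Type*} [TopologicalSpace K] {γ : ℝ → K} {f : K → ℂ} {n : ℤ}
    (h : Wind γ f n) {A : Set K} (hγ : Continuous γ) (hA : ∀ t, γ t ∈ A) (h01 : γ 0 = γ 1)
    (hL : LogOn f A) : n = 0 := by
  by_contra hn
  obtain ⟨l, hl, he, hp⟩ := h
  refine no_log γ hγ hA h01 l hl he ?_ hL
  intro h
  rw [hp] at h
  have h1 : (n : ℂ) * (2 * Real.pi * Complex.I) = 0 := by linear_combination h
  rcases mul_eq_zero.mp h1 with h2 | h2
  · exact hn (by exact_mod_cast h2)
  · exact Complex.two_pi_I_ne_zero h2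

lemma wind_slit {K : Type*} [TopologicalSpace K] {γ : ℝ → K} {f : K → ℂ}
    (hf : Continuous fun t => f (γ t)) (h01 : γ 0 = γ 1) (hs : ∀ t, f (γ t) ∈ Complex.slitPlane) :
    Wind γ f 0 := by
  refine ⟨fun t => Complex.log (f (γ t)), ?_, ?_, ?_⟩
  · rw [continuous_iff_continuousAt]
    intro t
    exact (continuousAt_clog (hs t)).comp (f := fun t => f (γ t)) hf.continuousAt
  · intro t
    exact Complex.exp_log (Complex.slitPlane_ne_zero (hs t))
  · simp [h01]

lemma wind_neg_slit {K : Type*} [TopologicalSpace K] {γ : ℝ → K} {f : K → ℂ}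
    (hf : Continuous fun t => f (γ t)) (h01 : γ 0 = γ 1)
    (hs : ∀ t, -f (γ t) ∈ Complex.slitPlane) : Wind γ f 0 := by
  refine ⟨fun t => Complex.log (-f (γ t)) + Real.pi * Complex.I, ?_, ?_, ?_⟩
  · refine Continuous.add ?_ continuous_const
    rw [continuous_iff_continuousAt]
    intro t
    exact (continuousAt_clog (hs t)).comp (f := fun t => -f (γ t)) hf.neg.continuousAt
  · intro t
    rw [Complex.exp_add, Complex.exp_pi_mul_I, Complex.exp_log (Complex.slitPlane_ne_zero (hs t))]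
    ring
  · simp [h01]

/-- the circle of radius `r` around `c` winds once around `c` -/
lemma wind_circle {K : Type*} {γ : ℝ → K} {f : K → ℂ} (r : ℝ) (hr : 0 < r)
    (hf : ∀ t : ℝ, f (γ t) = r * Complex.exp ((2 * Real.pi * t : ℝ) * Complex.I)) :
    Wind γ f 1 := by
  refine ⟨fun t => Real.log r + (2 * Real.pi * t : ℝ) * Complex.I, by fun_prop, ?_, ?_⟩
  · intro t
    rw [Complex.exp_add, hf, ← Complex.ofReal_exp, Real.exp_log hr]
  · push_cast
    ring

/-- the first function -/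
def c0 (x : ℂ × ℝ) : ℂ := x.1
/-- the second function -/
def c1 (x : ℂ × ℝ) : ℂ := x.1 - 3
/-- the third function -/
def cu (x : ℂ × ℝ) : ℂ := ((‖x.1‖ - 3 / 2 : ℝ) : ℂ) + (x.2 : ℂ) * Complex.I

lemma c0_cont : Continuous c0 := by unfold c0; fun_prop
lemma c1_cont : Continuous c1 := by unfold c1; fun_prop
lemma cu_cont : Continuous cu := by unfold cu; fun_prop

lemma cu_re (x : ℂ × ℝ) : (cu x).re = ‖x.1‖ - 3 / 2 := by simp [cu]
lemma cu_im (x : ℂ × ℝ) : (cu x).im = x.2 := by simp [cu]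

/-- the planar function is positive on the circle of radius `3/2` -/
lemma planar_circle_pos (k : ℕ) (z : ℂ) (hz : ‖z‖ = 3 / 2) : 0 < planar k z := by
  unfold planar
  refine mul_pos ?_ (Finset.prod_pos fun j _ => ?_)
  · rw [hz]
    have : (0 : ℝ) ≤ k := Nat.cast_nonneg k
    nlinarith
  · rcases Nat.eq_zero_or_pos j with rfl | hj
    · simp [hz]
      norm_num
    · have h1 : (1 : ℝ) ≤ j := by exact_mod_cast hj
      have h2 : ‖(3 * (j : ℂ))‖ = 3 * j := by
        rw [norm_mul, Complex.norm_natCast]; norm_num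
      have h3 : 3 * (j : ℝ) - 3 / 2 ≤ ‖z - 3 * j‖ := by
        have := norm_sub_norm_le (3 * (j : ℂ)) z
        rw [h2, hz, norm_sub_rev] at this
        exact this
      nlinarith

/-- the planar function is positive on the circle of radius `5/4` around the second hole -/
lemma planar_circle' (k : ℕ) (hk : 2 ≤ k) (z : ℂ) (hz : ‖z - 3‖ = 5 / 4) : 0 < planar k z := by
  have hk' : (2 : ℝ) ≤ k := by exact_mod_cast hk
  have hz1 : ‖z‖ ≤ 17 / 4 := by
    calc ‖z‖ = ‖(z - 3) + 3‖ := by ring_nf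
      _ ≤ ‖z - 3‖ + ‖(3 : ℂ)‖ := norm_add_le _ _
      _ = 17 / 4 := by rw [hz]; norm_num
  have hz2 : 7 / 4 ≤ ‖z‖ := by
    have := norm_sub_norm_le (3 : ℂ) (3 - z)
    rw [norm_sub_rev 3 z, hz, sub_sub_cancel] at this
    norm_num at this
    linarith
  unfold planar
  refine mul_pos ?_ (Finset.prod_pos fun j _ => ?_)
  · nlinarith [norm_nonneg z]
  · rcases Nat.lt_or_ge j 2 with hj | hj
    · interval_cases j
      · simp
        linarith
      · have : ‖z - 3 * ((1 : ℕ) : ℂ)‖ = 5 / 4 := by simpa using hz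
        rw [this]
        norm_num
    · have h1 : (2 : ℝ) ≤ j := by exact_mod_cast hj
      have h3 : 3 * (j : ℝ) - 3 - 5 / 4 ≤ ‖z - 3 * j‖ := by
        have h4 := norm_sub_norm_le ((3 * (j : ℂ)) - 3) (z - 3)
        have h5 : ‖(3 * (j : ℂ)) - 3‖ = 3 * j - 3 := by
          rw [show (3 * (j : ℂ) - 3) = ((3 * (j : ℝ) - 3 : ℝ) : ℂ) by push_cast; ring,
            Complex.norm_real, Real.norm_eq_abs, abs_of_nonneg (by linarith)]
        rw [h5, hz, show (3 * (j : ℂ) - 3 - (z - 3)) = -(z - 3 * j) by ring, norm_neg] at h4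
        exact h4
      nlinarith

/-- the planar function is nonnegative on the segment `[-(3k+2), -1]` -/
lemma planar_seg (k : ℕ) (r : ℝ) (h1 : 1 ≤ r) (h2 : r ≤ 3 * k + 2) :
    0 ≤ planar k ((-r : ℝ) : ℂ) := by
  unfold planar
  refine mul_nonneg ?_ (Finset.prod_nonneg fun j _ => ?_)
  · rw [Complex.norm_real, Real.norm_eq_abs, sq_abs]
    nlinarith
  · rw [show (((-r : ℝ) : ℂ) - 3 * (j : ℂ)) = ((-r - 3 * j : ℝ) : ℂ) by push_cast; ring,
      Complex.norm_real, Real.norm_eq_abs, sq_abs]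
    have : (0 : ℝ) ≤ j := Nat.cast_nonneg j
    nlinarith

lemma planar_seg_one (k : ℕ) (hk : k ≠ 0) : planar k ((-1 : ℝ) : ℂ) = 0 := by
  unfold planar
  rw [mul_eq_zero]
  right
  rw [Finset.prod_eq_zero_iff]
  refine ⟨0, Finset.mem_range.mpr (Nat.pos_of_ne_zero hk), ?_⟩
  simp

lemma planar_seg_R (k : ℕ) : planar k ((-(3 * k + 2) : ℝ) : ℂ) = 0 := by
  unfold planar
  rw [mul_eq_zero]
  left
  rw [Complex.norm_real, Real.norm_eq_abs, sq_abs]
  ring

/-- a loop on the upper sheet over a circle -/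
def lp (g : ℕ) (c : ℂ) (r : ℝ) (t : ℝ) : ℂ × ℝ :=
  (c + r * Complex.exp ((2 * Real.pi * t : ℝ) * Complex.I),
    Real.sqrt (planar g (c + r * Complex.exp ((2 * Real.pi * t : ℝ) * Complex.I))))

lemma lp_cont (g : ℕ) (c : ℂ) (r : ℝ) : Continuous (lp g c r) := by
  have := planar_cont g
  unfold lp
  fun_prop

lemma lp_closed (g : ℕ) (c : ℂ) (r : ℝ) : lp g c r 0 = lp g c r 1 := by
  have : Complex.exp ((2 * Real.pi * (0 : ℝ) : ℝ) * Complex.I) =
      Complex.exp ((2 * Real.pi * (1 : ℝ) : ℝ) * Complex.I) := by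
    rw [mul_zero, mul_one]
    push_cast
    rw [Complex.exp_two_pi_mul_I]
    simp
  unfold lp
  rw [this]

lemma lp_norm (c : ℂ) (r t : ℝ) (hr : 0 ≤ r) :
    ‖(c + r * Complex.exp ((2 * Real.pi * t : ℝ) * Complex.I)) - c‖ = r := by
  rw [add_sub_cancel_left, norm_mul, Complex.norm_exp_ofReal_mul_I, mul_one, Complex.norm_real,
    Real.norm_eq_abs, abs_of_nonneg hr]

/-- the radius along the meridian loop -/
def rad (g : ℕ) (t : ℝ) : ℝ := min (3 * g + 2) (1 + (3 * g + 1) * |1 - 2 * t|)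

lemma rad_cont (g : ℕ) : Continuous (rad g) := by unfold rad; fun_prop

lemma rad_ge (g : ℕ) (t : ℝ) : 1 ≤ rad g t := by
  have : (0 : ℝ) ≤ g := Nat.cast_nonneg g
  unfold rad
  rw [le_min_iff]
  constructor
  · linarith
  · have := abs_nonneg (1 - 2 * t)
    have : 0 ≤ (3 * (g : ℝ) + 1) * |1 - 2 * t| := by positivity
    linarith

lemma rad_le (g : ℕ) (t : ℝ) : rad g t ≤ 3 * g + 2 := min_le_left _ _

lemma rad_half (g : ℕ) : rad g (1 / 2) = 1 := by
  have : (0 : ℝ) ≤ g := Nat.cast_nonneg g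
  unfold rad
  norm_num
  linarith

lemma rad_zero (g : ℕ) : rad g 0 = 3 * g + 2 := by
  unfold rad
  norm_num
  linarith

lemma rad_one (g : ℕ) : rad g 1 = 3 * g + 2 := by
  unfold rad
  norm_num
  linarith

/-- the height along the meridian loop -/
def hgt (g : ℕ) (t : ℝ) : ℝ := Real.sqrt (planar g ((-(rad g t) : ℝ) : ℂ))

lemma hgt_cont (g : ℕ) : Continuous (hgt g) := by
  have := planar_cont g
  have := rad_cont g
  unfold hgt
  fun_prop

/-- the meridian loop -/
def mer (g : ℕ) (t : ℝ) : ℂ × ℝ :=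
  (((-(rad g t) : ℝ) : ℂ), if t ≤ 1 / 2 then hgt g t else -hgt g t)

lemma hgt_half (g : ℕ) (hg : g ≠ 0) : hgt g (1 / 2) = 0 := by
  unfold hgt
  rw [rad_half, planar_seg_one g hg, Real.sqrt_zero]

lemma mer_cont (g : ℕ) (hg : g ≠ 0) : Continuous (mer g) := by
  refine Continuous.prodMk ?_ ?_
  · have := rad_cont g
    fun_prop
  · refine Continuous.if_le (hgt_cont g) (hgt_cont g).neg continuous_id continuous_const ?_
    intro t ht
    have ht' : t = 1 / 2 := ht
    rw [ht', hgt_half g hg, neg_zero]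

lemma mer_mem (g : ℕ) (t : ℝ) : mer g t ∈ surface g := by
  have h := planar_seg g (rad g t) (rad_ge g t) (rad_le g t)
  show (if t ≤ 1 / 2 then hgt g t else -hgt g t) ^ 2 = planar g ((-(rad g t) : ℝ) : ℂ)
  split_ifs
  · exact Real.sq_sqrt h
  · rw [neg_sq]
    exact Real.sq_sqrt h

lemma mer_closed (g : ℕ) : mer g 0 = mer g 1 := by
  unfold mer hgt
  rw [rad_zero, rad_one, planar_seg_R]
  norm_num

lemma log_upper : ContinuousOn Complex.log {z : ℂ | 0 ≤ z.im ∧ z ≠ 0} := by
  intro z hz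
  by_cases h : z ∈ Complex.slitPlane
  · exact (continuousAt_clog h).continuousWithinAt
  · rw [Complex.mem_slitPlane_iff] at h
    push Not at h
    have him : z.im = 0 := h.2
    have hre : z.re < 0 := by
      refine lt_of_le_of_ne h.1 fun h0 => hz.2 ?_
      exact Complex.ext h0 him
    exact (Complex.continuousWithinAt_log_of_re_neg_of_im_zero hre him).mono fun w hw => hw.1

lemma log_neg_real (r : ℝ) (hr : 0 < r) :
    Complex.log (((-r : ℝ)) : ℂ) = Real.log r + Real.pi * Complex.I := by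
  rw [Complex.log, Complex.arg_ofReal_of_neg (by linarith), Complex.norm_real, Real.norm_eq_abs,
    abs_neg, abs_of_pos hr]

lemma wind_mer (g : ℕ) (hg : g ≠ 0) : Wind (mer g) cu 1 := by
  have hne : ∀ t, cu (mer g t) ≠ 0 := by
    intro t h0
    have h1 := congrArg Complex.re h0
    have h2 := congrArg Complex.im h0
    rw [cu_re] at h1
    rw [cu_im] at h2
    simp only [Complex.zero_re, Complex.zero_im] at h1 h2
    have h3 : ‖(mer g t).1‖ = 3 / 2 := by linarith
    have h4 := planar_circle_pos g _ h3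
    have h5 : (mer g t).2 ^ 2 = planar g (mer g t).1 := mer_mem g t
    rw [h2] at h5
    norm_num at h5
    linarith
  have hc : Continuous fun t => cu (mer g t) := cu_cont.comp (mer_cont g hg)
  have hup : ∀ t ≤ (1 / 2 : ℝ), 0 ≤ (cu (mer g t)).im := by
    intro t ht
    rw [cu_im]
    show 0 ≤ (if t ≤ 1 / 2 then hgt g t else -hgt g t)
    rw [if_pos ht]
    exact Real.sqrt_nonneg _
  have hdn : ∀ t, (1 / 2 : ℝ) ≤ t → 0 ≤ (-cu (mer g t)).im := by
    intro t ht
    rw [Complex.neg_im, cu_im]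
    show 0 ≤ -(if t ≤ 1 / 2 then hgt g t else -hgt g t)
    rcases eq_or_lt_of_le ht with h | h
    · rw [← h, if_pos le_rfl, hgt_half g hg, neg_zero]
    · rw [if_neg (not_le.mpr h), neg_neg]
      exact Real.sqrt_nonneg _
  have hhalf : cu (mer g (1 / 2)) = ((-(1 / 2) : ℝ) : ℂ) := by
    apply Complex.ext
    · rw [cu_re]
      show ‖((-(rad g (1 / 2)) : ℝ) : ℂ)‖ - 3 / 2 = _
      rw [rad_half, Complex.norm_real, Complex.ofReal_re]
      norm_num
    · rw [cu_im]
      show (if (1 / 2 : ℝ) ≤ 1 / 2 then hgt g (1 / 2) else -hgt g (1 / 2)) = _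
      rw [if_pos le_rfl, hgt_half g hg, Complex.ofReal_im]
  have hval : ∀ t, rad g t = 3 * g + 2 → hgt g t = 0 → cu (mer g t) = ((3 * g + 1 / 2 : ℝ) : ℂ) := by
    intro t h1 h2
    apply Complex.ext
    · rw [cu_re]
      show ‖((-(rad g t) : ℝ) : ℂ)‖ - 3 / 2 = _
      rw [h1, Complex.norm_real, Complex.ofReal_re, Real.norm_eq_abs, abs_neg, abs_of_nonneg (by positivity)]
      ring
    · rw [cu_im]
      show (if t ≤ 1 / 2 then hgt g t else -hgt g t) = _
      rw [h2]
      simp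
  have hg0 : hgt g 0 = 0 := by unfold hgt; rw [rad_zero, planar_seg_R, Real.sqrt_zero]
  have hg1 : hgt g 1 = 0 := by unfold hgt; rw [rad_one, planar_seg_R, Real.sqrt_zero]
  refine ⟨fun t => if t ≤ 1 / 2 then Complex.log (cu (mer g t)) else
    Complex.log (-cu (mer g t)) + Real.pi * Complex.I, ?_, ?_, ?_⟩
  · have k1 : ContinuousOn (fun t => if t ≤ 1 / 2 then Complex.log (cu (mer g t)) else
        Complex.log (-cu (mer g t)) + Real.pi * Complex.I) (Iic (1 / 2 : ℝ)) := by
      refine (log_upper.comp hc.continuousOn (fun t ht => ⟨hup t ht, hne t⟩)).congr ?_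
      intro t ht
      have ht' : t ≤ 1 / 2 := ht
      simp only [ht', if_true, Function.comp_apply]
    have k2 : ContinuousOn (fun t => if t ≤ 1 / 2 then Complex.log (cu (mer g t)) else
        Complex.log (-cu (mer g t)) + Real.pi * Complex.I) (Ici (1 / 2 : ℝ)) := by
      refine ((log_upper.comp hc.neg.continuousOn
        (fun t ht => ⟨hdn t ht, neg_ne_zero.mpr (hne t)⟩)).add continuousOn_const).congr
        (f := fun t => Complex.log (-cu (mer g t)) + Real.pi * Complex.I) ?_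
      intro t ht
      have ht' : 1 / 2 ≤ t := ht
      rcases eq_or_lt_of_le ht' with h | h
      · rw [← h]
        simp only [le_refl, if_true]
        rw [hhalf, log_neg_real _ (by norm_num)]
        congr 1
        rw [show (-(((-(1 / 2) : ℝ)) : ℂ)) = (((1 / 2 : ℝ)) : ℂ) by push_cast; ring]
        exact (Complex.ofReal_log (by norm_num))
      · have : ¬ t ≤ 1 / 2 := not_le.mpr h
        simp only [this, if_false]
    rw [← continuousOn_univ]
    refine (k1.union_of_isClosed k2 isClosed_Iic isClosed_Ici).mono fun t _ => ?_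
    exact le_total t (1 / 2)
  · intro t
    by_cases h : t ≤ 1 / 2
    · simp only [h, if_true]
      exact Complex.exp_log (hne t)
    · simp only [h, if_false]
      rw [Complex.exp_add, Complex.exp_pi_mul_I, Complex.exp_log (neg_ne_zero.mpr (hne t))]
      ring
  · have hpos : (0 : ℝ) < 3 * g + 1 / 2 := by positivity
    have h0 : ((0 : ℝ) ≤ 1 / 2) := by norm_num
    have h1 : ¬ ((1 : ℝ) ≤ 1 / 2) := by norm_num
    simp only [h0, h1, if_true, if_false]
    rw [hval 1 (rad_one g) hg1, hval 0 (rad_zero g) hg0]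
    rw [show (-(((3 * g + 1 / 2 : ℝ)) : ℂ)) = (((-(3 * g + 1 / 2) : ℝ)) : ℂ) by push_cast; ring,
      log_neg_real _ hpos, ← Complex.ofReal_log hpos.le]
    push_cast
    ring

/-- the three functions are independent on a surface of genus at least two -/
lemma indep (g : ℕ) (hg : 2 ≤ g) (x y z : ℤ)
    (hL : LogOn (fun p => c0 p ^ x * c1 p ^ y * cu p ^ z) (surface g)) :
    x = 0 ∧ y = 0 ∧ z = 0 := by
  have hg0 : g ≠ 0 := by omega
  -- the loop around the first hole
  have n0 : ∀ t : ℝ, ‖(lp g 0 (3 / 2) t).1‖ = 3 / 2 := by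
    intro t
    have := lp_norm 0 (3 / 2) t (by norm_num)
    rw [sub_zero] at this
    exact this
  have m0 : ∀ t, lp g 0 (3 / 2) t ∈ surface g := fun t =>
    Real.sq_sqrt (planar_circle_pos g _ (n0 t)).le
  have w0 : Wind (lp g 0 (3 / 2)) c0 1 := wind_circle (3 / 2) (by norm_num) fun t => by
    show (0 : ℂ) + _ = _
    rw [zero_add]
  have w1 : Wind (lp g 0 (3 / 2)) c1 0 := by
    refine wind_neg_slit (c1_cont.comp (lp_cont g _ _)) (lp_closed g _ _) fun t => ?_
    rw [Complex.mem_slitPlane_iff]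
    left
    show 0 < (-((lp g 0 (3 / 2) t).1 - 3)).re
    have := (abs_le.mp (Complex.abs_re_le_norm (lp g 0 (3 / 2) t).1)).2
    rw [n0] at this
    simp
    linarith
  have w2 : Wind (lp g 0 (3 / 2)) cu 0 := by
    refine wind_slit (cu_cont.comp (lp_cont g _ _)) (lp_closed g _ _) fun t => ?_
    rw [Complex.mem_slitPlane_iff]
    right
    rw [cu_im]
    exact (Real.sqrt_pos.mpr (planar_circle_pos g _ (n0 t))).ne'
  have hx : x = 0 := by
    have := (w0.comb w1 w2 x y z).eq_zero (lp_cont g _ _) m0 (lp_closed g _ _) hL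
    simpa using this
  -- the loop around the second hole
  have n1 : ∀ t : ℝ, ‖(lp g 3 (5 / 4) t).1 - 3‖ = 5 / 4 := fun t =>
    lp_norm 3 (5 / 4) t (by norm_num)
  have m1 : ∀ t, lp g 3 (5 / 4) t ∈ surface g := fun t =>
    Real.sq_sqrt (planar_circle' g hg _ (n1 t)).le
  have v0 : Wind (lp g 3 (5 / 4)) c0 0 := by
    refine wind_slit (c0_cont.comp (lp_cont g _ _)) (lp_closed g _ _) fun t => ?_
    rw [Complex.mem_slitPlane_iff]
    left
    show 0 < ((lp g 3 (5 / 4) t).1).re
    have := (abs_le.mp (Complex.abs_re_le_norm ((lp g 3 (5 / 4) t).1 - 3))).1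
    rw [n1] at this
    simp at this
    linarith
  have v1 : Wind (lp g 3 (5 / 4)) c1 1 := wind_circle (5 / 4) (by norm_num) fun t => by
    show (3 : ℂ) + _ - 3 = _
    rw [add_sub_cancel_left]
  have v2 : Wind (lp g 3 (5 / 4)) cu 0 := by
    refine wind_slit (cu_cont.comp (lp_cont g _ _)) (lp_closed g _ _) fun t => ?_
    rw [Complex.mem_slitPlane_iff]
    left
    rw [cu_re]
    have h1 := norm_sub_norm_le (3 : ℂ) (3 - (lp g 3 (5 / 4) t).1)
    rw [norm_sub_rev 3 (lp g 3 (5 / 4) t).1, n1, sub_sub_cancel] at h1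
    norm_num at h1
    linarith
  have hy : y = 0 := by
    have := (v0.comb v1 v2 x y z).eq_zero (lp_cont g _ _) m1 (lp_closed g _ _) hL
    simpa using this
  -- the meridian loop
  have u0 : Wind (mer g) c0 0 := by
    refine wind_neg_slit (c0_cont.comp (mer_cont g hg0)) (mer_closed g) fun t => ?_
    rw [Complex.mem_slitPlane_iff]
    left
    show 0 < (-(((-(rad g t) : ℝ)) : ℂ)).re
    have := rad_ge g t
    simp
    linarith
  have u1 : Wind (mer g) c1 0 := by
    refine wind_neg_slit (c1_cont.comp (mer_cont g hg0)) (mer_closed g) fun t => ?_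
    rw [Complex.mem_slitPlane_iff]
    left
    show 0 < (-((((-(rad g t) : ℝ)) : ℂ) - 3)).re
    have := rad_ge g t
    simp
    linarith
  have hz : z = 0 := by
    have := (u0.comb u1 (wind_mer g hg0) x y z).eq_zero (mer_cont g hg0) (mer_mem g)
      (mer_closed g) hL
    simpa using this
  exact ⟨hx, hy, hz⟩

end

end Pool.Agent.H843R2.Core
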