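import Mathlib
import Pool.Agent.H843R2.Core.Charts

set_option autoImplicit false

open Set Metric Module Topology
open scoped Manifold ContDiff

namespace Pool.Agent.H843R2.Core

noncomputable section

/-- planar transition map -/
def pl (i i' : Fin 3) (p : ℝ × ℝ) : ℝ × ℝ :=
  (Xv i p.1 p.2 (i' + 1) / Xv i p.1 p.2 i', Xv i p.1 p.2 (i' + 2) / Xv i p.1 p.2 i')

lemma det_of_entries (L : ℝ × ℝ →L[ℝ] ℝ × ℝ) :
    L.det = (L (1, 0)).1 * (L (0, 1)).2 - (L (0, 1)).1 * (L (1, 0)).2 := by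
  rw [ContinuousLinearMap.det, ← LinearMap.det_toMatrix (Basis.finTwoProd ℝ),
    Matrix.det_fin_two]
  simp [LinearMap.toMatrix_apply, Basis.finTwoProd_zero, Basis.finTwoProd_one]

lemma f11 (i : Fin 3) : i + 1 + 1 = i + 2 := by revert i; decide
lemma f12 (i : Fin 3) : i + 1 + 2 = i := by revert i; decide
lemma f21 (i : Fin 3) : i + 2 + 1 = i := by revert i; decide
lemma f22 (i : Fin 3) : i + 2 + 2 = i + 1 := by revert i; decide

lemma hasFDerivAt_pl (i i' : Fin 3) (p : ℝ × ℝ) (h : Xv i p.1 p.2 i' ≠ 0) :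
    ∃ L : ℝ × ℝ →L[ℝ] ℝ × ℝ, HasFDerivAt (pl i i') L p ∧ L.det = 1 / (Xv i p.1 p.2 i') ^ 3 := by
  have hf : HasFDerivAt (fun p : ℝ × ℝ => p.1) (ContinuousLinearMap.fst ℝ ℝ ℝ) p :=
    hasFDerivAt_fst
  have hs : HasFDerivAt (fun p : ℝ × ℝ => p.2) (ContinuousLinearMap.snd ℝ ℝ ℝ) p :=
    hasFDerivAt_snd
  rcases fin3_cases i i' with rfl | rfl | rfl
  · refine ⟨ContinuousLinearMap.id ℝ _, ?_, ?_⟩
    · have : pl i' i' = id := by
        funext p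
        simp [pl]
      rw [this]
      exact hasFDerivAt_id p
    · rw [det_of_entries]
      simp
  · have e1 := f11 i
    have e2 := f12 i
    have hpl : pl i (i + 1) = fun p : ℝ × ℝ => (p.2 * p.1⁻¹, p.1⁻¹) := by
      funext p
      simp [pl, e1, e2, div_eq_mul_inv]
    rw [Xv_1] at h
    have hi : HasFDerivAt (fun p : ℝ × ℝ => p.1⁻¹) (-(p.1 ^ 2)⁻¹ • ContinuousLinearMap.fst ℝ ℝ ℝ) p :=
      (hasDerivAt_inv h).comp_hasFDerivAt p hf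
    refine ⟨_, hpl ▸ (hs.mul hi).prodMk hi, ?_⟩
    rw [det_of_entries, Xv_1]
    simp
    field_simp
  · have e1 := f21 i
    have e2 := f22 i
    have hpl : pl i (i + 2) = fun p : ℝ × ℝ => (p.2⁻¹, p.1 * p.2⁻¹) := by
      funext p
      simp [pl, e1, e2, div_eq_mul_inv]
    rw [Xv_2] at h
    have hi : HasFDerivAt (fun p : ℝ × ℝ => p.2⁻¹) (-(p.2 ^ 2)⁻¹ • ContinuousLinearMap.snd ℝ ℝ ℝ) p :=
      (hasDerivAt_inv h).comp_hasFDerivAt p hs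
    refine ⟨_, hpl ▸ hi.prodMk (hf.mul hi), ?_⟩
    rw [det_of_entries, Xv_2]
    simp
    field_simp

/-- `ℝ⁴` as a product of two planes -/
def Ph : E4 ≃L[ℝ] (ℝ × ℝ) × (ℝ × ℝ) :=
  LinearEquiv.toContinuousLinearEquiv
    { toFun := fun u => ((u 0, u 1), (u 2, u 3))
      invFun := fun p => WithLp.toLp 2 ![p.1.1, p.1.2, p.2.1, p.2.2]
      map_add' := fun u v => rfl
      map_smul' := fun c u => rfl
      left_inv := fun u => by
        ext k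
        fin_cases k <;> rfl
      right_inv := fun p => rfl }

lemma Ph_apply (u : E4) : Ph u = ((u 0, u 1), (u 2, u 3)) := rfl
lemma Ph_symm_apply (p : (ℝ × ℝ) × (ℝ × ℝ)) :
    Ph.symm p = WithLp.toLp 2 ![p.1.1, p.1.2, p.2.1, p.2.2] := rfl

/-- scaling of the second coordinate -/
def Ds (c : ℝ) : ℝ × ℝ →L[ℝ] ℝ × ℝ :=
  (ContinuousLinearMap.fst ℝ ℝ ℝ).prod (c • ContinuousLinearMap.snd ℝ ℝ ℝ)

lemma Ds_det (c : ℝ) : (Ds c).det = c := by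
  rw [det_of_entries]
  simp [Ds]

lemma tr_eq (i j : Fin 3) (s : Bool) (i' j' : Fin 3) (s' : Bool) :
    tr i j s i' j' s' = fun u => Ph.symm (Prod.map (pl i i') (fun p => Ds (sgn s') (pl j j' (Ds (sgn s) p)))
      (Ph u)) := by
  funext u
  rw [Ph_symm_apply]
  simp [Ph_apply, tr, pl, Ds, Prod.map]

lemma tr_det (i j : Fin 3) (s : Bool) (i' j' : Fin 3) (s' : Bool) (u : E4)
    (hu : Xv i (u 0) (u 1) i' ≠ 0 ∧ Xv j (u 2) (sgn s * u 3) j' ≠ 0) :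
    (fderiv ℝ (tr i j s i' j' s') u).det =
      sgn s * sgn s' / ((Xv i (u 0) (u 1) i') ^ 3 * (Xv j (u 2) (sgn s * u 3) j') ^ 3) := by
  obtain ⟨L1, hL1, d1⟩ := hasFDerivAt_pl i i' (u 0, u 1) hu.1
  obtain ⟨L2, hL2, d2⟩ := hasFDerivAt_pl j j' (u 2, sgn s * u 3) hu.2
  have h1 : HasFDerivAt (fun p => Ds (sgn s') (pl j j' (Ds (sgn s) p)))
      ((Ds (sgn s')).comp (L2.comp (Ds (sgn s)))) (u 2, u 3) := by
    have ha : HasFDerivAt (fun p => Ds (sgn s) p) (Ds (sgn s)) (u 2, u 3) := (Ds (sgn s)).hasFDerivAt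
    have hb : HasFDerivAt (pl j j') L2 (Ds (sgn s) (u 2, u 3)) := by
      simpa [Ds] using hL2
    have hc : HasFDerivAt (fun p => Ds (sgn s') p) (Ds (sgn s'))
        ((pl j j' ∘ fun p => Ds (sgn s) p) (u 2, u 3)) := (Ds (sgn s')).hasFDerivAt
    exact hc.comp (u 2, u 3) (hb.comp (u 2, u 3) ha)
  have h2 : HasFDerivAt (Prod.map (pl i i') (fun p => Ds (sgn s') (pl j j' (Ds (sgn s) p))))
      (L1.prodMap ((Ds (sgn s')).comp (L2.comp (Ds (sgn s))))) (Ph u) := by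
    rw [Ph_apply]
    exact HasFDerivAt.prodMap _ hL1 h1
  have h3 : HasFDerivAt (tr i j s i' j' s')
      ((Ph.symm : _ →L[ℝ] E4).comp ((L1.prodMap ((Ds (sgn s')).comp (L2.comp (Ds (sgn s))))).comp
        (Ph : E4 →L[ℝ] _))) u := by
    rw [tr_eq]
    exact (Ph.symm : _ →L[ℝ] E4).hasFDerivAt.comp u (h2.comp u Ph.hasFDerivAt)
  rw [h3.fderiv]
  have h4 : ((Ph.symm : _ →L[ℝ] E4).comp ((L1.prodMap ((Ds (sgn s')).comp
      (L2.comp (Ds (sgn s))))).comp (Ph : E4 →L[ℝ] _))).det =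
      (L1.prodMap ((Ds (sgn s')).comp (L2.comp (Ds (sgn s))))).det := by
    have := LinearMap.det_conj
      ((L1.prodMap ((Ds (sgn s')).comp (L2.comp (Ds (sgn s)))) :
        (ℝ × ℝ) × (ℝ × ℝ) →L[ℝ] (ℝ × ℝ) × (ℝ × ℝ)) : (ℝ × ℝ) × (ℝ × ℝ) →ₗ[ℝ] (ℝ × ℝ) × (ℝ × ℝ))
      Ph.symm.toLinearEquiv
    exact this
  rw [h4]
  have h5 : (L1.prodMap ((Ds (sgn s')).comp (L2.comp (Ds (sgn s))))).det =
      L1.det * ((Ds (sgn s')).comp (L2.comp (Ds (sgn s)))).det :=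
    LinearMap.det_prodMap _ _
  have h6 : ((Ds (sgn s')).comp (L2.comp (Ds (sgn s)))).det =
      (Ds (sgn s')).det * (L2.det * (Ds (sgn s)).det) := by
    have := LinearMap.det_comp ((Ds (sgn s') : ℝ × ℝ →L[ℝ] ℝ × ℝ) : ℝ × ℝ →ₗ[ℝ] ℝ × ℝ)
      ((L2.comp (Ds (sgn s)) : ℝ × ℝ →L[ℝ] ℝ × ℝ) : ℝ × ℝ →ₗ[ℝ] ℝ × ℝ)
    have h7 := LinearMap.det_comp ((L2 : ℝ × ℝ →L[ℝ] ℝ × ℝ) : ℝ × ℝ →ₗ[ℝ] ℝ × ℝ)
      ((Ds (sgn s) : ℝ × ℝ →L[ℝ] ℝ × ℝ) : ℝ × ℝ →ₗ[ℝ] ℝ × ℝ)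
    exact this.trans (congrArg _ h7)
  rw [h5, h6, Ds_det, Ds_det, d1, d2]
  field_simp

theorem orientable : IsOrientable X := by
  refine ⟨atlas E4 X, IsManifold.subset_maximalAtlas, fun x => ⟨chartAt E4 x, chart_mem_atlas _ _,
    mem_chart_source _ _⟩, ?_⟩
  rintro e ⟨⟨i, j, s⟩, rfl⟩ e' ⟨⟨i', j', s'⟩, rfl⟩ u hu
  have h1 : fderiv ℝ ((ch i j s).symm.trans (ch i' j' s')) u = fderiv ℝ (tr i j s i' j' s') u := by
    apply Filter.EventuallyEq.fderiv_eq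
    filter_upwards [((ch i j s).symm.trans (ch i' j' s')).open_source.mem_nhds hu] with v hv
    exact trans_eq i j s i' j' s' v hv
  show 0 < (fderiv ℝ ((ch i j s).symm.trans (ch i' j' s')) u).det
  rw [h1, tr_det i j s i' j' s' u (source_sub hu)]
  have h2 := (trans_source i j s i' j' s' u).mp hu
  obtain ⟨h3, h4⟩ := source_sub hu
  set a := Xv i (u 0) (u 1) i'
  set b := Xv j (u 2) (sgn s * u 3) j'
  have : sgn s * sgn s' / (a ^ 3 * b ^ 3) = (sgn s * sgn s' * (a * b)) / (a ^ 2 * b ^ 2) ^ 2 := by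
    field_simp
  rw [this]
  positivity

end

end Pool.Agent.H843R2.Core
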