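import Mathlib
import Pool.Agent.H843R2.Core.Embed

set_option autoImplicit false

open Set Metric Module Topology
open scoped Manifold ContDiff

namespace Pool.Agent.H843R2.Core

noncomputable section

abbrev Mat3 := Fin 3 → Fin 3 → ℝ

lemma ofReal_cd {V : Type*} [NormedAddCommGroup V] [NormedSpace ℝ V] {f : V → ℝ} {p : V}
    (h : ContDiffAt ℝ ∞ f p) : ContDiffAt ℝ ∞ (fun v => (f v : ℂ)) p :=
  Complex.ofRealCLM.contDiff.contDiffAt.comp p h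

lemma ent_cd (m n : Fin 3) (B : Mat3) : ContDiffAt ℝ ∞ (fun B : Mat3 => B m n) B := by
  fun_prop

lemma rec1_smooth (B : Mat3) (h0 : B 0 0 ≠ 0)
    (h1 : 13 + (B 0 2 / B 0 0 - B 1 0 / B 0 0 * (B 2 0 / B 0 0)) / (1 + (B 1 0 / B 0 0) ^ 2) ≠ 0) :
    ContDiffAt ℝ ∞ rec1 B := by
  have ht : ContDiffAt ℝ ∞ (fun B : Mat3 => B 1 0 / B 0 0) B := (ent_cd 1 0 B).div (ent_cd 0 0 B) h0
  have ha : ContDiffAt ℝ ∞ (fun B : Mat3 => B 2 0 / B 0 0) B := (ent_cd 2 0 B).div (ent_cd 0 0 B) h0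
  have hb : ContDiffAt ℝ ∞ (fun B : Mat3 => B 0 2 / B 0 0) B := (ent_cd 0 2 B).div (ent_cd 0 0 B) h0
  have hd : ContDiffAt ℝ ∞ (fun B : Mat3 => 1 + (B 1 0 / B 0 0) ^ 2) B :=
    contDiffAt_const.add (ht.pow 2)
  have hd0 : 1 + (B 1 0 / B 0 0) ^ 2 ≠ 0 := by positivity
  have hw : ContDiffAt ℝ ∞ (fun B : Mat3 => (B 2 0 / B 0 0 + B 1 0 / B 0 0 * (B 0 2 / B 0 0)) /
      (1 + (B 1 0 / B 0 0) ^ 2)) B := (ha.add (ht.mul hb)).div hd hd0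
  have hs : ContDiffAt ℝ ∞ (fun B : Mat3 => Real.sqrt (13 + (B 0 2 / B 0 0 -
      B 1 0 / B 0 0 * (B 2 0 / B 0 0)) / (1 + (B 1 0 / B 0 0) ^ 2))) B :=
    (contDiffAt_const.add ((hb.sub (ht.mul ha)).div hd hd0)).sqrt h1
  have hc : ContDiffAt ℝ ∞ (fun B : Mat3 => (1 - (B 1 0 / B 0 0) ^ 2) /
      (1 + (B 1 0 / B 0 0) ^ 2)) B := (contDiffAt_const.sub (ht.pow 2)).div hd hd0
  have hsn : ContDiffAt ℝ ∞ (fun B : Mat3 => (2 * (B 1 0 / B 0 0)) /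
      (1 + (B 1 0 / B 0 0) ^ 2)) B := (contDiffAt_const.mul ht).div hd hd0
  exact ((ofReal_cd hs).mul ((ofReal_cd hc).add ((ofReal_cd hsn).mul contDiffAt_const))).prodMk hw

lemma rec2_smooth (B : Mat3) (h0 : B 1 1 ≠ 0)
    (h1 : 13 + (B 0 1 / B 1 1 * (B 1 2 / B 1 1) - B 2 1 / B 1 1) / (1 + (B 0 1 / B 1 1) ^ 2) ≠ 0) :
    ContDiffAt ℝ ∞ rec2 B := by
  have ht : ContDiffAt ℝ ∞ (fun B : Mat3 => B 0 1 / B 1 1) B := (ent_cd 0 1 B).div (ent_cd 1 1 B) h0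
  have ha : ContDiffAt ℝ ∞ (fun B : Mat3 => B 2 1 / B 1 1) B := (ent_cd 2 1 B).div (ent_cd 1 1 B) h0
  have hb : ContDiffAt ℝ ∞ (fun B : Mat3 => B 1 2 / B 1 1) B := (ent_cd 1 2 B).div (ent_cd 1 1 B) h0
  have hd : ContDiffAt ℝ ∞ (fun B : Mat3 => 1 + (B 0 1 / B 1 1) ^ 2) B :=
    contDiffAt_const.add (ht.pow 2)
  have hd0 : 1 + (B 0 1 / B 1 1) ^ 2 ≠ 0 := by positivity
  have hw : ContDiffAt ℝ ∞ (fun B : Mat3 => (B 0 1 / B 1 1 * (B 2 1 / B 1 1) + B 1 2 / B 1 1) /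
      (1 + (B 0 1 / B 1 1) ^ 2)) B := ((ht.mul ha).add hb).div hd hd0
  have hs : ContDiffAt ℝ ∞ (fun B : Mat3 => Real.sqrt (13 + (B 0 1 / B 1 1 * (B 1 2 / B 1 1) -
      B 2 1 / B 1 1) / (1 + (B 0 1 / B 1 1) ^ 2))) B :=
    (contDiffAt_const.add (((ht.mul hb).sub ha).div hd hd0)).sqrt h1
  have hc : ContDiffAt ℝ ∞ (fun B : Mat3 => ((B 0 1 / B 1 1) ^ 2 - 1) /
      (1 + (B 0 1 / B 1 1) ^ 2)) B := ((ht.pow 2).sub contDiffAt_const).div hd hd0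
  have hsn : ContDiffAt ℝ ∞ (fun B : Mat3 => (2 * (B 0 1 / B 1 1)) /
      (1 + (B 0 1 / B 1 1) ^ 2)) B := (contDiffAt_const.mul ht).div hd hd0
  exact ((ofReal_cd hs).mul ((ofReal_cd hc).add ((ofReal_cd hsn).mul contDiffAt_const))).prodMk hw

/-- the square root in the reconstruction is the modulus -/
lemma rec1_arg (p : ℂ × ℝ) (hp : p.1 ≠ 0) (h0 : (emb p).1 0 0 ≠ 0) :
    13 + ((emb p).1 0 2 / (emb p).1 0 0 - (emb p).1 1 0 / (emb p).1 0 0 *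
      ((emb p).1 2 0 / (emb p).1 0 0)) / (1 + ((emb p).1 1 0 / (emb p).1 0 0) ^ 2) ≠ 0 := by
  intro h
  have h1 := rec1_emb p hp h0
  have h2 : (rec1 (emb p).1).1 = 0 := by
    unfold rec1
    simp only [h]
    simp
  rw [h1] at h2
  exact hp h2

lemma rec2_arg (p : ℂ × ℝ) (hp : p.1 ≠ 0) (h0 : (emb p).1 1 1 ≠ 0) :
    13 + ((emb p).1 0 1 / (emb p).1 1 1 * ((emb p).1 1 2 / (emb p).1 1 1) -
      (emb p).1 2 1 / (emb p).1 1 1) / (1 + ((emb p).1 0 1 / (emb p).1 1 1) ^ 2) ≠ 0 := by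
  intro h
  have h1 := rec2_emb p hp h0
  have h2 : (rec2 (emb p).1).1 = 0 := by
    unfold rec2
    simp only [h]
    simp
  rw [h1] at h2
  exact hp h2

lemma exists_rec (p : ℂ × ℝ) (hp : p.1 ≠ 0) : ∃ R : Mat3 → ℂ × ℝ,
    DifferentiableAt ℝ R (emb p).1 ∧ ∀ᶠ v in 𝓝 p, R (emb v).1 = v := by
  have hopen : ∀ᶠ v : ℂ × ℝ in 𝓝 p, v.1 ≠ 0 :=
    (isOpen_ne.preimage continuous_fst).mem_nhds hp
  rcases emb_diag p with h0 | h0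
  · refine ⟨rec1, (rec1_smooth _ h0 (rec1_arg p hp h0)).differentiableAt (by simp), ?_⟩
    have h1 := (emb_entry_smooth p hp 0 0).continuousAt.eventually_ne h0
    filter_upwards [hopen, h1] with v hv hv'
    exact rec1_emb v hv hv'
  · refine ⟨rec2, (rec2_smooth _ h0 (rec2_arg p hp h0)).differentiableAt (by simp), ?_⟩
    have h1 := (emb_entry_smooth p hp 1 1).continuousAt.eventually_ne h0
    filter_upwards [hopen, h1] with v hv hv'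
    exact rec2_emb v hv hv'

/-- the inclusion of `X` in the space of matrices -/
def Ent (B : X) : Mat3 := B.1

lemma Ent_smooth : ContMDiff (𝓡 4) 𝓘(ℝ, Mat3) ∞ Ent := by
  rw [contMDiff_pi_space]
  intro m
  rw [contMDiff_pi_space]
  intro n
  exact entry_smooth m n

lemma emb_immersion (p : ℂ × ℝ) (hp : p.1 ≠ 0) :
    Function.Injective (mfderiv 𝓘(ℝ, ℂ × ℝ) (𝓡 4) emb p) := by
  obtain ⟨R, hR, hR'⟩ := exists_rec p hp
  have h1 : MDifferentiableAt 𝓘(ℝ, ℂ × ℝ) (𝓡 4) emb p :=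
    (emb_smooth p hp).mdifferentiableAt (by simp)
  have h2 : MDifferentiableAt (𝓡 4) 𝓘(ℝ, Mat3) Ent (emb p) :=
    (Ent_smooth (emb p)).mdifferentiableAt (by simp)
  have h3 : MDifferentiableAt 𝓘(ℝ, Mat3) 𝓘(ℝ, ℂ × ℝ) R (Ent (emb p)) :=
    hR.mdifferentiableAt
  have h4 := mfderiv_comp p h3 (h2.comp p h1)
  have h5 := mfderiv_comp p h2 h1
  have h6 : mfderiv 𝓘(ℝ, ℂ × ℝ) 𝓘(ℝ, ℂ × ℝ) (R ∘ (Ent ∘ emb)) p =
      mfderiv 𝓘(ℝ, ℂ × ℝ) 𝓘(ℝ, ℂ × ℝ) id p := by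
    apply Filter.EventuallyEq.mfderiv_eq
    filter_upwards [hR'] with v hv
    exact hv
  rw [h4, h5, mfderiv_id] at h6
  intro x y hxy
  have h9 : ∀ z, ((mfderiv 𝓘(ℝ, Mat3) 𝓘(ℝ, ℂ × ℝ) R ((Ent ∘ emb) p))
      ((mfderiv (𝓡 4) 𝓘(ℝ, Mat3) Ent (emb p)) ((mfderiv 𝓘(ℝ, ℂ × ℝ) (𝓡 4) emb p) z))) = z :=
    fun z => congrArg (fun L => L z) h6
  rw [← h9 x, ← h9 y, hxy]

lemma planar_one (z : ℂ) : planar 1 z = (25 - ‖z‖ ^ 2) * (‖z‖ ^ 2 - 1) := by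
  unfold planar
  rw [Finset.prod_range_one]
  simp
  left
  norm_num

lemma hb_ne {p : ℂ × ℝ} (hp : p ∈ handlebody3 1) : p.1 ≠ 0 := by
  intro h
  have h1 : p.2 ^ 2 ≤ planar 1 p.1 := hp
  rw [planar_one, h] at h1
  simp at h1
  nlinarith [sq_nonneg p.2]

/-- the surface -/
def Srf : Set X := emb '' surface 1

theorem bounds : BoundsHandlebody 1 Srf :=
  ⟨{p | p.1 ≠ 0}, emb, isOpen_ne.preimage continuous_fst, fun _ hp => hb_ne hp,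
    fun p hp => (emb_smooth p hp).contMDiffWithinAt,
    fun _ hp _ hp' h => emb_inj (hb_ne hp) (hb_ne hp') h,
    fun p hp => emb_immersion p (hb_ne hp), rfl⟩

end

end Pool.Agent.H843R2.Core
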