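import Mathlib
import Pool.Agent.H843R2.Core.Immerse

set_option autoImplicit false

open Set Metric Module Topology
open scoped Manifold ContDiff unitInterval

namespace Pool.Agent.H843R2.Core

noncomputable section

lemma surface_sub {g : ℕ} {p : ℂ × ℝ} (hp : p ∈ surface g) : p ∈ handlebody3 g := by
  have h : p.2 ^ 2 = planar g p.1 := hp
  exact h.le

/-- rotation of the first coordinate -/
def rot (z : ℂ) (t : ℝ) : ℂ := z * Complex.exp (2 * Real.pi * t * Complex.I)

lemma rot_norm (z : ℂ) (t : ℝ) : ‖rot z t‖ = ‖z‖ := by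
  unfold rot
  rw [norm_mul, show (2 * Real.pi * t * Complex.I : ℂ) = ((2 * Real.pi * t : ℝ) : ℂ) * Complex.I by
    push_cast; ring, Complex.norm_exp_ofReal_mul_I, mul_one]

lemma rot_zero (z : ℂ) : rot z 0 = z := by simp [rot]

lemma rot_one (z : ℂ) : rot z 1 = z := by
  unfold rot
  rw [show (2 * Real.pi * (1 : ℝ) * Complex.I : ℂ) = 2 * Real.pi * Complex.I by push_cast; ring,
    Complex.exp_two_pi_mul_I, mul_one]

lemma rot_mem {z : ℂ} {w : ℝ} (h : (z, w) ∈ surface 1) (t : ℝ) : (rot z t, w) ∈ surface 1 := by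
  have h1 : w ^ 2 = planar 1 z := h
  show w ^ 2 = planar 1 (rot z t)
  rw [planar_one, rot_norm, ← planar_one, h1]

/-- the lift of the rotation loop -/
def lif (z : ℂ) (w : ℝ) (t : ℝ) : M := Em (Complex.arg z / 2 + Real.pi * t) w (‖z‖ ^ 2 - 13)

lemma lif_cont (z : ℂ) (w : ℝ) : Continuous (lif z w) :=
  (Em_cont w (‖z‖ ^ 2 - 13)).comp (f := fun t => Complex.arg z / 2 + Real.pi * t) (by fun_prop)

lemma q_lif {z : ℂ} (hz : z ≠ 0) (w t : ℝ) : q (lif z w t) = emb (rot z t, w) := by
  have hr : rot z t ≠ 0 := by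
    rw [← norm_ne_zero_iff, rot_norm]
    exact norm_ne_zero_iff.mpr hz
  have hn : (‖z‖ : ℝ) ≠ 0 := norm_ne_zero_iff.mpr hz
  have e : rot z t = (‖z‖ : ℂ) * Complex.exp ((2 * (Complex.arg z / 2 + Real.pi * t) : ℝ) * Complex.I) := by
    unfold rot
    conv_lhs => rw [← Complex.norm_mul_exp_arg_mul_I z]
    rw [mul_assoc, ← Complex.exp_add]
    congr 2
    push_cast
    ring
  rw [emb_eq (rot z t, w) hr (Complex.arg z / 2 + Real.pi * t)]
  · unfold lif
    simp only [rot_norm]
  · show (rot z t).re / ‖rot z t‖ = _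
    rw [rot_norm, e, Complex.re_ofReal_mul, Complex.exp_ofReal_mul_I_re]
    field_simp
  · show (rot z t).im / ‖rot z t‖ = _
    rw [rot_norm, e, Complex.im_ofReal_mul, Complex.exp_ofReal_mul_I_im]
    field_simp

lemma lif_one (z : ℂ) (w : ℝ) : lif z w 1 = -lif z w 0 := by
  unfold lif
  rw [mul_one, mul_zero, add_zero, Em_add_pi]

lemma emb_rot_cont {z : ℂ} (hz : z ≠ 0) (w : ℝ) : Continuous fun t : ℝ => emb (rot z t, w) := by
  have : (fun t : ℝ => emb (rot z t, w)) = fun t => q (lif z w t) := by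
    funext t
    exact (q_lif hz w t).symm
  rw [this]
  exact q_cont.comp (lif_cont z w)

/-- the rotation loop in the surface -/
def sloop {z : ℂ} {w : ℝ} (h : (z, w) ∈ surface 1) (hz : z ≠ 0) :
    Path (⟨emb (z, w), (z, w), h, rfl⟩ : Srf) ⟨emb (z, w), (z, w), h, rfl⟩ where
  toFun t := ⟨emb (rot z t, w), (rot z t, w), rot_mem h t, rfl⟩
  continuous_toFun := by
    refine Continuous.subtype_mk ?_ _
    exact (emb_rot_cont hz w).comp continuous_subtype_val
  source' := by
    apply Subtype.ext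
    show emb (rot z ((0 : I) : ℝ), w) = emb (z, w)
    rw [Set.Icc.coe_zero, rot_zero]
  target' := by
    apply Subtype.ext
    show emb (rot z ((1 : I) : ℝ), w) = emb (z, w)
    rw [Set.Icc.coe_one, rot_one]

theorem pi1_surj (b : Srf) : Function.Surjective
    (FundamentalGroup.map (⟨Subtype.val, continuous_subtype_val⟩ : C(Srf, X)) b) := by
  obtain ⟨b, ⟨z, w⟩, hzw, rfl⟩ := b
  have hz : z ≠ 0 := hb_ne (surface_sub hzw)
  have he0 : q (lif z w 0) = emb (z, w) := by rw [q_lif hz, rot_zero]
  let e : q ⁻¹' {emb (z, w)} := ⟨lif z w 0, he0⟩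
  set δ := sloop hzw hz with hδ
  let dq : FundamentalGroup Srf (⟨emb (z, w), (z, w), hzw, rfl⟩ : Srf) :=
    FundamentalGroup.fromPath ⟦δ⟧
  set f : C(Srf, X) := ⟨Subtype.val, continuous_subtype_val⟩ with hf
  let φ := q_cov.fundamentalGroupToMulOpposite e
  have hφ : Function.Injective φ := q_cov.fundamentalGroupToMulOpposite_injective e
  have h1 : φ (FundamentalGroup.map f _ dq) = MulOpposite.op (-1) := by
    rw [IsQuotientCoveringMap.fundamentalGroupToMulOpposite_apply_eq_Iff]
    rw [MulOpposite.unop_op, neg_one_smul']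
    have h2 : (q_cov.isCoveringMap.monodromy (FundamentalGroup.map f _ dq) e).1 =
        q_cov.isCoveringMap.liftPath (δ.map f.continuous) (lif z w 0)
          ((δ.map f.continuous).source.trans he0.symm) 1 := rfl
    rw [h2]
    let Γ : C(I, M) := ⟨fun t => lif z w t, (lif_cont z w).comp continuous_subtype_val⟩
    have h3 : Γ = q_cov.isCoveringMap.liftPath (δ.map f.continuous) (lif z w 0)
          ((δ.map f.continuous).source.trans he0.symm) := by
      rw [IsCoveringMap.eq_liftPath_iff']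
      refine ⟨?_, ?_⟩
      · funext t
        exact q_lif hz w t
      · show lif z w ((0 : I) : ℝ) = lif z w 0
        rw [Set.Icc.coe_zero]
    rw [← h3]
    show -lif z w 0 = lif z w ((1 : I) : ℝ)
    rw [Set.Icc.coe_one, lif_one]
  intro γ
  rcases Int.units_eq_one_or (φ γ).unop with h | h
  · refine ⟨1, ?_⟩
    apply hφ
    rw [map_one, map_one]
    exact (MulOpposite.unop_injective h).symm
  · refine ⟨dq, ?_⟩
    apply hφ
    rw [h1]
    exact (MulOpposite.unop_injective (by rw [h]; rfl)).symm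

/-- a continuous section of the double covering does not exist over a set containing the
rotation loop -/
lemma no_section {z : ℂ} (hz : z ≠ 0) (w : ℝ) (s : ℝ → M) (hs : Continuous s)
    (hq : ∀ t, q (s t) = emb (rot z t, w)) (h01 : s 0 = s 1) : False := by
  have hpm : ∀ t, s t = lif z w t ∨ s t = -lif z w t := by
    intro t
    have : q (s t) = q (lif z w t) := by rw [hq, q_lif hz]
    exact q_eq_iff.mp this
  have hc : Continuous fun t => inner ℝ (s t).1.1 (lif z w t).1.1 := by
    have h1 : Continuous fun t => (s t).1.1 := by fun_prop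
    have h2 : Continuous fun t => (lif z w t).1.1 :=
      (continuous_subtype_val.comp continuous_fst).comp (lif_cont z w)
    exact h1.inner h2
  have hone : ∀ m : M, inner ℝ m.1.1 m.1.1 = (1 : ℝ) := by
    intro m
    rw [real_inner_self_eq_norm_sq]
    have h : ‖m.1.1‖ = 1 := by simp
    rw [h]; norm_num
  have hval : ∀ t, inner ℝ (s t).1.1 (lif z w t).1.1 ≠ (0 : ℝ) := by
    intro t
    rcases hpm t with h | h
    · rw [h, hone]; norm_num
    · rw [h]
      show inner ℝ (-(lif z w t).1.1) (lif z w t).1.1 ≠ (0 : ℝ)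
      rw [inner_neg_left, hone]; norm_num
  have hflip : inner ℝ (s 1).1.1 (lif z w 1).1.1 = -inner ℝ (s 0).1.1 (lif z w 0).1.1 := by
    rw [← h01, lif_one]
    show inner ℝ (s 0).1.1 (-(lif z w 0).1.1) = _
    rw [inner_neg_right]
  -- intermediate value theorem
  have h0 := hval 0
  rcases lt_or_gt_of_ne h0 with h | h
  · have h1 : 0 < inner ℝ (s 1).1.1 (lif z w 1).1.1 := by rw [hflip]; linarith
    obtain ⟨t, -, ht⟩ := intermediate_value_Icc zero_le_one hc.continuousOn ⟨h.le, h1.le⟩
    exact hval t ht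
  · have h1 : inner ℝ (s 1).1.1 (lif z w 1).1.1 < 0 := by rw [hflip]; linarith
    obtain ⟨t, -, ht⟩ := intermediate_value_Icc' zero_le_one hc.continuousOn ⟨h1.le, h.le⟩
    exact hval t ht

end

end Pool.Agent.H843R2.Core
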