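import Mathlib
import Pool.Agent.H843R2.Core.Models
import Pool.Agent.H843R2.Core.Pi1

set_option autoImplicit false

open Set Topology
open scoped unitInterval

namespace Pool.Agent.H843R2.Core

noncomputable section

/-- logarithms along the line -/
lemma exists_log_real (F : ℝ → ℂ) (hF : Continuous F) (hne : ∀ t, F t ≠ 0) :
    ∃ l : ℝ → ℂ, Continuous l ∧ ∀ t, Complex.exp (l t) = F t := by
  refine hasLog_of_homotopy (K := ℝ) {0} ⟨fun p : I × ℝ => (p.1 : ℝ) * p.2, by fun_prop⟩ ?_ ?_ F hF hne ?_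
  · intro x
    simp
  · intro x
    simp
  · refine ⟨fun _ => Complex.log (F 0), continuousOn_const, ?_⟩
    rintro x rfl
    exact Complex.exp_log (hne 0)

/-- the core circle of the solid torus -/
def cc (t : ℝ) : handlebody3 1 :=
  ⟨((Real.sqrt 13 : ℝ) * Complex.exp ((t : ℝ) * Complex.I), 0), by
    show (0 : ℝ) ^ 2 ≤ planar 1 _
    rw [planar_one, norm_mul, Complex.norm_exp_ofReal_mul_I, mul_one, Complex.norm_real,
      Real.norm_eq_abs, sq_abs, Real.sq_sqrt (by norm_num)]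
    norm_num⟩

lemma cc_cont : Continuous cc := by
  unfold cc
  fun_prop

lemma cc_periodic (t : ℝ) : cc (t + 2 * Real.pi) = cc t := by
  apply Subtype.ext
  show (((Real.sqrt 13 : ℝ) * Complex.exp ((t + 2 * Real.pi : ℝ) * Complex.I), (0 : ℝ)) : ℂ × ℝ) =
    ((Real.sqrt 13 : ℝ) * Complex.exp ((t : ℝ) * Complex.I), 0)
  have : Complex.exp ((t + 2 * Real.pi : ℝ) * Complex.I) = Complex.exp ((t : ℝ) * Complex.I) := by
    rw [show ((t + 2 * Real.pi : ℝ) * Complex.I : ℂ) = (t : ℝ) * Complex.I + 2 * Real.pi * Complex.I by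
      push_cast; ring, Complex.exp_periodic]
  rw [this]

/-- the winding number along a periodic line -/
lemma exists_winding (F : ℝ → ℂ) (hF : Continuous F) (hne : ∀ t, F t ≠ 0) (T : ℝ)
    (hT : ∀ t, F (t + T) = F t) : ∃ (l : ℝ → ℂ) (d : ℤ), Continuous l ∧
      (∀ t, Complex.exp (l t) = F t) ∧ ∀ t, l (t + T) = l t + d * (2 * Real.pi * Complex.I) := by
  obtain ⟨l, hl, he⟩ := exists_log_real F hF hne
  have h1 : Continuous fun t => l (t + T) := by fun_prop
  obtain ⟨n, hn⟩ := log_unique isPreconnected_univ h1.continuousOn hl.continuousOn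
    (fun t _ => by rw [he, he, hT])
  exact ⟨l, n, hl, he, fun t => hn t (mem_univ _)⟩

/-- a function on the solid torus which has a periodic logarithm along the core has a logarithm -/
lemma hasLog_torus (f : handlebody3 1 → ℂ) (hf : Continuous f) (hne : ∀ x, f x ≠ 0)
    (l : ℝ → ℂ) (hl : Continuous l) (he : ∀ t, Complex.exp (l t) = f (cc t))
    (hp : ∀ t, l (t + 2 * Real.pi) = l t) : HasLog f := by
  -- descend to the circle
  have hper : Function.Periodic l (2 * Real.pi) := hp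
  let l' : Real.Angle → ℂ := Function.Periodic.lift hper
  have hl' : Continuous l' := hl.quotient_liftOn' _
  have hl'e : ∀ t : ℝ, l' (t : Real.Angle) = l t := fun t => rfl
  have hz : ∀ x : handlebody3 1, (x : ℂ × ℝ).1 ≠ 0 := fun x => hb_ne x.2
  have hv : ∀ x : handlebody3 1, (x : ℂ × ℝ).2 ^ 2 + (‖(x : ℂ × ℝ).1‖ ^ 2 - 13) ^ 2 ≤ 144 := by
    intro x
    have h1 : (x : ℂ × ℝ).2 ^ 2 ≤ planar 1 (x : ℂ × ℝ).1 := x.2
    rw [planar_one] at h1
    nlinarith
  have hmem : ∀ (s : I) (x : handlebody3 1),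
      (((Real.sqrt (13 + s * (‖(x : ℂ × ℝ).1‖ ^ 2 - 13)) : ℝ) : ℂ) *
        ((x : ℂ × ℝ).1 / ‖(x : ℂ × ℝ).1‖), (s : ℝ) * (x : ℂ × ℝ).2) ∈ handlebody3 1 := by
    intro s x
    have h1 := hv x
    have hs0 : (0 : ℝ) ≤ s := s.2.1
    have hs1 : (s : ℝ) ≤ 1 := s.2.2
    set v := ‖(x : ℂ × ℝ).1‖ ^ 2 - 13 with hvdef
    set w := (x : ℂ × ℝ).2
    have hv1 : -12 ≤ v := by nlinarith [sq_nonneg w]
    have hn : ‖((x : ℂ × ℝ).1 / ‖(x : ℂ × ℝ).1‖ : ℂ)‖ = 1 := by
      rw [norm_div, Complex.norm_real, norm_norm]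
      exact div_self (norm_ne_zero_iff.mpr (hz x))
    have hpos : 0 ≤ 13 + s * v := by nlinarith
    show ((s : ℝ) * w) ^ 2 ≤ planar 1 _
    rw [planar_one, norm_mul, hn, mul_one, Complex.norm_real, Real.norm_eq_abs, sq_abs,
      Real.sq_sqrt hpos]
    have hs2 : (s : ℝ) ^ 2 ≤ 1 := by nlinarith
    nlinarith [sq_nonneg (s : ℝ), mul_le_mul_of_nonneg_left h1 (sq_nonneg (s : ℝ))]
  refine hasLog_of_homotopy (K := handlebody3 1) {x | ‖(x : ℂ × ℝ).1‖ ^ 2 = 13 ∧ (x : ℂ × ℝ).2 = 0}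
    ⟨fun p : I × handlebody3 1 => ⟨_, hmem p.1 p.2⟩, ?_⟩ ?_ ?_ f hf hne ?_
  · refine Continuous.subtype_mk ?_ _
    refine Continuous.prodMk ?_ (by fun_prop)
    refine Continuous.mul (by fun_prop) ?_
    refine Continuous.div (by fun_prop) (by fun_prop) ?_
    intro p
    exact_mod_cast norm_ne_zero_iff.mpr (hz p.2)
  · intro x
    have hn : ‖((x : ℂ × ℝ).1 / ‖(x : ℂ × ℝ).1‖ : ℂ)‖ = 1 := by
      rw [norm_div, Complex.norm_real, norm_norm]
      exact div_self (norm_ne_zero_iff.mpr (hz x))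
    refine ⟨?_, ?_⟩
    · show ‖((Real.sqrt (13 + ((0 : I) : ℝ) * (‖(x : ℂ × ℝ).1‖ ^ 2 - 13)) : ℝ) : ℂ) *
        ((x : ℂ × ℝ).1 / ‖(x : ℂ × ℝ).1‖)‖ ^ 2 = 13
      rw [norm_mul, hn, mul_one, Complex.norm_real, Real.norm_eq_abs, sq_abs]
      simp
    · show ((0 : I) : ℝ) * (x : ℂ × ℝ).2 = 0
      simp
  · intro x
    have hn : (‖(x : ℂ × ℝ).1‖ : ℂ) ≠ 0 := by exact_mod_cast norm_ne_zero_iff.mpr (hz x)
    apply Subtype.ext
    apply Prod.ext
    · show ((Real.sqrt (13 + ((1 : I) : ℝ) * (‖(x : ℂ × ℝ).1‖ ^ 2 - 13)) : ℝ) : ℂ) *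
        ((x : ℂ × ℝ).1 / ‖(x : ℂ × ℝ).1‖) = (x : ℂ × ℝ).1
      rw [Set.Icc.coe_one, one_mul, show 13 + (‖(x : ℂ × ℝ).1‖ ^ 2 - 13) = ‖(x : ℂ × ℝ).1‖ ^ 2 by ring,
        Real.sqrt_sq (norm_nonneg _)]
      field_simp
    · show ((1 : I) : ℝ) * (x : ℂ × ℝ).2 = (x : ℂ × ℝ).2
      simp
  · refine ⟨fun x => l' (Complex.arg (x : ℂ × ℝ).1 : Real.Angle), ?_, ?_⟩
    · refine Continuous.continuousOn (hl'.comp ?_)
      rw [continuous_iff_continuousAt]
      intro x
      exact (Complex.continuousAt_arg_coe_angle (hz x)).comp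
        (f := fun x : handlebody3 1 => (x : ℂ × ℝ).1) (by fun_prop)
    · rintro x ⟨h1, h2⟩
      simp only [hl'e, he]
      congr 1
      apply Subtype.ext
      apply Prod.ext
      · show ((Real.sqrt 13 : ℝ) : ℂ) * Complex.exp (((Complex.arg (x : ℂ × ℝ).1) : ℝ) * Complex.I) = _
        rw [← h1, Real.sqrt_sq (norm_nonneg _)]
        exact Complex.norm_mul_exp_arg_mul_I _
      · exact h2.symm

/-- any two functions on the solid torus are multiplicatively dependent up to logarithms -/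
lemma rank_torus (f₁ f₂ : handlebody3 1 → ℂ) (hf₁ : Continuous f₁) (hf₂ : Continuous f₂)
    (h₁ : ∀ x, f₁ x ≠ 0) (h₂ : ∀ x, f₂ x ≠ 0) :
    ∃ a b : ℤ, (a ≠ 0 ∨ b ≠ 0) ∧ HasLog fun x => f₁ x ^ a * f₂ x ^ b := by
  obtain ⟨l₁, d₁, c₁, e₁, p₁⟩ := exists_winding (fun t => f₁ (cc t)) (hf₁.comp cc_cont)
    (fun t => h₁ _) (2 * Real.pi) (fun t => by rw [cc_periodic])
  obtain ⟨l₂, d₂, c₂, e₂, p₂⟩ := exists_winding (fun t => f₂ (cc t)) (hf₂.comp cc_cont)
    (fun t => h₂ _) (2 * Real.pi) (fun t => by rw [cc_periodic])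
  have key : ∀ a b : ℤ, a * d₁ + b * d₂ = 0 → HasLog fun x => f₁ x ^ a * f₂ x ^ b := by
    intro a b hab
    refine hasLog_torus _ ?_ ?_ (fun t => a * l₁ t + b * l₂ t) (by fun_prop) ?_ ?_
    · exact (hf₁.zpow₀ a fun x => Or.inl (h₁ x)).mul (hf₂.zpow₀ b fun x => Or.inl (h₂ x))
    · intro x
      exact mul_ne_zero (zpow_ne_zero _ (h₁ x)) (zpow_ne_zero _ (h₂ x))
    · intro t
      rw [Complex.exp_add, Complex.exp_int_mul, Complex.exp_int_mul, e₁, e₂]
    · intro t
      have hab' : ((a : ℂ) * d₁ + b * d₂) = 0 := by exact_mod_cast hab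
      rw [p₁, p₂]
      linear_combination (2 * Real.pi * Complex.I) * hab'
  by_cases hd : d₁ = 0
  · exact ⟨1, 0, Or.inl one_ne_zero, key 1 0 (by simp [hd])⟩
  · exact ⟨d₂, -d₁, Or.inr (neg_ne_zero.mpr hd), key _ _ (by ring)⟩

/-- the surface `surface 1` is connected -/
lemma surface_one_conn : IsPreconnected (surface 1) := by
  have h : surface 1 = range fun p : ℝ × ℝ => (((Real.sqrt (13 + 12 * Real.cos p.2) : ℝ) : ℂ) *
      Complex.exp ((p.1 : ℝ) * Complex.I), 12 * Real.sin p.2) := by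
    ext x
    constructor
    · intro hx
      have h1 : x.2 ^ 2 = planar 1 x.1 := hx
      rw [planar_one] at h1
      have h2 : (x.2 / 12) ^ 2 + ((‖x.1‖ ^ 2 - 13) / 12) ^ 2 = 1 := by
        field_simp
        nlinarith
      -- find the angle
      set c : ℂ := ⟨(‖x.1‖ ^ 2 - 13) / 12, x.2 / 12⟩ with hc
      have hcn : ‖c‖ = 1 := by
        have : ‖c‖ ^ 2 = 1 := by
          rw [← Complex.normSq_eq_norm_sq, Complex.normSq_mk]
          nlinarith
        nlinarith [norm_nonneg c]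
      have hc0 : c ≠ 0 := by
        intro h0; rw [h0] at hcn; simp at hcn
      refine ⟨(Complex.arg x.1, Complex.arg c), ?_⟩
      have hcos : Real.cos (Complex.arg c) = (‖x.1‖ ^ 2 - 13) / 12 := by
        rw [Complex.cos_arg hc0, hcn, div_one]
      have hsin : Real.sin (Complex.arg c) = x.2 / 12 := by
        rw [Complex.sin_arg, hcn, div_one]
      apply Prod.ext
      · show ((Real.sqrt (13 + 12 * Real.cos (Complex.arg c)) : ℝ) : ℂ) * _ = x.1
        rw [hcos, show 13 + 12 * ((‖x.1‖ ^ 2 - 13) / 12) = ‖x.1‖ ^ 2 by ring,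
          Real.sqrt_sq (norm_nonneg _)]
        exact Complex.norm_mul_exp_arg_mul_I _
      · show 12 * Real.sin (Complex.arg c) = x.2
        rw [hsin]; ring
    · rintro ⟨p, rfl⟩
      show (12 * Real.sin p.2) ^ 2 = planar 1 _
      have h3 := Real.neg_one_le_cos p.2
      rw [planar_one, norm_mul, Complex.norm_exp_ofReal_mul_I, mul_one, Complex.norm_real,
        Real.norm_eq_abs, sq_abs, Real.sq_sqrt (by linarith)]
      have := Real.sin_sq_add_cos_sq p.2
      nlinarith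
  rw [h]
  exact isPreconnected_range (by fun_prop)

lemma srf_conn : IsPreconnected Srf := by
  refine surface_one_conn.image _ ?_
  intro p hp
  exact ((emb_smooth p (hb_ne (surface_sub hp))).continuousAt).continuousWithinAt

/-- every nowhere vanishing function on `X` has a logarithm -/
lemma log_X (f : X → ℂ) (hf : Continuous f) (hne : ∀ x, f x ≠ 0) : HasLog f := by
  have : LocallyPathConnectedSpace Sph := ChartedSpace.locallyPathConnectedSpace (EuclideanSpace ℝ (Fin 2)) Sph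
  have hsc : IsSimplyConnected (univ : Set M) := by
    rw [IsSimplyConnected]
    exact (Homeomorph.Set.univ M).toHomotopyEquiv.simplyConnectedSpace
  obtain ⟨L, hL, hLe⟩ := Complex.exists_continuousOn_eqOn_exp_comp hsc isOpen_univ
    (g := fun m => f (q m)) (hf.comp q_cont).continuousOn (by rintro ⟨m, -, hm⟩; exact hne _ hm)
  rw [← continuousOn_univ.symm.eq] at hL
  have hLe' : ∀ m, Complex.exp (L m) = f (q m) := fun m => hLe (mem_univ m)
  have hLn : Continuous fun m => L (-m) := hL.comp neg_cont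
  obtain ⟨n, hn⟩ := log_unique isPreconnected_univ hLn.continuousOn hL.continuousOn
    (fun m _ => by rw [hLe', hLe', q_neg])
  have hn' : ∀ m : M, L (-m) = L m + n * (2 * Real.pi * Complex.I) := fun m => hn m (mem_univ _)
  have hinv : ∀ m : M, L (-m) = L m := by
    intro m
    have h1 := hn' m
    have h2 := hn' (-m)
    rw [neg_neg] at h2
    have h3 : (n : ℂ) * (2 * Real.pi * Complex.I) = 0 := by linear_combination (-1 / 2) * h1 + (-1 / 2) * h2
    rw [h1, h3, add_zero]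
  have hfac : ∀ m m' : M, q m = q m' → L m = L m' := by
    intro m m' h
    rcases q_eq_iff.mp h with rfl | rfl
    · rfl
    · exact hinv m'
  refine ⟨fun x => L (Function.surjInv q_surj x), ?_, ?_⟩
  · rw [q_quot.continuous_iff]
    have : ((fun x => L (Function.surjInv q_surj x)) ∘ q) = L := by
      funext m
      exact hfac _ _ (Function.surjInv_eq q_surj (q m))
    rw [this]
    exact hL
  · intro x
    show Complex.exp (L (Function.surjInv q_surj x)) = f x
    rw [hLe', Function.surjInv_eq q_surj x]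

end

end Pool.Agent.H843R2.Core
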