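import Mathlib
import Pool.Agent.H843R2.Core.Rank

set_option autoImplicit false

open Set Topology
open scoped unitInterval

namespace Pool.Agent.H843R2.Core

noncomputable section

lemma planar_neg_of_large (k : ℕ) (z : ℂ) (hz : 3 * (k : ℝ) + 2 < ‖z‖) : planar k z < 0 := by
  unfold planar
  have hk : (0 : ℝ) ≤ k := Nat.cast_nonneg k
  have h1 : (3 * (k : ℝ) + 2) ^ 2 - ‖z‖ ^ 2 < 0 := by nlinarith
  have h2 : 0 < ∏ j ∈ Finset.range k, (‖z - 3 * (j : ℂ)‖ ^ 2 - 1) := by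
    apply Finset.prod_pos
    intro j hj
    have hj' : (j : ℝ) + 1 ≤ k := by exact_mod_cast Finset.mem_range.mp hj
    have h3 : ‖(3 * (j : ℂ))‖ = 3 * j := by
      rw [norm_mul, Complex.norm_natCast]; norm_num
    have h4 : ‖z‖ - 3 * j ≤ ‖z - 3 * j‖ := by
      have := norm_sub_norm_le z (3 * (j : ℂ))
      rw [h3] at this
      exact this
    nlinarith
  nlinarith [mul_pos_of_neg_of_neg h1 (neg_neg_of_pos h2)]

lemma compact4 (k : ℕ) : IsCompact (handlebody4 k) := by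
  obtain ⟨C, hC⟩ := (isCompact_closedBall (0 : ℂ) (3 * k + 2)).exists_bound_of_continuousOn
    (planar_cont k).continuousOn
  have hsub : handlebody4 k ⊆ Metric.closedBall (0 : ℂ) (3 * k + 2) ×ˢ Metric.closedBall (0 : ℂ) (C + 1) := by
    intro x hx
    have h0 := planar_nonneg4 hx
    have h1 : ‖x.1‖ ≤ 3 * k + 2 := by
      by_contra h
      push Not at h
      exact absurd (planar_neg_of_large k x.1 h) (not_lt.mpr h0)
    have h2 : ‖x.2‖ ^ 2 ≤ planar k x.1 := hx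
    have h3 := hC x.1 (by simpa using h1)
    rw [Real.norm_eq_abs] at h3
    have h4 := le_abs_self (planar k x.1)
    refine ⟨by simpa using h1, ?_⟩
    simp only [Metric.mem_closedBall, dist_zero_right]
    nlinarith [norm_nonneg x.2]
  refine IsCompact.of_isClosed_subset ((isCompact_closedBall _ _).prod (isCompact_closedBall _ _)) ?_ hsub
  have := planar_cont k
  exact isClosed_le (by fun_prop) (by fun_prop)

variable {g : ℕ} {k : Fin 3 → ℕ} {P : Fin 3 → Set X}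

lemma closedP (T : IsTrisection g k P) (i : Fin 3) : IsClosed (P i) := by
  obtain ⟨φ, -⟩ := T.sector i
  have h1 : CompactSpace (handlebody4 (k i)) := isCompact_iff_compactSpace.mp (compact4 (k i))
  have h2 : CompactSpace (P i) := φ.compactSpace
  exact (isCompact_iff_compactSpace.mpr h2).isClosed

lemma H_log (T : IsTrisection g k P) (hS : ⋂ l, P l = Srf) {i j : Fin 3} (hij : i ≠ j)
    (f : X → ℂ) (hf : ContinuousOn f (P i ∩ P j)) (hne : ∀ x ∈ P i ∩ P j, f x ≠ 0)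
    (hL : LogOn f Srf) : LogOn f (P i ∩ P j) := by
  obtain ⟨ψ, hψ⟩ := T.double i j hij
  rw [logOn_iff]
  have hc : Continuous fun y : (P i ∩ P j : Set X) => f y :=
    continuousOn_iff_continuous_domRestrict.mp hf
  have h1 : HasLog fun x => f (ψ x) := by
    refine hasLog_of_surface g _ (hc.comp ψ.continuous) (fun x => hne _ (ψ x).2) ?_
    obtain ⟨L, hL, hLe⟩ := hL
    have hmem : ∀ x ∈ {x : handlebody3 g | (x : ℂ × ℝ) ∈ surface g}, (ψ x : X) ∈ Srf := by
      intro x hx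
      rw [← hS]
      exact (hψ x).mp hx
    refine ⟨fun x => L (ψ x), ?_, fun x hx => hLe _ (hmem x hx)⟩
    exact hL.comp (continuous_subtype_val.comp ψ.continuous).continuousOn hmem
  have h2 := h1.comp ψ.symm ψ.symm.continuous
  simpa using h2

lemma inter3 {i j l : Fin 3} (hij : i ≠ j) (hil : i ≠ l) (hjl : j ≠ l) (Q : Fin 3 → Set X) :
    (Q i ∩ Q j) ∩ (Q i ∩ Q l) = ⋂ m, Q m := by
  have hm : ∀ m : Fin 3, m = i ∨ m = j ∨ m = l := by
    revert i j l; decide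
  ext x
  constructor
  · rintro ⟨⟨h1, h2⟩, -, h3⟩
    rw [mem_iInter]
    intro m
    rcases hm m with rfl | rfl | rfl <;> assumption
  · intro h
    rw [mem_iInter] at h
    exact ⟨⟨h i, h j⟩, h i, h l⟩

lemma frontier_sub (T : IsTrisection g k P) {i j l : Fin 3} (hij : i ≠ j) (hil : i ≠ l)
    (hjl : j ≠ l) : frontier (P i) ⊆ (P i ∩ P j) ∪ (P i ∩ P l) := by
  have hm : ∀ m : Fin 3, m = i ∨ m = j ∨ m = l := by
    revert i j l; decide
  have hc : (P i)ᶜ ⊆ P j ∪ P l := by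
    intro x hx
    have : x ∈ ⋃ m, P m := by rw [T.cover]; trivial
    obtain ⟨m, hxm⟩ := mem_iUnion.mp this
    rcases hm m with rfl | rfl | rfl
    · exact absurd hxm hx
    · exact Or.inl hxm
    · exact Or.inr hxm
  intro x hx
  rw [frontier_eq_closure_inter_closure, (closedP T i).closure_eq] at hx
  have h2 : x ∈ P j ∪ P l :=
    closure_minimal hc ((closedP T j).union (closedP T l)) hx.2
  rcases h2 with h | h
  · exact Or.inl ⟨hx.1, h⟩
  · exact Or.inr ⟨hx.1, h⟩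

lemma others (i : Fin 3) : ∃ j l : Fin 3, i ≠ j ∧ i ≠ l ∧ j ≠ l := by
  revert i; decide

lemma sector_fn (T : IsTrisection g k P) (hS : ⋂ l, P l = Srf) (i : Fin 3) (hk : k i ≠ 0) :
    ∃ c : X → ℂ, ContinuousOn c (P i) ∧ (∀ x ∈ P i, c x ≠ 0) ∧
      ∀ n : ℤ, n ≠ 0 → ¬ LogOn (fun x => c x ^ n) Srf := by
  classical
  obtain ⟨φ, hφ⟩ := T.sector i
  obtain ⟨j, l, hij, hil, hjl⟩ := others i
  set c : X → ℂ := fun x => if h : x ∈ P i then (φ.symm ⟨x, h⟩ : ℂ × ℂ).1 else 1 with hcdef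
  have hcv : ∀ y : P i, c y = (φ.symm y : ℂ × ℂ).1 := by
    intro y
    simp [hcdef]
  have hcont : ContinuousOn c (P i) := by
    rw [continuousOn_iff_continuous_domRestrict]
    have h1 : Continuous fun y : P i => (φ.symm y : ℂ × ℂ).1 := by
      have := φ.symm.continuous
      fun_prop
    exact h1.congr fun y => (hcv y).symm
  have hne : ∀ x ∈ P i, c x ≠ 0 := by
    intro x hx
    have := hcv ⟨x, hx⟩
    show c x ≠ 0
    rw [show c x = (φ.symm ⟨x, hx⟩ : ℂ × ℂ).1 from this]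
    exact fst_ne4 hk (φ.symm ⟨x, hx⟩).2
  refine ⟨c, hcont, hne, ?_⟩
  intro n hn hL
  have hcn : ContinuousOn (fun x => c x ^ n) (P i) :=
    hcont.zpow₀ n fun x hx => Or.inl (hne x hx)
  have h1 : LogOn (fun x => c x ^ n) (P i ∩ P j) :=
    H_log T hS hij _ (hcn.mono inter_subset_left) (fun x hx => zpow_ne_zero _ (hne x hx.1)) hL
  have h2 : LogOn (fun x => c x ^ n) (P i ∩ P l) :=
    H_log T hS hil _ (hcn.mono inter_subset_left) (fun x hx => zpow_ne_zero _ (hne x hx.1)) hL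
  have h3 : LogOn (fun x => c x ^ n) ((P i ∩ P j) ∪ (P i ∩ P l)) := by
    refine LogOn.union ((closedP T i).inter (closedP T j)) ((closedP T i).inter (closedP T l))
      ?_ h1 h2
    rw [inter3 hij hil hjl, hS]
    exact srf_conn
  obtain ⟨L, hLc, hLe⟩ := h3.mono (frontier_sub T hij hil hjl)
  apply no_log4 (k i) n hn
  have hb : ∀ x : handlebody4Bdry (k i), (x : ℂ × ℂ) ∈ handlebody4 (k i) := by
    intro x
    have : ‖(x : ℂ × ℂ).2‖ ^ 2 = planar (k i) (x : ℂ × ℂ).1 := x.2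
    exact this.le
  rw [logOn_iff]
  refine ⟨fun x => L (φ ⟨x, hb x⟩), ?_, ?_⟩
  · refine hLc.comp_continuous ?_ ?_
    · have := φ.continuous
      fun_prop
    · intro x
      exact (hφ ⟨x, hb x⟩).mp x.2
  · intro x
    have h4 := hLe (φ ⟨x, hb x⟩) ((hφ ⟨x, hb x⟩).mp x.2)
    rw [h4]
    show c (φ ⟨x, hb x⟩) ^ n = (x : ℂ × ℂ).1 ^ n
    rw [hcv, Homeomorph.symm_apply_apply]

/-- a point of the surface -/
lemma base_mem : ((5 : ℂ), (0 : ℝ)) ∈ surface 1 := by
  show (0 : ℝ) ^ 2 = planar 1 5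
  rw [planar_one]
  norm_num

/-- the double covering has no section over a set containing the surface -/
lemma no_section' {A : Set X} (hA : Srf ⊆ A) (s : A → M) (hs : Continuous s)
    (hq : ∀ x, q (s x) = x) : False := by
  have hz : (5 : ℂ) ≠ 0 := by norm_num
  have hmem : ∀ t : ℝ, emb (rot 5 t, 0) ∈ A := fun t => hA ⟨_, rot_mem base_mem t, rfl⟩
  refine no_section hz 0 (fun t => s ⟨emb (rot 5 t, 0), hmem t⟩) ?_ ?_ ?_
  · exact hs.comp (Continuous.subtype_mk (emb_rot_cont hz 0) _)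
  · intro t
    exact hq _
  · show s ⟨emb (rot 5 0, 0), hmem 0⟩ = s ⟨emb (rot 5 1, 0), hmem 1⟩
    congr 2
    rw [rot_zero, rot_one]

lemma k_ne (T : IsTrisection g k P) (hS : ⋂ l, P l = Srf) (i : Fin 3) : k i ≠ 0 := by
  intro hk
  obtain ⟨φ, -⟩ := T.sector i
  rw [hk] at φ
  obtain ⟨s, hs⟩ := lift_ball4 q_isCov q_surj
    (⟨fun x => (φ x : X), continuous_subtype_val.comp φ.continuous⟩ : C(handlebody4 0, X))
  have hsub : Srf ⊆ P i := by
    rw [← hS]
    exact iInter_subset _ _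
  refine no_section' hsub (fun x => s (φ.symm x)) (s.continuous.comp φ.symm.continuous) ?_
  intro x
  rw [hs]
  simp

lemma g_ne (T : IsTrisection g k P) (hS : ⋂ l, P l = Srf) : g ≠ 0 := by
  intro hg
  subst hg
  obtain ⟨ψ, -⟩ := T.double 0 1 (by decide)
  obtain ⟨s, hs⟩ := lift_ball3 q_isCov q_surj
    (⟨fun x => (ψ x : X), continuous_subtype_val.comp ψ.continuous⟩ : C(handlebody3 0, X))
  have hsub : Srf ⊆ P 0 ∩ P 1 := by
    rw [← hS]
    exact subset_inter (iInter_subset _ _) (iInter_subset _ _)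
  refine no_section' hsub (fun x => s (ψ.symm x)) (s.continuous.comp ψ.symm.continuous) ?_
  intro x
  rw [hs]
  simp

lemma pair_dep (T : IsTrisection 1 k P) (hS : ⋂ l, P l = Srf) {i j : Fin 3} (hij : i ≠ j)
    (c c' : X → ℂ) (hc : ContinuousOn c (P i)) (hc' : ContinuousOn c' (P j))
    (hne : ∀ x ∈ P i, c x ≠ 0) (hne' : ∀ x ∈ P j, c' x ≠ 0)
    (hn : ∀ n : ℤ, n ≠ 0 → ¬ LogOn (fun x => c x ^ n) Srf)
    (hn' : ∀ n : ℤ, n ≠ 0 → ¬ LogOn (fun x => c' x ^ n) Srf) :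
    ∃ a b : ℤ, a ≠ 0 ∧ b ≠ 0 ∧ LogOn (fun x => c x ^ a * c' x ^ b) (P i ∩ P j) := by
  obtain ⟨ψ, -⟩ := T.double i j hij
  have h1 : Continuous fun y : (P i ∩ P j : Set X) => c y :=
    continuousOn_iff_continuous_domRestrict.mp (hc.mono inter_subset_left)
  have h2 : Continuous fun y : (P i ∩ P j : Set X) => c' y :=
    continuousOn_iff_continuous_domRestrict.mp (hc'.mono inter_subset_right)
  obtain ⟨a, b, hab, hL⟩ := rank_torus (fun x => c (ψ x)) (fun x => c' (ψ x))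
    (h1.comp ψ.continuous) (h2.comp ψ.continuous) (fun x => hne _ (ψ x).2.1)
    (fun x => hne' _ (ψ x).2.2)
  have hL' : LogOn (fun x => c x ^ a * c' x ^ b) (P i ∩ P j) := by
    rw [logOn_iff]
    simpa using hL.comp ψ.symm ψ.symm.continuous
  have hsub : Srf ⊆ P i ∩ P j := by
    rw [← hS]
    exact subset_inter (iInter_subset _ _) (iInter_subset _ _)
  have ha : a ≠ 0 := by
    rintro rfl
    have hb : b ≠ 0 := by simpa using hab
    refine hn' b hb ((hL'.mono hsub).congr fun x _ => ?_)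
    simp
  have hb : b ≠ 0 := by
    rintro rfl
    refine hn a ha ((hL'.mono hsub).congr fun x _ => ?_)
    simp
  exact ⟨a, b, ha, hb, hL'⟩

/-- the main contradiction in genus one -/
lemma no_trisection_one (T : IsTrisection 1 k P) (hS : ⋂ l, P l = Srf) : False := by
  classical
  obtain ⟨c₀, hc₀, hne₀, hn₀⟩ := sector_fn T hS 0 (k_ne T hS 0)
  obtain ⟨c₁, hc₁, hne₁, hn₁⟩ := sector_fn T hS 1 (k_ne T hS 1)
  obtain ⟨c₂, hc₂, hne₂, hn₂⟩ := sector_fn T hS 2 (k_ne T hS 2)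
  obtain ⟨a, b, ha, hb, h01⟩ := pair_dep T hS (i := 0) (j := 1) (by decide) c₀ c₁ hc₀ hc₁ hne₀ hne₁ hn₀ hn₁
  obtain ⟨a', b', ha', hb', h02⟩ := pair_dep T hS (i := 0) (j := 2) (by decide) c₀ c₂ hc₀ hc₂ hne₀ hne₂ hn₀ hn₂
  -- the three functions
  set u₀ : X → ℂ := fun x => c₀ x ^ (a * a') with hu₀
  set u₁ : X → ℂ := fun x => c₁ x ^ (-(b * a')) with hu₁
  set u₂ : X → ℂ := fun x => c₂ x ^ (-(b' * a)) with hu₂
  have hu₀c : ContinuousOn u₀ (P 0) := hc₀.zpow₀ _ fun x hx => Or.inl (hne₀ x hx)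
  have hu₁c : ContinuousOn u₁ (P 1) := hc₁.zpow₀ _ fun x hx => Or.inl (hne₁ x hx)
  have hu₂c : ContinuousOn u₂ (P 2) := hc₂.zpow₀ _ fun x hx => Or.inl (hne₂ x hx)
  have hu₀n : ∀ x ∈ P 0, u₀ x ≠ 0 := fun x hx => zpow_ne_zero _ (hne₀ x hx)
  have hu₁n : ∀ x ∈ P 1, u₁ x ≠ 0 := fun x hx => zpow_ne_zero _ (hne₁ x hx)
  have hu₂n : ∀ x ∈ P 2, u₂ x ≠ 0 := fun x hx => zpow_ne_zero _ (hne₂ x hx)
  have hsub : ∀ i, Srf ⊆ P i := fun i => by rw [← hS]; exact iInter_subset _ _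
  have L01 : LogOn (fun x => u₀ x / u₁ x) (P 0 ∩ P 1) := by
    refine (h01.zpow a').congr fun x hx => ?_
    simp only [hu₀, hu₁]
    rw [mul_zpow, ← zpow_mul, ← zpow_mul, zpow_neg, div_inv_eq_mul]
  have L02 : LogOn (fun x => u₀ x / u₂ x) (P 0 ∩ P 2) := by
    refine (h02.zpow a).congr fun x hx => ?_
    simp only [hu₀, hu₂]
    rw [mul_zpow, ← zpow_mul, ← zpow_mul, zpow_neg, div_inv_eq_mul, mul_comm a' a]
  have L12S : LogOn (fun x => u₁ x / u₂ x) Srf := by
    have h1 := ((L01.mono (subset_inter (hsub 0) (hsub 1))).zpow (-1)).mul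
      (L02.mono (subset_inter (hsub 0) (hsub 2)))
    refine h1.congr fun x hx => ?_
    have := hu₀n x (hsub 0 hx)
    have := hu₁n x (hsub 1 hx)
    have := hu₂n x (hsub 2 hx)
    simp only [zpow_neg, zpow_one]
    field_simp
  have L12 : LogOn (fun x => u₁ x / u₂ x) (P 1 ∩ P 2) := by
    refine H_log T hS (by decide) _ ?_ ?_ L12S
    · exact (hu₁c.mono inter_subset_left).div (hu₂c.mono inter_subset_right)
        fun x hx => hu₂n x hx.2
    · intro x hx
      exact div_ne_zero (hu₁n x hx.1) (hu₂n x hx.2)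
  obtain ⟨A, hA, hAe⟩ := L01
  obtain ⟨B, hB, hBe⟩ := L02
  obtain ⟨C, hC, hCe⟩ := L12
  have cl : ∀ i, IsClosed (P i) := closedP T
  -- extend `A` to `X`
  have ext : ∀ (S : Set X) (F : X → ℂ), IsClosed S → ContinuousOn F S →
      ∃ G : X → ℂ, Continuous G ∧ ∀ x ∈ S, G x = F x := by
    intro S F hS hF
    obtain ⟨G, hG⟩ := ContinuousMap.exists_restrict_eq hS
      (⟨fun x : S => F x, continuousOn_iff_continuous_domRestrict.mp hF⟩ : C(S, ℂ))
    refine ⟨G, G.continuous, fun x hx => ?_⟩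
    exact congrArg (fun (φ : C(S, ℂ)) => φ ⟨x, hx⟩) hG
  obtain ⟨E₁, hE₁, hE₁A⟩ := ext (P 0 ∩ P 1) A ((cl 0).inter (cl 1)) hA
  -- compare on the surface
  obtain ⟨n, hn⟩ := log_unique srf_conn (L := B) (L' := fun x => E₁ x + C x)
    (hB.mono (subset_inter (hsub 0) (hsub 2)))
    (hE₁.continuousOn.add (hC.mono (subset_inter (hsub 1) (hsub 2)))) (by
      intro x hx
      rw [Complex.exp_add, hBe x ⟨hsub 0 hx, hsub 2 hx⟩, hE₁A x ⟨hsub 0 hx, hsub 1 hx⟩,
        hAe x ⟨hsub 0 hx, hsub 1 hx⟩, hCe x ⟨hsub 1 hx, hsub 2 hx⟩]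
      have := hu₁n x (hsub 1 hx)
      have := hu₂n x (hsub 2 hx)
      field_simp)
  set W : X → ℂ := fun x => if x ∈ P 0 ∩ P 2 then B x else E₁ x + C x + n * (2 * Real.pi * Complex.I)
    with hW
  have hW1 : ∀ x ∈ P 0 ∩ P 2, W x = B x := fun x hx => by simp only [hW, hx, if_true]
  have hW2 : ∀ x ∈ P 1 ∩ P 2, W x = E₁ x + C x + n * (2 * Real.pi * Complex.I) := by
    intro x hx
    by_cases h : x ∈ P 0 ∩ P 2
    · rw [hW1 x h]
      apply hn
      rw [← hS, ← inter3 (i := 2) (j := 0) (l := 1) (by decide) (by decide) (by decide) P]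
      exact ⟨⟨hx.2, h.1⟩, hx.2, hx.1⟩
    · simp only [hW, h, if_false]
  have hWc : ContinuousOn W ((P 0 ∩ P 2) ∪ (P 1 ∩ P 2)) := by
    refine ContinuousOn.union_of_isClosed ?_ ?_ ((cl 0).inter (cl 2)) ((cl 1).inter (cl 2))
    · exact hB.congr hW1
    · exact ((hE₁.continuousOn.add hC).add continuousOn_const).congr hW2
  obtain ⟨E₂, hE₂, hE₂W⟩ := ext _ W (((cl 0).inter (cl 2)).union ((cl 1).inter (cl 2))) hWc
  -- the global function
  set F : X → ℂ := fun x => if x ∈ P 0 then u₀ x else if x ∈ P 1 then u₁ x * Complex.exp (E₁ x)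
    else u₂ x * Complex.exp (E₂ x) with hF
  have F0 : ∀ x ∈ P 0, F x = u₀ x := fun x hx => by simp only [hF, hx, if_true]
  have F1 : ∀ x ∈ P 1, F x = u₁ x * Complex.exp (E₁ x) := by
    intro x hx
    by_cases h : x ∈ P 0
    · rw [F0 x h, hE₁A x ⟨h, hx⟩, hAe x ⟨h, hx⟩]
      have := hu₁n x hx
      field_simp
    · simp only [hF, h, hx, if_true, if_false]
  have F2 : ∀ x ∈ P 2, F x = u₂ x * Complex.exp (E₂ x) := by
    intro x hx
    by_cases h : x ∈ P 0
    · rw [F0 x h, hE₂W x (Or.inl ⟨h, hx⟩), hW1 x ⟨h, hx⟩, hBe x ⟨h, hx⟩]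
      have := hu₂n x hx
      field_simp
    · by_cases h1 : x ∈ P 1
      · rw [F1 x h1, hE₂W x (Or.inr ⟨h1, hx⟩), hW2 x ⟨h1, hx⟩, Complex.exp_periodic.int_mul n,
          Complex.exp_add, hCe x ⟨h1, hx⟩]
        have := hu₂n x hx
        field_simp
      · simp only [hF, h, h1, if_false]
  have hcov : ∀ x : X, x ∈ P 0 ∨ x ∈ P 1 ∨ x ∈ P 2 := by
    intro x
    have : x ∈ ⋃ m, P m := by rw [T.cover]; trivial
    obtain ⟨m, hm⟩ := mem_iUnion.mp this
    fin_cases m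
    · exact Or.inl hm
    · exact Or.inr (Or.inl hm)
    · exact Or.inr (Or.inr hm)
  have hFc : Continuous F := by
    have h0 : ContinuousOn F (P 0) := hu₀c.congr F0
    have h1 : ContinuousOn F (P 1) :=
      (hu₁c.mul (Complex.continuous_exp.comp hE₁).continuousOn).congr F1
    have h2 : ContinuousOn F (P 2) :=
      (hu₂c.mul (Complex.continuous_exp.comp hE₂).continuousOn).congr F2
    have h3 := (h0.union_of_isClosed h1 (cl 0) (cl 1)).union_of_isClosed h2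
      ((cl 0).union (cl 1)) (cl 2)
    rw [← continuousOn_univ]
    refine h3.mono fun x _ => ?_
    rcases hcov x with h | h | h
    · exact Or.inl (Or.inl h)
    · exact Or.inl (Or.inr h)
    · exact Or.inr h
  have hFn : ∀ x, F x ≠ 0 := by
    intro x
    rcases hcov x with h | h | h
    · rw [F0 x h]; exact hu₀n x h
    · rw [F1 x h]; exact mul_ne_zero (hu₁n x h) (Complex.exp_ne_zero _)
    · rw [F2 x h]; exact mul_ne_zero (hu₂n x h) (Complex.exp_ne_zero _)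
  obtain ⟨L, hL, hLe⟩ := log_X F hFc hFn
  refine hn₀ (a * a') (mul_ne_zero ha ha') ⟨L, hL.continuousOn, fun x hx => ?_⟩
  rw [hLe, F0 x (hsub 0 hx)]

end

end Pool.Agent.H843R2.Core
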