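import Mathlib
import Pool.Agent.H843R2.Core.Glue

set_option autoImplicit false

open Set Topology
open scoped unitInterval

namespace Pool.Agent.H843R2.Core

noncomputable section

/-- parametrisation of the torus `surface 1` -/
def Sp (p : ℝ × ℝ) : ℂ × ℝ :=
  (((Real.sqrt (13 + 12 * Real.cos p.2) : ℝ) : ℂ) * Complex.exp ((p.1 : ℝ) * Complex.I),
    12 * Real.sin p.2)

lemma Sp_cont : Continuous Sp := by
  unfold Sp
  fun_prop

lemma Sp_mem (p : ℝ × ℝ) : Sp p ∈ surface 1 := by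
  show (12 * Real.sin p.2) ^ 2 = planar 1 _
  have h3 := Real.neg_one_le_cos p.2
  unfold Sp
  rw [planar_one, norm_mul, Complex.norm_exp_ofReal_mul_I, mul_one, Complex.norm_real,
    Real.norm_eq_abs, sq_abs, Real.sq_sqrt (by linarith)]
  have := Real.sin_sq_add_cos_sq p.2
  nlinarith

lemma Sp_per1 (p : ℝ × ℝ) : Sp (p.1 + 2 * Real.pi, p.2) = Sp p := by
  unfold Sp
  have : Complex.exp ((p.1 + 2 * Real.pi : ℝ) * Complex.I) = Complex.exp ((p.1 : ℝ) * Complex.I) := by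
    rw [show ((p.1 + 2 * Real.pi : ℝ) * Complex.I : ℂ) = (p.1 : ℝ) * Complex.I + 2 * Real.pi * Complex.I by
      push_cast; ring, Complex.exp_periodic]
  simp only [this]

lemma Sp_per2 (p : ℝ × ℝ) : Sp (p.1, p.2 + 2 * Real.pi) = Sp p := by
  unfold Sp
  simp only [Real.cos_add_two_pi, Real.sin_add_two_pi]

/-- the second angle -/
def ac (x : ℂ × ℝ) : ℂ := ⟨(‖x.1‖ ^ 2 - 13) / 12, x.2 / 12⟩

lemma ac_cont : Continuous ac := by
  have h : ac = fun x : ℂ × ℝ => (((‖x.1‖ ^ 2 - 13) / 12 : ℝ) : ℂ) + ((x.2 / 12 : ℝ) : ℂ) * Complex.I := by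
    funext x
    exact Complex.mk_eq_add_mul_I _ _
  rw [h]
  fun_prop

lemma ac_norm {x : ℂ × ℝ} (hx : x ∈ surface 1) : ‖ac x‖ = 1 := by
  have h1 : x.2 ^ 2 = planar 1 x.1 := hx
  rw [planar_one] at h1
  have : ‖ac x‖ ^ 2 = 1 := by
    rw [← Complex.normSq_eq_norm_sq, ac, Complex.normSq_mk]
    nlinarith
  nlinarith [norm_nonneg (ac x)]

lemma ac_ne {x : ℂ × ℝ} (hx : x ∈ surface 1) : ac x ≠ 0 := by
  intro h
  have := ac_norm hx
  rw [h] at this
  simp at this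

lemma Sp_ang {x : ℂ × ℝ} (hx : x ∈ surface 1) : Sp (Complex.arg x.1, Complex.arg (ac x)) = x := by
  have hcos : Real.cos (Complex.arg (ac x)) = (‖x.1‖ ^ 2 - 13) / 12 := by
    rw [Complex.cos_arg (ac_ne hx), ac_norm hx, div_one]; rfl
  have hsin : Real.sin (Complex.arg (ac x)) = x.2 / 12 := by
    rw [Complex.sin_arg, ac_norm hx, div_one]; rfl
  unfold Sp
  apply Prod.ext
  · show ((Real.sqrt (13 + 12 * Real.cos (Complex.arg (ac x))) : ℝ) : ℂ) * _ = x.1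
    rw [hcos, show 13 + 12 * ((‖x.1‖ ^ 2 - 13) / 12) = ‖x.1‖ ^ 2 by ring,
      Real.sqrt_sq (norm_nonneg _)]
    exact Complex.norm_mul_exp_arg_mul_I _
  · show 12 * Real.sin (Complex.arg (ac x)) = x.2
    rw [hsin]; ring

/-- a doubly periodic function descends to the product of two circles -/
lemma descend (l : ℝ × ℝ → ℂ) (hl : Continuous l) (h1 : ∀ p, l (p.1 + 2 * Real.pi, p.2) = l p)
    (h2 : ∀ p, l (p.1, p.2 + 2 * Real.pi) = l p) :
    ∃ l' : Real.Angle × Real.Angle → ℂ, Continuous l' ∧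
      ∀ a b : ℝ, l' ((a : Real.Angle), (b : Real.Angle)) = l (a, b) := by
  have hq : IsOpenQuotientMap (fun a : ℝ => (a : Real.Angle)) :=
    QuotientAddGroup.isOpenQuotientMap_mk
  have hqq := hq.prodMap hq
  have hsurj := hqq.surjective
  have hwell : ∀ p p' : ℝ × ℝ, Prod.map (fun a : ℝ => (a : Real.Angle)) (fun a : ℝ => (a : Real.Angle)) p =
      Prod.map (fun a : ℝ => (a : Real.Angle)) (fun a : ℝ => (a : Real.Angle)) p' → l p = l p' := by
    rintro ⟨a, b⟩ ⟨a', b'⟩ h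
    simp only [Prod.map_apply, Prod.mk.injEq] at h
    obtain ⟨m, hm⟩ := Real.Angle.angle_eq_iff_two_pi_dvd_sub.mp h.1
    obtain ⟨n, hn⟩ := Real.Angle.angle_eq_iff_two_pi_dvd_sub.mp h.2
    have p1 : Function.Periodic (fun t => l (t, b)) (2 * Real.pi) := fun t => h1 (t, b)
    have p2 : Function.Periodic (fun t => l (a', t)) (2 * Real.pi) := fun t => h2 (a', t)
    have e1 : l (a, b) = l (a', b) := by
      have h3 : l (a' + m * (2 * Real.pi), b) = l (a', b) := p1.int_mul m a'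
      rw [← h3]
      congr 2
      linarith
    have e2 : l (a', b) = l (a', b') := by
      have h3 : l (a', b' + n * (2 * Real.pi)) = l (a', b') := p2.int_mul n b'
      rw [← h3]
      congr 2
      linarith
    exact e1.trans e2
  refine ⟨fun y => l (Function.surjInv hsurj y), ?_, ?_⟩
  · rw [hqq.isQuotientMap.continuous_iff]
    have : ((fun y => l (Function.surjInv hsurj y)) ∘ Prod.map (fun a : ℝ => (a : Real.Angle))
        (fun a : ℝ => (a : Real.Angle))) = l := by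
      funext p
      exact hwell _ _ (Function.surjInv_eq hsurj _)
    rw [this]
    exact hl
  · intro a b
    exact hwell _ (a, b) (Function.surjInv_eq hsurj _)

/-- logarithms on the plane -/
lemma exists_log_plane (F : ℝ × ℝ → ℂ) (hF : Continuous F) (hne : ∀ t, F t ≠ 0) :
    ∃ l : ℝ × ℝ → ℂ, Continuous l ∧ ∀ t, Complex.exp (l t) = F t := by
  refine hasLog_of_homotopy (K := ℝ × ℝ) {0} ⟨fun p : I × (ℝ × ℝ) => (p.1 : ℝ) • p.2, by fun_prop⟩
    ?_ ?_ F hF hne ?_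
  · intro x
    simp
  · intro x
    simp
  · refine ⟨fun _ => Complex.log (F 0), continuousOn_const, ?_⟩
    rintro x rfl
    exact Complex.exp_log (hne 0)

/-- logarithms and periods on the torus -/
lemma exists_periods (F : ℂ × ℝ → ℂ) (hF : ContinuousOn F (surface 1)) (hne : ∀ x ∈ surface 1, F x ≠ 0) :
    ∃ (l : ℝ × ℝ → ℂ) (a b : ℤ), Continuous l ∧ (∀ p, Complex.exp (l p) = F (Sp p)) ∧
      (∀ p, l (p.1 + 2 * Real.pi, p.2) = l p + a * (2 * Real.pi * Complex.I)) ∧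
      (∀ p, l (p.1, p.2 + 2 * Real.pi) = l p + b * (2 * Real.pi * Complex.I)) := by
  obtain ⟨l, hl, he⟩ := exists_log_plane (fun p => F (Sp p)) (hF.comp_continuous Sp_cont Sp_mem)
    (fun p => hne _ (Sp_mem p))
  have c1 : Continuous fun p : ℝ × ℝ => l (p.1 + 2 * Real.pi, p.2) := by fun_prop
  have c2 : Continuous fun p : ℝ × ℝ => l (p.1, p.2 + 2 * Real.pi) := by fun_prop
  obtain ⟨a, ha⟩ := log_unique isPreconnected_univ c1.continuousOn hl.continuousOn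
    (fun p _ => by rw [he, he, Sp_per1])
  obtain ⟨b, hb⟩ := log_unique isPreconnected_univ c2.continuousOn hl.continuousOn
    (fun p _ => by rw [he, he, Sp_per2])
  exact ⟨l, a, b, hl, he, fun p => ha p (mem_univ _), fun p => hb p (mem_univ _)⟩

/-- vanishing periods give a logarithm -/
lemma logOn_of_periods (F : ℂ × ℝ → ℂ) (l : ℝ × ℝ → ℂ) (hl : Continuous l)
    (he : ∀ p, Complex.exp (l p) = F (Sp p)) (h1 : ∀ p, l (p.1 + 2 * Real.pi, p.2) = l p)
    (h2 : ∀ p, l (p.1, p.2 + 2 * Real.pi) = l p) : LogOn F (surface 1) := by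
  obtain ⟨l', hl', hle⟩ := descend l hl h1 h2
  refine ⟨fun x => l' ((Complex.arg x.1 : Real.Angle), (Complex.arg (ac x) : Real.Angle)), ?_, ?_⟩
  · intro x hx
    have hz : x.1 ≠ 0 := hb_ne (surface_sub hx)
    refine ContinuousAt.continuousWithinAt ?_
    have k1 : ContinuousAt (fun x : ℂ × ℝ => (Complex.arg x.1 : Real.Angle)) x :=
      (Complex.continuousAt_arg_coe_angle hz).comp (f := fun x : ℂ × ℝ => x.1) continuousAt_fst
    have k2 : ContinuousAt (fun x : ℂ × ℝ => (Complex.arg (ac x) : Real.Angle)) x :=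
      (Complex.continuousAt_arg_coe_angle (ac_ne hx)).comp (f := ac) ac_cont.continuousAt
    exact hl'.continuousAt.comp (k1.prodMk k2)
  · intro x hx
    simp only [hle, he, Sp_ang hx]

/-- three integer vectors in the plane are dependent -/
lemma dep3 (a₁ b₁ a₂ b₂ a₃ b₃ : ℤ) : ∃ x y z : ℤ, (x ≠ 0 ∨ y ≠ 0 ∨ z ≠ 0) ∧
    x * a₁ + y * a₂ + z * a₃ = 0 ∧ x * b₁ + y * b₂ + z * b₃ = 0 := by
  by_cases h : a₁ * b₂ - a₂ * b₁ = 0
  · by_cases h1 : a₁ = 0
    · by_cases h2 : b₁ = 0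
      · exact ⟨1, 0, 0, Or.inl one_ne_zero, by simp [h1], by simp [h2]⟩
      · refine ⟨b₂, -b₁, 0, Or.inr (Or.inl (neg_ne_zero.mpr h2)), ?_, by ring⟩
        linarith
    · refine ⟨a₂, -a₁, 0, Or.inr (Or.inl (neg_ne_zero.mpr h1)), by ring, ?_⟩
      linarith
  · refine ⟨a₂ * b₃ - a₃ * b₂, a₃ * b₁ - a₁ * b₃, a₁ * b₂ - a₂ * b₁, Or.inr (Or.inr h), ?_, ?_⟩
    · ring
    · ring

/-- three functions on the torus are multiplicatively dependent up to logarithms -/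
lemma rank_surface (F₁ F₂ F₃ : ℂ × ℝ → ℂ) (c₁ : ContinuousOn F₁ (surface 1))
    (c₂ : ContinuousOn F₂ (surface 1)) (c₃ : ContinuousOn F₃ (surface 1))
    (n₁ : ∀ x ∈ surface 1, F₁ x ≠ 0) (n₂ : ∀ x ∈ surface 1, F₂ x ≠ 0)
    (n₃ : ∀ x ∈ surface 1, F₃ x ≠ 0) : ∃ x y z : ℤ, (x ≠ 0 ∨ y ≠ 0 ∨ z ≠ 0) ∧
      LogOn (fun p => F₁ p ^ x * F₂ p ^ y * F₃ p ^ z) (surface 1) := by
  obtain ⟨l₁, a₁, b₁, k₁, e₁, p₁, q₁⟩ := exists_periods F₁ c₁ n₁
  obtain ⟨l₂, a₂, b₂, k₂, e₂, p₂, q₂⟩ := exists_periods F₂ c₂ n₂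
  obtain ⟨l₃, a₃, b₃, k₃, e₃, p₃, q₃⟩ := exists_periods F₃ c₃ n₃
  obtain ⟨x, y, z, hne, h1, h2⟩ := dep3 a₁ b₁ a₂ b₂ a₃ b₃
  refine ⟨x, y, z, hne, logOn_of_periods _ (fun p => x * l₁ p + y * l₂ p + z * l₃ p)
    (by fun_prop) ?_ ?_ ?_⟩
  · intro p
    rw [Complex.exp_add, Complex.exp_add, Complex.exp_int_mul, Complex.exp_int_mul,
      Complex.exp_int_mul, e₁, e₂, e₃]
  · intro p
    have h : ((x : ℂ) * a₁ + y * a₂ + z * a₃) = 0 := by exact_mod_cast h1
    rw [p₁, p₂, p₃]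
    linear_combination (2 * Real.pi * Complex.I) * h
  · intro p
    have h : ((x : ℂ) * b₁ + y * b₂ + z * b₃) = 0 := by exact_mod_cast h2
    rw [q₁, q₂, q₃]
    linear_combination (2 * Real.pi * Complex.I) * h

end

end Pool.Agent.H843R2.Core
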