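import Mathlib
import Pool.Agent.H843R2.Core.Rank2
import Pool.Agent.H843R2.Core.Indep
import Pool.Agent.H843R2.Core.Orient

set_option autoImplicit false

open Set Topology
open scoped unitInterval

namespace Pool.Agent.H843R2.Core

noncomputable section

lemma planar_neg_three (k : ℕ) (hk : 2 ≤ k) : planar k 3 < 0 := by
  unfold planar
  have h1mem : 1 ∈ Finset.range k := Finset.mem_range.mpr (by omega)
  rw [← Finset.mul_prod_erase _ _ h1mem]
  have hk' : (2 : ℝ) ≤ k := by exact_mod_cast hk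
  have h1 : (‖(3 : ℂ) - 3 * ((1 : ℕ) : ℂ)‖ ^ 2 - 1) = -1 := by simp
  have h2 : 0 < ∏ j ∈ (Finset.range k).erase 1, (‖(3 : ℂ) - 3 * (j : ℂ)‖ ^ 2 - 1) := by
    apply Finset.prod_pos
    intro j hj
    have hj1 : j ≠ 1 := (Finset.mem_erase.mp hj).1
    have h3 : ‖(3 : ℂ) - 3 * (j : ℂ)‖ ^ 2 = 9 * (1 - (j : ℝ)) ^ 2 := by
      rw [show ((3 : ℂ) - 3 * (j : ℂ)) = ((3 * (1 - j) : ℝ) : ℂ) by push_cast; ring,
        Complex.norm_real, Real.norm_eq_abs, sq_abs]
      ring
    rw [h3]
    have h4 : (1 : ℝ) ≤ (1 - (j : ℝ)) ^ 2 := by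
      rcases Nat.lt_or_ge j 1 with h | h
      · have : j = 0 := by omega
        subst this
        norm_num
      · have : 2 ≤ j := by omega
        have h5 : (2 : ℝ) ≤ j := by exact_mod_cast this
        nlinarith
    linarith
  rw [h1]
  have h3 : (0 : ℝ) < ((3 * (k : ℝ) + 2) ^ 2 - ‖(3 : ℂ)‖ ^ 2) := by
    norm_num
    nlinarith
  nlinarith [mul_pos h3 h2]

lemma surf_planar {g : ℕ} {x : ℂ × ℝ} (hx : x ∈ surface g) : 0 ≤ planar g x.1 := by
  have h : x.2 ^ 2 = planar g x.1 := hx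
  rw [← h]; positivity

lemma c0_ne {g : ℕ} (hg : 2 ≤ g) {x : ℂ × ℝ} (hx : x ∈ surface g) : c0 x ≠ 0 := by
  intro h
  have h1 := surf_planar hx
  have h2 : x.1 = 0 := h
  rw [h2] at h1
  exact absurd (planar_neg_zero g (by omega)) (not_lt.mpr h1)

lemma c1_ne {g : ℕ} (hg : 2 ≤ g) {x : ℂ × ℝ} (hx : x ∈ surface g) : c1 x ≠ 0 := by
  intro h
  have h1 := surf_planar hx
  have h2 : x.1 = 3 := sub_eq_zero.mp h
  rw [h2] at h1
  exact absurd (planar_neg_three g hg) (not_lt.mpr h1)

lemma cu_ne {g : ℕ} {x : ℂ × ℝ} (hx : x ∈ surface g) : cu x ≠ 0 := by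
  intro h0
  have h1 := congrArg Complex.re h0
  have h2 := congrArg Complex.im h0
  rw [cu_re] at h1
  rw [cu_im] at h2
  simp only [Complex.zero_re, Complex.zero_im] at h1 h2
  have h3 : ‖x.1‖ = 3 / 2 := by linarith
  have h4 := planar_circle_pos g _ h3
  have h5 : x.2 ^ 2 = planar g x.1 := hx
  rw [h2] at h5
  norm_num at h5
  linarith

lemma compact_surface_one : IsCompact (surface 1) := by
  have h : surface 1 = Sp '' (Icc (-Real.pi) Real.pi ×ˢ Icc (-Real.pi) Real.pi) := by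
    ext x
    constructor
    · intro hx
      exact ⟨_, ⟨⟨(Complex.neg_pi_lt_arg _).le, Complex.arg_le_pi _⟩,
        (Complex.neg_pi_lt_arg _).le, Complex.arg_le_pi _⟩, Sp_ang hx⟩
    · rintro ⟨p, -, rfl⟩
      exact Sp_mem p
  rw [h]
  exact (isCompact_Icc.prod isCompact_Icc).image Sp_cont

/-- the inverse of the embedding on the surface -/
lemma exists_inv : ∃ r : X → ℂ × ℝ, ContinuousOn r Srf ∧ (∀ x ∈ Srf, r x ∈ surface 1) ∧
    ∀ x ∈ Srf, emb (r x) = x := by
  classical
  have : CompactSpace (surface 1) := isCompact_iff_compactSpace.mp compact_surface_one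
  have hc : Continuous fun p : surface 1 => emb p := by
    rw [continuous_iff_continuousAt]
    intro p
    exact (emb_smooth p (hb_ne (surface_sub p.2))).continuousAt.comp
      (f := fun p : surface 1 => (p : ℂ × ℝ)) continuous_subtype_val.continuousAt
  let e : surface 1 ≃ Srf := Equiv.ofBijective (fun p => ⟨emb p, p, p.2, rfl⟩) ⟨by
    intro p p' h
    apply Subtype.ext
    exact emb_inj (hb_ne (surface_sub p.2)) (hb_ne (surface_sub p'.2)) (congrArg Subtype.val h), by
    rintro ⟨x, p, hp, rfl⟩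
    exact ⟨⟨p, hp⟩, rfl⟩⟩
  have he : Continuous e := Continuous.subtype_mk hc _
  let E : surface 1 ≃ₜ Srf := he.homeoOfEquivCompactToT2
  refine ⟨fun x => if h : x ∈ Srf then (E.symm ⟨x, h⟩ : ℂ × ℝ) else 0, ?_, ?_, ?_⟩
  · rw [continuousOn_iff_continuous_domRestrict]
    refine (continuous_subtype_val.comp E.symm.continuous).congr fun x => ?_
    show (E.symm x : ℂ × ℝ) = if h : (x : X) ∈ Srf then (E.symm ⟨x, h⟩ : ℂ × ℝ) else 0
    rw [dif_pos x.2]
  · intro x hx
    simp only [hx, dite_true]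
    exact (E.symm ⟨x, hx⟩).2
  · intro x hx
    simp only [hx, dite_true]
    have := E.apply_symm_apply ⟨x, hx⟩
    exact congrArg Subtype.val this

variable {g : ℕ} {k : Fin 3 → ℕ} {P : Fin 3 → Set X}

lemma g_le (T : IsTrisection g k P) (hS : ⋂ l, P l = Srf) : g ≤ 1 := by
  classical
  by_contra hg
  have hg2 : 2 ≤ g := by omega
  obtain ⟨ψ, hψ⟩ := T.double 0 1 (by decide)
  have hsub : Srf ⊆ P 0 ∩ P 1 := by
    rw [← hS]
    exact subset_inter (iInter_subset _ _) (iInter_subset _ _)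
  have hmem : ∀ p ∈ surface 1, emb p ∈ P 0 ∩ P 1 := fun p hp => hsub ⟨p, hp, rfl⟩
  -- the map from `surface 1` to `surface g`
  set m : ℂ × ℝ → ℂ × ℝ := fun p => if h : p ∈ surface 1 then (ψ.symm ⟨emb p, hmem p h⟩ : ℂ × ℝ) else 0
    with hm
  have hmv : ∀ p (hp : p ∈ surface 1), m p = (ψ.symm ⟨emb p, hmem p hp⟩ : ℂ × ℝ) := by
    intro p hp
    simp only [hm, hp, dite_true]
  have hmc : ContinuousOn m (surface 1) := by
    rw [continuousOn_iff_continuous_domRestrict]
    have hc : Continuous fun p : surface 1 => emb p := by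
      rw [continuous_iff_continuousAt]
      intro p
      exact (emb_smooth p (hb_ne (surface_sub p.2))).continuousAt.comp
        (f := fun p : surface 1 => (p : ℂ × ℝ)) continuous_subtype_val.continuousAt
    have h1 : Continuous fun p : surface 1 => (ψ.symm ⟨emb p, hmem p p.2⟩ : ℂ × ℝ) :=
      continuous_subtype_val.comp (ψ.symm.continuous.comp (Continuous.subtype_mk hc _))
    exact h1.congr fun p => (hmv p p.2).symm
  have hms : ∀ p ∈ surface 1, m p ∈ surface g := by
    intro p hp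
    rw [hmv p hp, hψ, Homeomorph.apply_symm_apply, hS]
    exact ⟨p, hp, rfl⟩
  obtain ⟨x, y, z, hne, hL⟩ := rank_surface (fun p => c0 (m p)) (fun p => c1 (m p))
    (fun p => cu (m p)) (c0_cont.comp_continuousOn hmc) (c1_cont.comp_continuousOn hmc)
    (cu_cont.comp_continuousOn hmc) (fun p hp => c0_ne hg2 (hms p hp))
    (fun p hp => c1_ne hg2 (hms p hp)) (fun p hp => cu_ne (hms p hp))
  obtain ⟨r, hr, hrs, hre⟩ := exists_inv
  have hL' : LogOn (fun p => c0 p ^ x * c1 p ^ y * cu p ^ z) (surface g) := by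
    obtain ⟨L, hLc, hLe⟩ := hL
    rw [logOn_iff]
    have hψS : ∀ p : surface g, (ψ ⟨p, surface_sub p.2⟩ : X) ∈ Srf := by
      intro p
      rw [← hS]
      exact (hψ ⟨p, surface_sub p.2⟩).mp p.2
    have hmr : ∀ p : surface g, m (r (ψ ⟨p, surface_sub p.2⟩)) = p := by
      intro p
      rw [hmv _ (hrs _ (hψS p))]
      have h1 : (⟨emb (r (ψ ⟨p, surface_sub p.2⟩)), hmem _ (hrs _ (hψS p))⟩ :
          (P 0 ∩ P 1 : Set X)) = ψ ⟨p, surface_sub p.2⟩ := Subtype.ext (hre _ (hψS p))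
      rw [h1, Homeomorph.symm_apply_apply]
    refine ⟨fun p => L (r (ψ ⟨p, surface_sub p.2⟩)), ?_, ?_⟩
    · refine hLc.comp_continuous ?_ fun p => hrs _ (hψS p)
      refine hr.comp_continuous ?_ hψS
      have := ψ.continuous
      fun_prop
    · intro p
      rw [hLe _ (hrs _ (hψS p))]
      simp only [hmr]
  obtain ⟨h1, h2, h3⟩ := indep g hg2 x y z hL'
  rcases hne with h | h | h
  · exact h h1
  · exact h h2
  · exact h h3

theorem no_trisection (T : IsTrisection g k P) (hS : ⋂ l, P l = Srf) : False := by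
  have h1 := g_ne T hS
  have h2 := g_le T hS
  obtain rfl : g = 1 := by omega
  exact no_trisection_one T hS

end

end Pool.Agent.H843R2.Core
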